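import Pool.Agent.H49.KA.Defs

open Equiv

namespace H49KA
universe u

variable {G : Type u} [Group G]

private theorem A1_aux [IsSimpleGroup G] (y : G) (hy : y ≠ 1) (z : G) :
    ∃ S : Finset G, z ∈ Subgroup.closure ((fun g => g * y * g⁻¹) '' (S : Set G)) := by
  classical
  have htop : Subgroup.normalClosure ({y} : Set G) = ⊤ := by
    rcases IsSimpleGroup.eq_bot_or_eq_top_of_normal (Subgroup.normalClosure ({y} : Set G))
      inferInstance with h | h
    · exfalso
      have h1 : y ∈ Subgroup.normalClosure ({y} : Set G) :=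
        Subgroup.subset_normalClosure (Set.mem_singleton y)
      rw [h, Subgroup.mem_bot] at h1
      exact hy h1
    · exact h
  have hz : z ∈ Subgroup.closure (Group.conjugatesOfSet ({y} : Set G)) := by
    have h1 : z ∈ Subgroup.normalClosure ({y} : Set G) := by rw [htop]; exact Subgroup.mem_top z
    exact h1
  induction hz using Subgroup.closure_induction with
  | mem x hx =>
    rw [Group.mem_conjugatesOfSet_iff] at hx
    obtain ⟨a, ha, hax⟩ := hx
    rw [Set.mem_singleton_iff] at ha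
    subst ha
    obtain ⟨c, hc⟩ := isConj_iff.1 hax
    refine ⟨{c}, Subgroup.subset_closure ⟨c, by simp, hc⟩⟩
  | one => exact ⟨∅, Subgroup.one_mem _⟩
  | mul a b _ _ iha ihb =>
    obtain ⟨S, hS⟩ := iha
    obtain ⟨S', hS'⟩ := ihb
    refine ⟨S ∪ S', Subgroup.mul_mem _ ?_ ?_⟩
    · refine Subgroup.closure_mono (Set.image_mono ?_) hS
      intro x hx
      simp only [Finset.coe_union, Set.mem_union]
      exact Or.inl hx
    · refine Subgroup.closure_mono (Set.image_mono ?_) hS'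
      intro x hx
      simp only [Finset.coe_union, Set.mem_union]
      exact Or.inr hx
  | inv a _ iha =>
    obtain ⟨S, hS⟩ := iha
    exact ⟨S, Subgroup.inv_mem _ hS⟩

theorem exists_plus (hG : LocFin G) [IsSimpleGroup G] (Y : Subgroup G) [Finite Y] :
    ∃ Y' : Subgroup G, Finite Y' ∧ Y ≤ Y' ∧
      ∀ N : Subgroup G, NormIn Y' N → (∃ y ∈ Y, y ≠ 1 ∧ y ∈ N) → Y ≤ N := by
  classical
  have h1 : ∀ y z : Y, ∃ S : Finset G, (y : G) ≠ 1 →
      (z : G) ∈ Subgroup.closure ((fun g => g * (y : G) * g⁻¹) '' (S : Set G)) := by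
    intro y z
    by_cases hy : (y : G) = 1
    · exact ⟨∅, fun h => absurd hy h⟩
    · obtain ⟨S, hS⟩ := A1_aux (y : G) hy (z : G)
      exact ⟨S, fun _ => hS⟩
  choose S hS using h1
  have hfin : ((Y : Set G) ∪ ⋃ y : Y, ⋃ z : Y, (S y z : Set G)).Finite := by
    refine Set.Finite.union (Set.toFinite _) ?_
    exact Set.finite_iUnion fun y => Set.finite_iUnion fun z => Finset.finite_toSet _
  have hcl : Finite (Subgroup.closure ((Y : Set G) ∪ ⋃ y : Y, ⋃ z : Y, (S y z : Set G))) := by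
    have h := hG hfin.toFinset
    rwa [Set.Finite.coe_toFinset] at h
  refine ⟨_, hcl, fun x hx => Subgroup.subset_closure (Or.inl hx), ?_⟩
  intro N hN ⟨y, hyY, hy1, hyN⟩ z hz
  have h2 := hS ⟨y, hyY⟩ ⟨z, hz⟩ hy1
  have h3 : Subgroup.closure ((fun g => g * y * g⁻¹) '' (S ⟨y, hyY⟩ ⟨z, hz⟩ : Set G)) ≤ N := by
    rw [Subgroup.closure_le]
    rintro x ⟨g, hg, rfl⟩
    refine hN g (Subgroup.subset_closure (Or.inr ?_)) y hyN
    exact Set.mem_iUnion.2 ⟨⟨y, hyY⟩, Set.mem_iUnion.2 ⟨⟨z, hz⟩, hg⟩⟩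
  exact h3 h2

end H49KA
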