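import Pool.Agent.H49.KA.Defs

open Equiv

namespace H49KA
universe u

variable {G : Type u} [Group G]

theorem exists_ro (hG : LocFin G) (hC : NoConf G) (D : Subgroup G) [Finite D] :
    ∃ K₀ : Subgroup G, Finite K₀ ∧ D ≤ K₀ ∧
      ∀ H : Subgroup G, ¬ D ≤ H → ∃ k ∈ K₀, ∀ d ∈ D, k⁻¹ * d * k ∈ H → d = 1 := by
  classical
  by_contra hcon
  push Not at hcon
  have hDf : (D : Set G).Finite := Set.toFinite _
  -- the finite subgroups
  have hK : ∀ S : Finset G, ∃ K₀ : Subgroup G, Finite K₀ ∧ D ≤ K₀ ∧ (S : Set G) ⊆ K₀ := by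
    intro S
    refine ⟨Subgroup.closure ((S ∪ hDf.toFinset : Finset G) : Set G), hG _, ?_, ?_⟩
    · intro d hd
      apply Subgroup.subset_closure
      simp [hd]
    · intro x hx
      apply Subgroup.subset_closure
      have hx' : x ∈ S := hx
      simp [hx']
  choose K₀ hKf hDK hSK using hK
  have hH : ∀ S : Finset G, ∃ H : Subgroup G, ¬ D ≤ H ∧
      ∀ k ∈ K₀ S, ∃ d ∈ D, k⁻¹ * d * k ∈ H ∧ d ≠ 1 := by
    intro S
    obtain ⟨H, h1, h2⟩ := hcon (K₀ S) (hKf S) (hDK S)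
    exact ⟨H, h1, h2⟩
  choose H hDH hHk using hH
  -- an ultrafilter on the finite subsets
  let 𝓤 : Ultrafilter (Finset G) := Ultrafilter.of Filter.atTop
  have h𝓤 : (𝓤 : Filter (Finset G)) ≤ Filter.atTop := Ultrafilter.of_le _
  let L : Subgroup G :=
    { carrier := {g | ∀ᶠ S in (𝓤 : Filter (Finset G)), g ∈ H S}
      mul_mem' := fun {a b} ha hb => (ha.and hb).mono fun S h => (H S).mul_mem h.1 h.2
      one_mem' := Filter.Eventually.of_forall fun S => (H S).one_mem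
      inv_mem' := fun {a} ha => Filter.Eventually.mono ha fun S h => (H S).inv_mem h }
  have hL : ∀ g, g ∈ L ↔ ∀ᶠ S in (𝓤 : Filter (Finset G)), g ∈ H S := fun g => Iff.rfl
  have h1 : ¬ D ≤ L := by
    intro hle
    have h2 : ∀ᶠ S in (𝓤 : Filter (Finset G)), ∀ d ∈ (D : Set G), d ∈ H S := by
      rw [Filter.eventually_all_finite hDf]
      intro d hd
      exact (hL d).1 (hle hd)
    obtain ⟨S, hS⟩ := h2.exists
    exact hDH S hS
  have h2 : Confined L := by
    refine ⟨hDf.toFinset.erase 1, by simp, fun g => ?_⟩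
    have h3 : ∀ᶠ S in (𝓤 : Filter (Finset G)), ∃ d ∈ (D : Set G), (g⁻¹ * d * g ∈ H S ∧ d ≠ 1) := by
      have h4 : ∀ᶠ S in (Filter.atTop : Filter (Finset G)),
          ∃ d ∈ (D : Set G), (g⁻¹ * d * g ∈ H S ∧ d ≠ 1) := by
        filter_upwards [Filter.eventually_ge_atTop ({g} : Finset G)] with S hS
        exact hHk S g (hSK S (hS (Finset.mem_singleton_self g)))
      exact h4.filter_mono h𝓤
    have h5 : ∃ d ∈ (D : Set G), ∀ᶠ S in (𝓤 : Filter (Finset G)),
        (g⁻¹ * d * g ∈ H S ∧ d ≠ 1) := by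
      have h6 := (Ultrafilter.finite_biUnion_mem_iff (f := 𝓤) hDf
        (s := fun d => {S : Finset G | g⁻¹ * d * g ∈ H S ∧ d ≠ 1})).1 (by
          refine Filter.mem_of_superset h3 ?_
          intro S hS
          obtain ⟨d, hd, hd'⟩ := hS
          exact Set.mem_biUnion hd hd')
      obtain ⟨d, hd, hd'⟩ := h6
      exact ⟨d, hd, hd'⟩
    obtain ⟨d, hd, hd'⟩ := h5
    refine ⟨g⁻¹ * d * g, (hL _).2 (hd'.mono fun S h => h.1), ?_⟩
    obtain ⟨S, hS⟩ := hd'.exists
    have h7 : g * (g⁻¹ * d * g) * g⁻¹ = d := by group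
    rw [h7]
    simp only [Finset.mem_erase, Set.Finite.mem_toFinset]
    exact ⟨hS.2, hd⟩
  have h3 := hC L h2
  rw [h3] at h1
  exact h1 le_top

end H49KA
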