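import Pool.Agent.H49.KA.Defs
import Pool.Agent.H49.KA.A1

open Equiv

namespace H49KA
universe u

variable {G : Type u} [Group G]

/-- the conjugate `k C k⁻¹` -/
private def a3Conj (k : G) (C : Subgroup G) : Subgroup G :=
  C.comap (MulAut.conj k⁻¹).toMonoidHom

private lemma a3_mem_conj {k : G} {C : Subgroup G} {x : G} :
    x ∈ a3Conj k C ↔ k⁻¹ * x * k ∈ C := by
  unfold a3Conj
  rw [Subgroup.mem_comap]
  change k⁻¹ * x * k⁻¹⁻¹ ∈ C ↔ _
  rw [inv_inv]

private lemma a3_nonabelian (hG : LocFin G) [IsSimpleGroup G] [Infinite G] :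
    ∃ a b : G, a * b * a⁻¹ * b⁻¹ ≠ 1 := by
  by_contra hcon
  push Not at hcon
  have hcomm : ∀ a b : G, a * b = b * a := by
    intro a b
    have h1 := hcon a b
    have h2 : a * b * a⁻¹ * b⁻¹ = (a * b) * (b * a)⁻¹ := by group
    rw [h2, mul_inv_eq_one] at h1
    exact h1
  obtain ⟨g, hg⟩ := exists_ne (1 : G)
  have hn : (Subgroup.closure ({g} : Set G)).Normal := by
    constructor
    intro n hn x
    rw [hcomm x n, mul_assoc, mul_inv_cancel, mul_one]
    exact hn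
  rcases IsSimpleGroup.eq_bot_or_eq_top_of_normal (Subgroup.closure ({g} : Set G)) hn with h | h
  · apply hg
    have h1 : g ∈ Subgroup.closure ({g} : Set G) := Subgroup.subset_closure rfl
    rw [h, Subgroup.mem_bot] at h1
    exact h1
  · have h1 := hG {g}
    rw [Finset.coe_singleton, h] at h1
    have h2 : Finite G := Finite.of_equiv _ Subgroup.topEquiv.toEquiv
    exact not_finite G

/-- maximal among the proper subgroups of `X` normalised by `X` -/
private def a3Max (X C : Subgroup G) : Prop :=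
  C ≤ X ∧ C ≠ X ∧ NormIn X C ∧
    ∀ N : Subgroup G, C ≤ N → N ≤ X → NormIn X N → N = C ∨ N = X

private lemma a3_exists_max (X : Subgroup G) [Finite X] (hX : X ≠ ⊥) :
    ∃ C, a3Max X C := by
  classical
  have hfin : {C : Subgroup G | C ≤ X ∧ C ≠ X ∧ NormIn X C}.Finite := by
    have h1 : (((X : Set G).powerset)).Finite := (Set.toFinite (X : Set G)).powerset
    have h2 : ((fun C : Subgroup G => (C : Set G)) ⁻¹' ((X : Set G).powerset)).Finite :=
      h1.preimage (SetLike.coe_injective.injOn)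
    exact h2.subset fun C hC => hC.1
  have hne : {C : Subgroup G | C ≤ X ∧ C ≠ X ∧ NormIn X C}.Nonempty := by
    refine ⟨⊥, bot_le, fun h => hX h.symm, ?_⟩
    intro x _ t ht
    rw [Subgroup.mem_bot] at ht ⊢
    rw [ht]
    group
  obtain ⟨C, hC⟩ := hfin.exists_maximal hne
  refine ⟨C, hC.1.1, hC.1.2.1, hC.1.2.2, fun N hCN hNX hN => ?_⟩
  by_cases h : N = X
  · exact Or.inr h
  · exact Or.inl (le_antisymm (hC.2 ⟨hNX, h, hN⟩ hCN) hCN)

private lemma a3_almost (X C : Subgroup G) (hperf : ⁅X, X⁆ = X) (hC : a3Max X C) :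
    AlmostSimpleSec X X C := by
  obtain ⟨h1, h2, h3, h4⟩ := hC
  have hX : NormIn X X := fun x hx t ht => X.mul_mem (X.mul_mem hx ht) (X.inv_mem hx)
  have hnab : ∃ a ∈ X, ∃ b ∈ X, a * b * a⁻¹ * b⁻¹ ∉ C := by
    by_contra hcon
    push Not at hcon
    have h5 : ⁅X, X⁆ ≤ C := by
      rw [Subgroup.commutator_le]
      intro a ha b hb
      exact hcon a ha b hb
    rw [hperf] at h5
    exact h2 (le_antisymm h1 h5)
  refine ⟨le_refl X, h3, hX, ⟨h1, h3, h4, hnab⟩, ?_⟩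
  -- the centre modulo `C`
  let Z : Subgroup G :=
    { carrier := {x | x ∈ X ∧ ∀ t ∈ X, x * t * x⁻¹ * t⁻¹ ∈ C}
      mul_mem' := by
        rintro x y ⟨hx, hx'⟩ ⟨hy, hy'⟩
        refine ⟨X.mul_mem hx hy, fun t ht => ?_⟩
        have e : x * y * t * (x * y)⁻¹ * t⁻¹ =
            (x * (y * t * y⁻¹ * t⁻¹) * x⁻¹) * (x * t * x⁻¹ * t⁻¹) := by group
        rw [e]
        exact C.mul_mem (h3 x hx _ (hy' t ht)) (hx' t ht)
      one_mem' := by
        refine ⟨X.one_mem, fun t _ => ?_⟩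
        have e : (1 : G) * t * 1⁻¹ * t⁻¹ = 1 := by group
        rw [e]
        exact C.one_mem
      inv_mem' := by
        rintro x ⟨hx, hx'⟩
        refine ⟨X.inv_mem hx, fun t ht => ?_⟩
        have e : x⁻¹ * t * x⁻¹⁻¹ * t⁻¹ = x⁻¹ * (x * t * x⁻¹ * t⁻¹)⁻¹ * x⁻¹⁻¹ := by group
        rw [e]
        exact h3 _ (X.inv_mem hx) _ (C.inv_mem (hx' t ht)) }
  have hZ : ∀ x, x ∈ Z ↔ x ∈ X ∧ ∀ t ∈ X, x * t * x⁻¹ * t⁻¹ ∈ C := fun x => Iff.rfl
  have hCZ : C ≤ Z := by
    intro c hc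
    rw [hZ]
    refine ⟨h1 hc, fun t ht => ?_⟩
    have e : c * t * c⁻¹ * t⁻¹ = c * (t * c⁻¹ * t⁻¹) := by group
    rw [e]
    exact C.mul_mem hc (h3 t ht _ (C.inv_mem hc))
  have hZX : Z ≤ X := fun x hx => ((hZ x).1 hx).1
  have hZn : NormIn X Z := by
    intro g hg x hx
    rw [hZ] at hx ⊢
    refine ⟨X.mul_mem (X.mul_mem hg hx.1) (X.inv_mem hg), fun t ht => ?_⟩
    have h5 : g⁻¹ * t * g ∈ X := X.mul_mem (X.mul_mem (X.inv_mem hg) ht) hg
    have e : g * x * g⁻¹ * t * (g * x * g⁻¹)⁻¹ * t⁻¹ =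
        g * (x * (g⁻¹ * t * g) * x⁻¹ * (g⁻¹ * t * g)⁻¹) * g⁻¹ := by group
    rw [e]
    exact h3 g hg _ (hx.2 _ h5)
  intro x hx hxt
  rcases h4 Z hCZ hZX hZn with h | h
  · rw [← h, hZ]
    exact ⟨hx, hxt⟩
  · exfalso
    obtain ⟨a, ha, b, hb, hab⟩ := hnab
    rw [← h, hZ] at ha
    exact hab (ha.2 b hb)

private lemma a3_max_conj (K X C : Subgroup G) (hKX : NormIn K X) (k : G) (hk : k ∈ K)
    (hC : a3Max X C) : a3Max X (a3Conj k C) := by
  obtain ⟨h1, h2, h3, h4⟩ := hC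
  have hX : ∀ x, x ∈ X ↔ k⁻¹ * x * k ∈ X := by
    intro x
    constructor
    · intro hx
      have h := hKX k⁻¹ (K.inv_mem hk) x hx
      rwa [inv_inv] at h
    · intro hx
      have h := hKX k hk _ hx
      have e : k * (k⁻¹ * x * k) * k⁻¹ = x := by group
      rwa [e] at h
  have hnorm : ∀ N : Subgroup G, NormIn X N → ∀ g ∈ K, NormIn X (a3Conj g N) := by
    intro N hN g hg x hx t ht
    rw [a3_mem_conj] at ht ⊢
    have h5 : g⁻¹ * x * g ∈ X := by
      have h := hKX g⁻¹ (K.inv_mem hg) x hx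
      rwa [inv_inv] at h
    have e : g⁻¹ * (x * t * x⁻¹) * g = (g⁻¹ * x * g) * (g⁻¹ * t * g) * (g⁻¹ * x * g)⁻¹ := by
      group
    rw [e]
    exact hN _ h5 _ ht
  have hle : ∀ x, x ∈ a3Conj k⁻¹ X ↔ x ∈ X := by
    intro x
    rw [a3_mem_conj, inv_inv, hX]
    have e : k⁻¹ * (k * x * k⁻¹) * k = x := by group
    rw [e]
  refine ⟨?_, ?_, hnorm C h3 k hk, ?_⟩
  · intro x hx
    rw [a3_mem_conj] at hx
    rw [hX]
    exact h1 hx
  · intro h
    apply h2
    apply le_antisymm h1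
    intro x hx
    have h5 : k * x * k⁻¹ ∈ a3Conj k C := by
      rw [h]
      exact hKX k hk x hx
    rw [a3_mem_conj] at h5
    have e : k⁻¹ * (k * x * k⁻¹) * k = x := by group
    rwa [e] at h5
  · intro N hN1 hN2 hN3
    have h5 := h4 (a3Conj k⁻¹ N) ?_ ?_ (hnorm N hN3 k⁻¹ (K.inv_mem hk))
    · rcases h5 with h5 | h5
      · left
        ext x
        rw [a3_mem_conj, ← h5, a3_mem_conj, inv_inv]
        have e : k * (k⁻¹ * x * k) * k⁻¹ = x := by group
        rw [e]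
      · right
        ext x
        have h6 : k⁻¹ * x * k ∈ a3Conj k⁻¹ N ↔ k⁻¹ * x * k ∈ X := by rw [h5]
        rw [a3_mem_conj, inv_inv] at h6
        have e : k * (k⁻¹ * x * k) * k⁻¹ = x := by group
        rw [e, ← hX] at h6
        exact h6
    · intro x hx
      rw [a3_mem_conj, inv_inv]
      apply hN1
      rw [a3_mem_conj]
      have e : k⁻¹ * (k * x * k⁻¹) * k = x := by group
      rwa [e]
    · intro x hx
      rw [a3_mem_conj, inv_inv] at hx
      have h6 := hN2 hx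
      rw [hX] at h6
      have e : k⁻¹ * (k * x * k⁻¹) * k = x := by group
      rwa [e] at h6

theorem exists_top (hG : LocFin G) [IsSimpleGroup G] [Infinite G] (L : Subgroup G) [Finite L] :
    ∃ L₀ : Subgroup G, Finite L₀ ∧ L ≤ L₀ ∧ ∀ K : Subgroup G, Finite K → L₀ ≤ K →
      ∃ X C : Subgroup G, X ≤ K ∧ NormIn K X ∧ L ≤ X ∧ ⁅X, X⁆ = X ∧
        AlmostSimpleSec X X C ∧ L ⊓ C = ⊥ := by
  classical
  obtain ⟨a, b, hab⟩ := a3_nonabelian hG
  have hfin : ((L : Set G) ∪ {a, b}).Finite :=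
    Set.Finite.union (Set.toFinite _) (Set.toFinite _)
  obtain ⟨L', hL'⟩ : ∃ L' : Subgroup G, L' = Subgroup.closure ((L : Set G) ∪ {a, b}) := ⟨_, rfl⟩
  have hL'fin : Finite L' := by
    have h := hG hfin.toFinset
    rw [Set.Finite.coe_toFinset] at h
    rwa [hL']
  have hLL' : L ≤ L' := fun x hx => by
    rw [hL']
    exact Subgroup.subset_closure (Or.inl hx)
  have haL' : a ∈ L' := by
    rw [hL']
    exact Subgroup.subset_closure (Or.inr (by simp))
  have hbL' : b ∈ L' := by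
    rw [hL']
    exact Subgroup.subset_closure (Or.inr (by simp))
  obtain ⟨L₁, hL₁fin, hL'L₁, hL₁⟩ := exists_plus hG L'
  obtain ⟨L₀, hL₀fin, hL₁L₀, hL₀⟩ := exists_plus hG L₁
  refine ⟨L₀, hL₀fin, hLL'.trans (hL'L₁.trans hL₁L₀), fun K hK hL₀K => ?_⟩
  obtain ⟨X, hXdef⟩ : ∃ X : Subgroup G,
      X = Subgroup.closure {x | ∃ k ∈ K, ∃ l ∈ L₁, x = k * l * k⁻¹} := ⟨_, rfl⟩
  have hXK : X ≤ K := by
    rw [hXdef, Subgroup.closure_le]
    rintro x ⟨k, hk, l, hl, rfl⟩
    exact K.mul_mem (K.mul_mem hk (hL₀K (hL₁L₀ hl))) (K.inv_mem hk)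
  have hXfin : Finite X := Finite.Set.subset (K : Set G) hXK
  have hKX : NormIn K X := by
    intro k hk x hx
    have h1 : X ≤ X.comap (MulAut.conj k).toMonoidHom := by
      conv_lhs => rw [hXdef]
      rw [Subgroup.closure_le]
      rintro x ⟨k', hk', l, hl, rfl⟩
      change k * (k' * l * k'⁻¹) * k⁻¹ ∈ X
      rw [hXdef]
      refine Subgroup.subset_closure ⟨k * k', K.mul_mem hk hk', l, hl, ?_⟩
      group
    exact h1 hx
  have hL₁X : L₁ ≤ X := by
    intro l hl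
    rw [hXdef]
    refine Subgroup.subset_closure ⟨1, K.one_mem, l, hl, ?_⟩
    group
  -- anything normalised by `K` and containing a nontrivial element of `L₁` contains `X`
  have hbig : ∀ N : Subgroup G, NormIn K N → (∃ y ∈ L₁, y ≠ 1 ∧ y ∈ N) → X ≤ N := by
    intro N hN hy
    have h1 : L₁ ≤ N := hL₀ N (fun x hx => hN x (hL₀K hx)) hy
    rw [hXdef, Subgroup.closure_le]
    rintro x ⟨k, hk, l, hl, rfl⟩
    exact hN k hk l (h1 hl)
  have hperf : ⁅X, X⁆ = X := by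
    apply le_antisymm (Subgroup.commutator_le_self X)
    apply hbig
    · intro k hk x hx
      have h1 : ⁅X, X⁆ ≤ ⁅X, X⁆.comap (MulAut.conj k).toMonoidHom := by
        rw [Subgroup.commutator_le]
        intro g₁ hg₁ g₂ hg₂
        rw [Subgroup.mem_comap, map_commutatorElement]
        exact Subgroup.commutator_mem_commutator (hKX k hk g₁ hg₁) (hKX k hk g₂ hg₂)
      exact h1 hx
    · refine ⟨a * b * a⁻¹ * b⁻¹, ?_, hab, ?_⟩
      · exact hL'L₁ (L'.mul_mem (L'.mul_mem (L'.mul_mem haL' hbL') (L'.inv_mem haL'))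
          (L'.inv_mem hbL'))
      · exact Subgroup.commutator_mem_commutator (hL₁X (hL'L₁ haL')) (hL₁X (hL'L₁ hbL'))
  have hXbot : X ≠ ⊥ := by
    intro h
    have h1 : a * b * a⁻¹ * b⁻¹ ∈ X := by
      have ha : a ∈ X := hL₁X (hL'L₁ haL')
      have hb : b ∈ X := hL₁X (hL'L₁ hbL')
      exact X.mul_mem (X.mul_mem (X.mul_mem ha hb) (X.inv_mem ha)) (X.inv_mem hb)
    rw [h, Subgroup.mem_bot] at h1
    exact hab h1
  obtain ⟨C, hC⟩ := a3_exists_max X hXbot
  by_cases hk : ∃ k ∈ K, L' ⊓ a3Conj k C = ⊥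
  · obtain ⟨k, hk, hkC⟩ := hk
    refine ⟨X, a3Conj k C, hXK, hKX, hLL'.trans (hL'L₁.trans hL₁X), hperf,
      a3_almost X _ hperf (a3_max_conj K X C hKX k hk hC), ?_⟩
    rw [eq_bot_iff, ← hkC]
    exact inf_le_inf_right _ hLL'
  · exfalso
    push Not at hk
    have h1 : ∀ k ∈ K, L' ≤ a3Conj k C := by
      intro k hkK
      have hmax := a3_max_conj K X C hKX k hkK hC
      apply hL₁
      · exact fun x hx => hmax.2.2.1 x (hL₁X hx)
      · obtain ⟨y, hy1⟩ := (Subgroup.ne_bot_iff_exists_ne_one).1 (hk k hkK)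
        exact ⟨y, y.2.1, fun h => hy1 (Subtype.ext h), y.2.2⟩
    let D : Subgroup G := ⨅ k : K, a3Conj (k : G) C
    have hD : ∀ x, x ∈ D ↔ ∀ k ∈ K, k⁻¹ * x * k ∈ C := by
      intro x
      rw [Subgroup.mem_iInf]
      constructor
      · intro h k hk
        exact a3_mem_conj.1 (h ⟨k, hk⟩)
      · intro h k
        exact a3_mem_conj.2 (h k k.2)
    have hXD : X ≤ D := by
      apply hbig
      · intro k hk x hx
        rw [hD] at hx ⊢
        intro k' hk'
        have h2 := hx (k⁻¹ * k') (K.mul_mem (K.inv_mem hk) hk')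
        have e : (k⁻¹ * k')⁻¹ * x * (k⁻¹ * k') = k'⁻¹ * (k * x * k⁻¹) * k' := by group
        rwa [e] at h2
      · refine ⟨a * b * a⁻¹ * b⁻¹, ?_, hab, ?_⟩
        · exact hL'L₁ (L'.mul_mem (L'.mul_mem (L'.mul_mem haL' hbL') (L'.inv_mem haL'))
            (L'.inv_mem hbL'))
        · rw [Subgroup.mem_iInf]
          intro k
          exact h1 k k.2 (L'.mul_mem (L'.mul_mem (L'.mul_mem haL' hbL') (L'.inv_mem haL'))
            (L'.inv_mem hbL'))
    have hXC : X ≤ C := by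
      intro x hx
      have h2 := (hD x).1 (hXD hx) 1 K.one_mem
      have e : (1 : G)⁻¹ * x * 1 = x := by group
      rwa [e] at h2
    exact hC.2.1 (le_antisymm hC.1 hXC)

end H49KA
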