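import Pool.Agent.H49.KA.Defs
import Pool.Agent.H49.KA.A3

open Equiv

namespace H49KA
universe u

/-- A subgroup of small index containing a maximal normal subgroup of large index is everything. -/
private lemma a4_core {X : Type u} [Group X] [Finite X] (C : Subgroup X)
    (hmax : ∀ N : Subgroup X, N.Normal → C ≤ N → N = C ∨ N = ⊤) (hCn : C.Normal) (c : ℕ)
    (hbig : Nat.factorial c < C.index) (M : Subgroup X) (hCM : C ≤ M) (hM : M.index ≤ c) :
    M = ⊤ := by
  have h1 : C ≤ M.normalCore := Subgroup.normal_le_normalCore.mpr hCM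
  rcases hmax M.normalCore M.normalCore_normal h1 with h | h
  · exfalso
    have h2 : M.normalCore.index ∣ Nat.factorial M.index := by
      rw [Subgroup.normalCore_eq_ker, Subgroup.index_ker, Subgroup.index_eq_card, ← Nat.card_perm]
      exact Subgroup.card_subgroup_dvd_card (MulAction.toPermHom X (X ⧸ M)).range
    rw [h] at h2
    have h3 := Nat.le_of_dvd (Nat.factorial_pos _) h2
    have h4 : Nat.factorial M.index ≤ Nat.factorial c := Nat.factorial_le hM
    omega
  · have h2 := M.normalCore_le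
    rw [h] at h2
    exact top_le_iff.mp h2

private lemma a4_index {X : Type u} [Group X] [Finite X] (C B M : Subgroup X) (hCn : C.Normal)
    (hBC : B ⊔ C = ⊤) (hCM : C ≤ M) : M.index ≤ M.relIndex B := by
  let f : B ⧸ M.subgroupOf B → X ⧸ M := Quotient.map' (fun b : B => (b : X)) (by
    intro a b h
    rw [QuotientGroup.leftRel_apply] at h ⊢
    exact h)
  have hf : Function.Surjective f := by
    intro q
    induction q using Quotient.inductionOn' with
    | h x =>
      have hx : x ∈ B ⊔ C := by rw [hBC]; exact Subgroup.mem_top x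
      have hx' : x ∈ ((B ⊔ C : Subgroup X) : Set X) := hx
      rw [Subgroup.mul_normal] at hx'
      obtain ⟨b, hb, c, hc, hbc⟩ := hx'
      refine ⟨Quotient.mk'' ⟨b, hb⟩, ?_⟩
      change Quotient.mk'' b = Quotient.mk'' x
      rw [Quotient.eq'', QuotientGroup.leftRel_apply, ← hbc]
      have e : b⁻¹ * ((fun x1 x2 => x1 * x2) b c) = c := by
        change b⁻¹ * (b * c) = c
        group
      rw [e]
      exact hCM hc
  exact Nat.card_le_card_of_surjective f hf

private lemma a4_exists {X : Type u} [Group X] [Finite X] (C : Subgroup X)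
    (hmax : ∀ N : Subgroup X, N.Normal → C ≤ N → N = C ∨ N = ⊤) (hCn : C.Normal)
    (hC : C ≠ ⊤) (c : ℕ) (hbig : Nat.factorial c < C.index) :
    ∃ B : Subgroup X, B ≠ ⊥ ∧
      ∀ S : Subgroup X, S ≤ B → Nat.card B ≤ c * Nat.card S → S = B := by
  have hne : {B : Subgroup X | B ⊔ C = ⊤}.Nonempty := ⟨⊤, by simp⟩
  obtain ⟨B, hB⟩ := (Set.toFinite {B : Subgroup X | B ⊔ C = ⊤}).exists_minimal hne
  have hBC : B ⊔ C = ⊤ := hB.1
  refine ⟨B, ?_, fun S hS hcard => ?_⟩
  · rintro rfl
    rw [bot_sup_eq] at hBC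
    exact hC hBC
  · have h1 : Nat.card S * S.relIndex B = Nat.card B := by
      have h := Subgroup.relIndex_mul_relIndex ⊥ S B bot_le hS
      rwa [Subgroup.relIndex_bot_left, Subgroup.relIndex_bot_left] at h
    have h2 : S.relIndex B ≤ c := by
      have h3 : 0 < Nat.card S := Nat.card_pos
      rw [← h1, mul_comm c] at hcard
      exact Nat.le_of_mul_le_mul_left hcard h3
    have h3 : (S ⊔ C).relIndex B ≤ S.relIndex B :=
      Subgroup.relIndex_le_of_le_left le_sup_left Subgroup.index_ne_zero_of_finite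
    have h4 : (S ⊔ C).index ≤ c :=
      (a4_index C B (S ⊔ C) hCn hBC le_sup_right).trans (h3.trans h2)
    have h5 : S ⊔ C = ⊤ := a4_core C hmax hCn c hbig (S ⊔ C) le_sup_right h4
    exact le_antisymm hS (hB.2 h5 hS)

variable {G : Type u} [Group G]

theorem exists_noSmall (hG : LocFin G) [IsSimpleGroup G] [Infinite G] (c : ℕ) :
    ∃ B : Subgroup G, Finite B ∧ B ≠ ⊥ ∧
      ∀ S : Subgroup G, S ≤ B → Nat.card B ≤ c * Nat.card S → S = B := by
  classical
  obtain ⟨s, hs⟩ := Infinite.exists_subset_card_eq G (Nat.factorial c + 1)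
  have hL : Finite (Subgroup.closure (s : Set G)) := hG s
  obtain ⟨L, hLdef⟩ : ∃ L : Subgroup G, L = Subgroup.closure (s : Set G) := ⟨_, rfl⟩
  rw [← hLdef] at hL
  have hLcard : Nat.factorial c < Nat.card L := by
    have h1 : (s : Set G) ⊆ (L : Set G) := by
      rw [hLdef]
      exact Subgroup.subset_closure
    have h2 : Nat.card (s : Set G) ≤ Nat.card (L : Set G) := Nat.card_mono (Set.toFinite _) h1
    have h3 : Nat.card (s : Set G) = Nat.factorial c + 1 := by
      rw [← hs]
      simp
    have h4 : Nat.card (L : Set G) = Nat.card L := rfl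
    omega
  obtain ⟨L₀, hL₀, -, hK⟩ := exists_top hG L
  obtain ⟨X, C, hXK, -, hLX, -, hAS, hLC⟩ := hK L₀ hL₀ (le_refl _)
  obtain ⟨-, hXC, -, ⟨hCX, -, hmaxC, hnab⟩, -⟩ := hAS
  have hXfin : Finite X := Finite.Set.subset (L₀ : Set G) hXK
  have hCn : (C.subgroupOf X).Normal := by
    constructor
    intro n hn g
    rw [Subgroup.mem_subgroupOf] at hn ⊢
    exact hXC g g.2 n hn
  have hCX' : C ≠ X := by
    rintro rfl
    obtain ⟨a, ha, b, hb, hab⟩ := hnab
    exact hab (C.mul_mem (C.mul_mem (C.mul_mem ha hb) (C.inv_mem ha)) (C.inv_mem hb))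
  have hmax : ∀ N : Subgroup X, N.Normal → C.subgroupOf X ≤ N → N = C.subgroupOf X ∨ N = ⊤ := by
    intro N hN hCN
    have h1 : N = (N.map X.subtype).subgroupOf X := by
      rw [Subgroup.subgroupOf, Subgroup.comap_map_eq_self_of_injective X.subtype_injective]
    have g1 : C ≤ N.map X.subtype := fun x hx => ⟨⟨x, hCX hx⟩, hCN hx, rfl⟩
    have g2 : N.map X.subtype ≤ X := by
      rintro _ ⟨x, -, rfl⟩
      exact x.2
    have g3 : NormIn X (N.map X.subtype) := by
      rintro x hx _ ⟨t, ht, rfl⟩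
      exact ⟨⟨x, hx⟩ * t * ⟨x, hx⟩⁻¹, hN.conj_mem t ht ⟨x, hx⟩, rfl⟩
    rcases hmaxC (N.map X.subtype) g1 g2 g3 with h | h
    · left
      rw [h1, h]
    · right
      rw [h1, h, Subgroup.subgroupOf_self]
  have hidx : Nat.factorial c < (C.subgroupOf X).index := by
    have h1 : C.relIndex L = Nat.card L := by
      rw [← Subgroup.inf_relIndex_right, inf_comm, hLC, Subgroup.relIndex_bot_left]
    have h2 : C.relIndex L ≤ C.relIndex X :=
      Subgroup.relIndex_le_of_le_right hLX Subgroup.index_ne_zero_of_finite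
    have h3 : C.relIndex X = (C.subgroupOf X).index := rfl
    omega
  have hCtop : C.subgroupOf X ≠ ⊤ := by
    rw [Ne, Subgroup.subgroupOf_eq_top]
    exact fun h => hCX' (le_antisymm hCX h)
  obtain ⟨B, hB, hBS⟩ := a4_exists (C.subgroupOf X) hmax hCn hCtop c hidx
  have hle : B.map X.subtype ≤ X := by
    rintro _ ⟨x, -, rfl⟩
    exact x.2
  have hcardB : Nat.card (B.map X.subtype) = Nat.card B :=
    Subgroup.card_map_of_injective X.subtype_injective
  have hBfin : Finite (B.map X.subtype) := Finite.Set.subset (X : Set G) hle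
  refine ⟨B.map X.subtype, hBfin, ?_, fun S hS hcard => ?_⟩
  · intro h
    apply hB
    rwa [Subgroup.map_eq_bot_iff_of_injective _ X.subtype_injective] at h
  · have hSX : S ≤ X := hS.trans hle
    have h1 : Nat.card (S.subgroupOf X) = Nat.card S :=
      Nat.card_congr (Subgroup.subgroupOfEquivOfLe hSX).toEquiv
    have h2 := hBS (S.subgroupOf X) ?_ ?_
    · rw [← h2, Subgroup.subgroupOf_map_subtype, inf_eq_left.mpr hSX]
    · intro x hx
      rw [Subgroup.mem_subgroupOf] at hx
      obtain ⟨y, hy, hyx⟩ := hS hx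
      have : y = x := Subtype.ext hyx
      rwa [← this]
    · rw [h1, ← hcardB]
      exact hcard

end H49KA
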