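import Pool.Agent.H49.KA.Defs
import Pool.Agent.H49.KA.A4

open Equiv

namespace H49KA
universe u

variable {G : Type u} [Group G]

/-- no proper subgroup of index at most `c` -/
private def A5Good (c : ℕ) (B : Subgroup G) : Prop :=
  ∀ S : Subgroup G, S ≤ B → Nat.card B ≤ c * Nat.card S → S = B

private theorem A5card_eq (S A : Subgroup G) :
    Nat.card (S ⊓ A : Subgroup G) * S.relIndex A = Nat.card A := by
  have h := Subgroup.relIndex_mul_relIndex (⊥ : Subgroup G) (S ⊓ A) A bot_le inf_le_right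
  rw [Subgroup.relIndex_bot_left, Subgroup.relIndex_bot_left, Subgroup.inf_relIndex_right] at h
  exact h

private theorem A5card_le {c : ℕ} {S A Y : Subgroup G} [Finite Y] (hSY : S ≤ Y) (hAY : A ≤ Y)
    (h : Nat.card Y ≤ c * Nat.card S) : Nat.card A ≤ c * Nat.card (S ⊓ A : Subgroup G) := by
  have hpos : 0 < Nat.card Y := Nat.card_pos
  have h1 := A5card_eq S Y
  have h2 := A5card_eq S A
  have h3 : S ⊓ Y = S := inf_eq_left.2 hSY
  rw [h3] at h1
  have hne : S.relIndex Y ≠ 0 := by
    intro h0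
    rw [h0, mul_zero] at h1
    omega
  have h4 : S.relIndex A ≤ S.relIndex Y := Subgroup.relIndex_le_of_le_right hAY hne
  have hSpos : 0 < Nat.card S := by
    rcases Nat.eq_zero_or_pos (Nat.card S) with h0 | h0
    · rw [h0, zero_mul] at h1
      omega
    · exact h0
  have h5 : S.relIndex Y ≤ c := by
    rw [← h1, mul_comm] at h
    exact Nat.le_of_mul_le_mul_right h hSpos
  calc Nat.card A = Nat.card (S ⊓ A : Subgroup G) * S.relIndex A := h2.symm
    _ ≤ Nat.card (S ⊓ A : Subgroup G) * c := Nat.mul_le_mul_left _ (h4.trans h5)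
    _ = c * Nat.card (S ⊓ A : Subgroup G) := mul_comm _ _

private theorem A5sup {c : ℕ} {A B Z : Subgroup G} [Finite Z] (hA : A5Good c A)
    (hB : A5Good c B) (hAZ : A ≤ Z) (hBZ : B ≤ Z) : A5Good c (A ⊔ B) := by
  intro S hS hc
  have hYZ : A ⊔ B ≤ Z := sup_le hAZ hBZ
  haveI : Finite (A ⊔ B : Subgroup G) := Finite.of_injective _ (Subgroup.inclusion_injective hYZ)
  have hA' := hA (S ⊓ A) inf_le_right (A5card_le hS le_sup_left hc)
  have hB' := hB (S ⊓ B) inf_le_right (A5card_le hS le_sup_right hc)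
  apply le_antisymm hS
  exact sup_le (inf_eq_right.1 hA') (inf_eq_right.1 hB')

private theorem A5exists_max (c : ℕ) (Z : Subgroup G) [Finite Z] :
    ∃ R : Subgroup G, R ≤ Z ∧ A5Good c R ∧ ∀ B : Subgroup G, B ≤ Z → A5Good c B → B ≤ R := by
  have hbot : A5Good c (⊥ : Subgroup G) := fun S hS _ => le_bot_iff.1 hS
  let P : ℕ → Prop := fun n => ∃ R : Subgroup G, R ≤ Z ∧ A5Good c R ∧ Nat.card R = n
  have hfin : ∀ R : Subgroup G, R ≤ Z → Nat.card R ≤ Nat.card Z := fun R hR =>
    Nat.card_le_card_of_injective _ (Subgroup.inclusion_injective hR)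
  classical
  obtain ⟨R, hRZ, hRg, hRc⟩ := Nat.findGreatest_spec (P := P) (n := Nat.card Z)
    (m := Nat.card (⊥ : Subgroup G)) (hfin _ bot_le) ⟨⊥, bot_le, hbot, rfl⟩
  refine ⟨R, hRZ, hRg, fun B hBZ hB => ?_⟩
  have h1 : A5Good c (R ⊔ B) := A5sup hRg hB hRZ hBZ
  have h2 : R ⊔ B ≤ Z := sup_le hRZ hBZ
  haveI : Finite (R ⊔ B : Subgroup G) := Finite.of_injective _ (Subgroup.inclusion_injective h2)
  have h3 : Nat.card (R ⊔ B : Subgroup G) ≤ Nat.findGreatest P (Nat.card Z) :=
    Nat.le_findGreatest (hfin _ h2) ⟨_, h2, h1, rfl⟩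
  have h4 : R = R ⊔ B := Subgroup.eq_of_le_of_card_ge le_sup_left (by rw [hRc]; exact h3)
  rw [h4]
  exact le_sup_right

/-- the subgroup generated by the conjugates of `f` by the members of a list -/
private def A5C (f : G) (l : List G) : Subgroup G :=
  Subgroup.closure {y | ∃ g ∈ l, y = g * f * g⁻¹}

private theorem A5C_mono (f : G) {l l' : List G} (h : ∀ g ∈ l, g ∈ l') : A5C f l ≤ A5C f l' := by
  apply Subgroup.closure_mono
  rintro y ⟨g, hg, rfl⟩
  exact ⟨g, h g hg, rfl⟩

private theorem A5C_finite (hG : LocFin G) (f : G) (l : List G) : Finite (A5C f l) := by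
  classical
  have h := hG ((l.toFinset).image (fun g => g * f * g⁻¹))
  have h2 : (((l.toFinset).image (fun g => g * f * g⁻¹) : Finset G) : Set G) =
      {y | ∃ g ∈ l, y = g * f * g⁻¹} := by
    ext y
    simp only [Finset.coe_image, List.coe_toFinset, Set.mem_image, Set.mem_setOf_eq]
    constructor
    · rintro ⟨g, hg, rfl⟩
      exact ⟨g, hg, rfl⟩
    · rintro ⟨g, hg, rfl⟩
      exact ⟨g, hg, rfl⟩
  rw [h2] at h
  exact h

private theorem A5normal (N : Subgroup G) [IsSimpleGroup G] (f : G) (hf : f ≠ 1)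
    (h : ∀ g : G, g * f * g⁻¹ ∈ N) : N = ⊤ := by
  have h1 : Subgroup.normalClosure {f} ≤ N := by
    apply (Subgroup.closure_le _).2
    intro y hy
    rw [Group.conjugatesOfSet] at hy
    simp only [Set.mem_singleton_iff, Set.iUnion_iUnion_eq_left, conjugatesOf,
      Set.mem_setOf_eq, isConj_iff] at hy
    obtain ⟨g, rfl⟩ := hy
    exact h g
  rcases (Subgroup.normalClosure_normal (s := {f})).eq_bot_or_eq_top with h2 | h2
  · exfalso
    apply hf
    have h3 : f ∈ Subgroup.normalClosure {f} := Subgroup.subset_normalClosure rfl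
    rw [h2] at h3
    exact Subgroup.mem_bot.1 h3
  · rw [h2] at h1
    exact top_le_iff.1 h1

private theorem A5exists_list (hG : LocFin G) [IsSimpleGroup G] (f : G) (hf : f ≠ 1)
    (B : Subgroup G) [Finite B] : ∃ l : List G, B ≤ A5C f l := by
  classical
  have _ := hG
  have hone : ∀ x : G, ∃ l : List G, x ∈ A5C f l := by
    let N : Subgroup G :=
      { carrier := {x | ∃ l : List G, x ∈ A5C f l}
        one_mem' := ⟨[], Subgroup.one_mem _⟩
        mul_mem' := by
          rintro a b ⟨l, hl⟩ ⟨l', hl'⟩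
          refine ⟨l ++ l', Subgroup.mul_mem _ ?_ ?_⟩
          · exact A5C_mono f (fun g hg => List.mem_append_left _ hg) hl
          · exact A5C_mono f (fun g hg => List.mem_append_right _ hg) hl'
        inv_mem' := by
          rintro a ⟨l, hl⟩
          exact ⟨l, Subgroup.inv_mem _ hl⟩ }
    have hN : N = ⊤ := by
      apply A5normal N f hf
      intro g
      exact ⟨[g], Subgroup.subset_closure ⟨g, by simp, rfl⟩⟩
    intro x
    have : x ∈ N := by rw [hN]; trivial
    exact this
  have hset : ∀ T : Finset G, ∃ l : List G, ∀ x ∈ T, x ∈ A5C f l := by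
    intro T
    induction T using Finset.induction_on with
    | empty => exact ⟨[], by simp⟩
    | insert a T _ ih =>
      obtain ⟨l, hl⟩ := ih
      obtain ⟨l', hl'⟩ := hone a
      refine ⟨l' ++ l, fun x hx => ?_⟩
      rcases Finset.mem_insert.1 hx with rfl | hx
      · exact A5C_mono f (fun g hg => List.mem_append_left _ hg) hl'
      · exact A5C_mono f (fun g hg => List.mem_append_right _ hg) (hl x hx)
  obtain ⟨l, hl⟩ := hset (Set.toFinite (B : Set G)).toFinset
  exact ⟨l, fun x hx => hl x (by simpa using hx)⟩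

private theorem A5claim (hG : LocFin G) [IsSimpleGroup G] [Infinite G] (f : G) (hf : f ≠ 1)
    (c : ℕ) (B : Subgroup G) (hBne : B ≠ ⊥) (hB : A5Good c B)
    (l : List G) (hl : B ≤ A5C f l) :
    ∃ g : G, c * Nat.card (A5C f l) < Nat.card (A5C f (g :: l)) := by
  by_contra hcon
  push Not at hcon
  haveI := A5C_finite hG f l
  obtain ⟨R, hRZ, hRg, hRm⟩ := A5exists_max c (A5C f l)
  have hBR : B ≤ R := hRm B hl hB
  have hnorm : ∀ g : G, g * f * g⁻¹ ∈ Subgroup.normalizer (R : Set G) := by
    intro g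
    haveI := A5C_finite hG f (g :: l)
    obtain ⟨R', hRZ', hRg', hRm'⟩ := A5exists_max c (A5C f (g :: l))
    have hZY : A5C f l ≤ A5C f (g :: l) :=
      A5C_mono f (fun g hg => List.mem_cons_of_mem _ hg)
    have h1 : Nat.card R' ≤ c * Nat.card (A5C f l ⊓ R' : Subgroup G) :=
      A5card_le hZY hRZ' (hcon g)
    have h2 := hRg' _ inf_le_right h1
    have h3 : R' ≤ R := hRm R' (inf_eq_right.1 h2) hRg'
    have h4 : R ≤ R' := hRm' R (hRZ.trans hZY) hRg
    have h5 : R = R' := le_antisymm h4 h3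
    have hfY : g * f * g⁻¹ ∈ A5C f (g :: l) := Subgroup.subset_closure ⟨g, by simp, rfl⟩
    -- conjugation by elements of the larger group
    have hconj : ∀ y ∈ A5C f (g :: l), ∀ r ∈ R', y * r * y⁻¹ ∈ R' := by
      intro y hy r hr
      let φ : G →* G := (MulAut.conj y).toMonoidHom
      have hφ : Function.Injective φ := (MulAut.conj y).injective
      have hle : R'.map φ ≤ A5C f (g :: l) := by
        rintro z ⟨r, hr, rfl⟩
        change y * r * y⁻¹ ∈ _
        exact Subgroup.mul_mem _ (Subgroup.mul_mem _ hy (hRZ' hr)) (Subgroup.inv_mem _ hy)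
      have hgood : A5Good c (R'.map φ) := by
        intro S hS hc
        have hc1 : Nat.card (R'.map φ) = Nat.card R' :=
          (Nat.card_congr (R'.equivMapOfInjective φ hφ).toEquiv).symm
        have hS2 : (S.comap φ).map φ = S := by
          apply Subgroup.map_comap_eq_self
          intro z hz
          obtain ⟨r, _, hr⟩ := hS hz
          exact ⟨r, hr⟩
        have hc2 : Nat.card (S.comap φ) = Nat.card S := by
          conv_rhs => rw [← hS2]
          exact Nat.card_congr ((S.comap φ).equivMapOfInjective φ hφ).toEquiv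
        have h6 : S.comap φ ≤ R' := by
          intro z hz
          obtain ⟨r, hr, hr2⟩ := hS hz
          have := hφ hr2
          rw [← this]
          exact hr
        have h7 := hRg' (S.comap φ) h6 (by rw [hc2, ← hc1]; exact hc)
        rw [← hS2, h7]
      have h8 := hRm' _ hle hgood
      exact h8 ⟨r, hr, rfl⟩
    rw [Subgroup.mem_normalizer_iff]
    intro r
    rw [h5]
    constructor
    · intro hr
      exact hconj _ hfY r hr
    · intro hr
      have := hconj _ (Subgroup.inv_mem _ hfY) _ hr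
      have h9 : (g * f * g⁻¹)⁻¹ * ((g * f * g⁻¹) * r * (g * f * g⁻¹)⁻¹) * ((g * f * g⁻¹)⁻¹)⁻¹ = r := by
        group
      rw [h9] at this
      exact this
  have htop := A5normal (Subgroup.normalizer (R : Set G)) f hf hnorm
  have hRn : R.Normal := Subgroup.normalizer_eq_top_iff.1 htop
  rcases hRn.eq_bot_or_eq_top with h | h
  · apply hBne
    rw [h] at hBR
    exact le_bot_iff.1 hBR
  · have hfin : Finite R := Finite.of_injective _ (Subgroup.inclusion_injective hRZ)
    rw [h] at hfin
    have : Finite G := Finite.of_equiv _ (Subgroup.topEquiv (G := G)).toEquiv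
    exact not_finite G

theorem growth (hG : LocFin G) [IsSimpleGroup G] [Infinite G] (f : G) (hf : f ≠ 1) (c : ℕ) :
    ∃ (t : ℕ) (g : Fin t → G),
      c ^ t < Nat.card (Subgroup.closure (Set.range fun i => g i * f * (g i)⁻¹)) := by
  obtain ⟨B, hBf, hBne, hB⟩ := exists_noSmall hG ((c + 1) ^ 2)
  haveI := hBf
  obtain ⟨l0, hl0⟩ := A5exists_list hG f hf B
  have hstep : ∀ s : ℕ, ∃ l : List G, l.length = l0.length + s ∧ B ≤ A5C f l ∧
      ((c + 1) ^ 2) ^ s ≤ Nat.card (A5C f l) ∧
      (0 < s → ((c + 1) ^ 2) ^ s < Nat.card (A5C f l)) := by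
    intro s
    induction s with
    | zero =>
      refine ⟨l0, rfl, hl0, ?_, fun h => absurd h (lt_irrefl 0)⟩
      haveI := A5C_finite hG f l0
      have hp : 0 < Nat.card (A5C f l0) := Nat.card_pos
      rw [pow_zero]
      exact hp
    | succ s ih =>
      obtain ⟨l, hlen, hBl, hc, _⟩ := ih
      obtain ⟨g, hg⟩ := A5claim hG f hf _ B hBne hB l hBl
      have h1 : ((c + 1) ^ 2) ^ (s + 1) < Nat.card (A5C f (g :: l)) := by
        calc ((c + 1) ^ 2) ^ (s + 1) = (c + 1) ^ 2 * ((c + 1) ^ 2) ^ s := by rw [pow_succ']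
          _ ≤ (c + 1) ^ 2 * Nat.card (A5C f l) := Nat.mul_le_mul_left _ hc
          _ < _ := hg
      refine ⟨g :: l, by rw [List.length_cons, hlen]; ring, ?_, h1.le, fun _ => h1⟩
      exact hBl.trans (A5C_mono f (fun g hg => List.mem_cons_of_mem _ hg))
  obtain ⟨l, hlen, _, _, hc⟩ := hstep (l0.length + 1)
  have hc := hc (Nat.succ_pos _)
  refine ⟨l.length, fun i => l.get i, ?_⟩
  have hrange : (Set.range fun i : Fin l.length => l.get i * f * (l.get i)⁻¹) =
      {y | ∃ g ∈ l, y = g * f * g⁻¹} := by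
    ext y
    constructor
    · rintro ⟨i, rfl⟩
      exact ⟨l.get i, List.get_mem l i, rfl⟩
    · rintro ⟨g, hg, rfl⟩
      obtain ⟨i, hi⟩ := List.get_of_mem hg
      exact ⟨i, by simp only [hi]⟩
  rw [hrange]
  change c ^ l.length < Nat.card (A5C f l)
  refine lt_of_le_of_lt ?_ hc
  rw [hlen, ← pow_mul]
  calc c ^ (l0.length + (l0.length + 1)) ≤ (c + 1) ^ (l0.length + (l0.length + 1)) :=
        Nat.pow_le_pow_left (Nat.le_succ c) _
    _ ≤ (c + 1) ^ (2 * (l0.length + 1)) := Nat.pow_le_pow_right (Nat.succ_pos c) (by omega)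

end H49KA
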