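import Pool.Agent.H49.KA.Defs

open Equiv

namespace H49KA
universe u

variable {K : Type u} [Group K] [Finite K]

omit [Finite K] in
private theorem B1_comm_iff (R : Subgroup K) [R.Normal] (n x : K) :
    n * x * n⁻¹ * x⁻¹ ∈ R ↔
      QuotientGroup.mk' R n * QuotientGroup.mk' R x =
        QuotientGroup.mk' R x * QuotientGroup.mk' R n := by
  rw [← QuotientGroup.eq_one_iff]
  have h1 : ((n * x * n⁻¹ * x⁻¹ : K) : K ⧸ R) = QuotientGroup.mk' R n * QuotientGroup.mk' R x *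
      (QuotientGroup.mk' R n)⁻¹ * (QuotientGroup.mk' R x)⁻¹ := rfl
  rw [h1]
  constructor
  · intro h
    have h2 := mul_inv_eq_one.1 h
    rwa [mul_inv_eq_iff_eq_mul] at h2
  · intro h
    rw [h]
    group

omit [Finite K] in
private theorem B1_comm_le (R M X : Subgroup K) (h : ⁅M, X⁆ ≤ R) {n x : K} (hn : n ∈ M)
    (hx : x ∈ X) : n * x * n⁻¹ * x⁻¹ ∈ R := by
  have h1 := h (Subgroup.commutator_mem_commutator hn hx)
  rwa [commutatorElement_def] at h1

omit [Finite K] in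
private theorem B1_three (R N X : Subgroup K) [R.Normal] (hX : ⁅X, X⁆ = X)
    (h : ⁅⁅N, X⁆, X⁆ ≤ R) : ⁅N, X⁆ ≤ R := by
  set π := QuotientGroup.mk' R with hπ
  have hker : π.ker = R := QuotientGroup.ker_mk' R
  have h0 : ∀ M : Subgroup K, M ≤ R ↔ M.map π = ⊥ := by
    intro M
    rw [Subgroup.map_eq_bot_iff, hker]
  have h1 : ⁅⁅N.map π, X.map π⁆, X.map π⁆ = ⊥ := by
    rw [← Subgroup.map_commutator, ← Subgroup.map_commutator]
    exact (h0 _).1 h
  have h2 : ⁅⁅X.map π, N.map π⁆, X.map π⁆ = ⊥ := by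
    rw [Subgroup.commutator_comm (X.map π) (N.map π)]
    exact h1
  have h3 := Subgroup.commutator_commutator_eq_bot_of_rotate h2 h1
  rw [← Subgroup.map_commutator X X, hX, Subgroup.commutator_comm] at h3
  rw [h0, Subgroup.map_commutator]
  exact h3

theorem exists_chief (F X R : Subgroup K) (hFX : F ≤ X) (hXn : X.Normal) (hX : ⁅X, X⁆ = X)
    (hR : R.Normal) (hFR : ¬ F ≤ R) : ∃ N N₀ : Subgroup K, Chief X R N N₀ := by
  obtain ⟨N, hN⟩ := exists_minimal_of_wellFoundedLT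
    (fun N : Subgroup K => N.Normal ∧ ¬ ⁅N, X⁆ ≤ R) ⟨X, hXn, by
      rw [hX]
      exact fun h => hFR (hFX.trans h)⟩
  obtain ⟨⟨hNn, hNR⟩, hmin⟩ := hN
  have hmin' : ∀ M : Subgroup K, M.Normal → M ≤ N → ¬ ⁅M, X⁆ ≤ R → M = N :=
    fun M h1 h2 h3 => le_antisymm h2 (hmin ⟨h1, h3⟩ h2)
  set π := QuotientGroup.mk' R with hπ
  have hXπ : (X.map π).Normal := hXn.map π (QuotientGroup.mk'_surjective R)
  set N₀ : Subgroup K := N ⊓ (Subgroup.centralizer (X.map π : Set (K ⧸ R))).comap π with hN₀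
  have hmem : ∀ n, n ∈ N₀ ↔ n ∈ N ∧ ∀ x ∈ X, n * x * n⁻¹ * x⁻¹ ∈ R := by
    intro n
    rw [hN₀, Subgroup.mem_inf, Subgroup.mem_comap, Subgroup.mem_centralizer_iff]
    refine and_congr_right fun _ => ?_
    constructor
    · intro h x hx
      rw [B1_comm_iff]
      exact (h _ (Subgroup.mem_map_of_mem π hx)).symm
    · rintro h _ ⟨x, hx, rfl⟩
      exact ((B1_comm_iff R n x).1 (h x hx)).symm
  have hcomm : ⁅N, X⁆ = N := by
    refine hmin' _ inferInstance (Subgroup.commutator_le_left N X) fun h => ?_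
    exact hNR (B1_three R N X hX h)
  refine ⟨N, N₀, hNn, ?_, inf_le_left, ?_, ?_, hcomm, ?_, ?_, ?_⟩
  · have h1 : (Subgroup.centralizer (X.map π : Set (K ⧸ R))).Normal := inferInstance
    have h2 := h1.comap π
    rw [hN₀]
    infer_instance
  · intro h
    apply hNR
    rw [Subgroup.commutator_le]
    intro n hn x hx
    rw [← h] at hn
    rw [commutatorElement_def]
    exact ((hmem n).1 hn).2 x hx
  · rw [← hcomm]
    exact Subgroup.commutator_le_right N X
  · intro n hn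
    exact ((hmem n).1 hn).2
  · intro n hn
    rw [Subgroup.mem_inf] at hn
    rw [hmem]
    refine ⟨hn.2, fun x _ => ?_⟩
    have h1 := hR.conj_mem n⁻¹ (R.inv_mem hn.1) x
    have h2 := R.mul_mem hn.1 h1
    have h3 : n * (x * n⁻¹ * x⁻¹) = n * x * n⁻¹ * x⁻¹ := by group
    rwa [h3] at h2
  · intro M hM hMN
    by_cases h : ⁅M, X⁆ ≤ R
    · right
      intro n hn
      rw [hmem]
      exact ⟨hMN hn, fun x hx => B1_comm_le R M X h hn hx⟩
    · left
      exact hmin' M hM hMN h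

end H49KA
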