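import Pool.Agent.H49.KA.Defs

open Equiv

namespace H49KA
universe u

variable {K : Type u} [Group K] [Finite K]

omit [Finite K] in
private theorem B2_mem (T : Subgroup K) (k x : K) :
    x ∈ T.map (MulAut.conj k).toMonoidHom ↔ k⁻¹ * x * k ∈ T := by
  rw [Subgroup.mem_map_equiv, MulAut.conj_symm_apply]

omit [Finite K] in
private theorem B2_normal_mem {N : Subgroup K} (hN : N.Normal) (k x : K) :
    k⁻¹ * x * k ∈ N ↔ x ∈ N := by
  constructor
  · intro h
    have := hN.conj_mem _ h k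
    have e : k * (k⁻¹ * x * k) * k⁻¹ = x := by group
    rwa [e] at this
  · intro h
    have := hN.conj_mem _ h k⁻¹
    rwa [inv_inv] at this

omit [Finite K] in
/-- Conjugates of factors are factors. -/
private theorem B2_conj {N N₀ T : Subgroup K} (hN : N.Normal) (hN₀ : N₀.Normal)
    (h : Fac N N₀ T) (k : K) : Fac N N₀ (T.map (MulAut.conj k).toMonoidHom) := by
  obtain ⟨h1, h2, h3, h4, h5⟩ := h
  refine ⟨?_, ?_, ?_, ?_, ?_⟩
  · intro x hx
    rw [B2_mem]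
    exact h1 ((B2_normal_mem hN₀ k x).2 hx)
  · intro x hx
    rw [B2_mem] at hx
    exact (B2_normal_mem hN k x).1 (h2 hx)
  · intro he
    apply h3
    ext x
    have h6 : k * x * k⁻¹ ∈ T.map (MulAut.conj k).toMonoidHom ↔ k * x * k⁻¹ ∈ N₀ := by rw [he]
    rw [B2_mem, ← B2_normal_mem hN₀ k (k * x * k⁻¹)] at h6
    have h7 : k⁻¹ * (k * x * k⁻¹) * k = x := by group
    rwa [h7] at h6
  · intro x hx t ht
    rw [B2_mem] at ht ⊢
    have h6 := h4 _ ((B2_normal_mem hN k x).2 hx) _ ht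
    have h7 : k⁻¹ * (x * t * x⁻¹) * k = (k⁻¹ * x * k) * (k⁻¹ * t * k) * (k⁻¹ * x * k)⁻¹ := by
      group
    rwa [h7]
  · intro S hS1 hS2 hS3
    have m1 : ∀ x, x ∈ S.map (MulAut.conj k⁻¹).toMonoidHom ↔ k * x * k⁻¹ ∈ S := by
      intro x
      rw [B2_mem, inv_inv]
    have e1 : ∀ x, k * (k⁻¹ * x * k) * k⁻¹ = x := fun x => by group
    have e2 : ∀ x, k⁻¹ * (k * x * k⁻¹) * k = x := fun x => by group
    have key : S.map (MulAut.conj k⁻¹).toMonoidHom = N₀ ∨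
        S.map (MulAut.conj k⁻¹).toMonoidHom = T := by
      refine h5 _ ?_ ?_ ?_
      · intro x hx
        rw [m1]
        exact hS1 (hN₀.conj_mem _ hx k)
      · intro x hx
        rw [m1] at hx
        have h7 := hS2 hx
        rwa [B2_mem, e2] at h7
      · intro x hx t ht
        rw [m1] at ht ⊢
        have h7 := hS3 _ (hN.conj_mem _ hx k) _ ht
        have h8 : k * (x * t * x⁻¹) * k⁻¹ =
            (k * x * k⁻¹) * (k * t * k⁻¹) * (k * x * k⁻¹)⁻¹ := by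
          group
        rwa [h8]
    rcases key with h6 | h6
    · left
      ext x
      have h7 := m1 (k⁻¹ * x * k)
      rw [e1, h6, B2_normal_mem hN₀] at h7
      exact h7.symm
    · right
      ext x
      have h7 := m1 (k⁻¹ * x * k)
      rw [e1, h6] at h7
      rw [B2_mem]
      exact h7.symm

/-- There is a factor. -/
private theorem B2_exists {X R N N₀ : Subgroup K} (hc : Chief X R N N₀) : ∃ T, Fac N N₀ T := by
  have hne : ({T : Subgroup K | N₀ ≤ T ∧ T ≤ N ∧ T ≠ N₀ ∧ NormIn N T}).Nonempty :=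
    ⟨N, hc.le, le_refl _, hc.ne.symm, fun x hx t ht => N.mul_mem (N.mul_mem hx ht) (N.inv_mem hx)⟩
  obtain ⟨T, hT, hmin⟩ := Set.Finite.exists_minimal (Set.toFinite _) hne
  refine ⟨T, hT.1, hT.2.1, hT.2.2.1, hT.2.2.2, fun S h1 h2 h3 => ?_⟩
  by_cases hS : S = N₀
  · exact Or.inl hS
  · exact Or.inr (le_antisymm h2 (hmin ⟨h1, h2.trans hT.2.1, hS, h3⟩ h2))

omit [Finite K] in
/-- Two distinct factors meet in `N₀`. -/
private theorem B2_inf {N N₀ T₁ T₂ : Subgroup K} (h1 : Fac N N₀ T₁) (h2 : Fac N N₀ T₂)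
    (hne : T₁ ≠ T₂) : T₁ ⊓ T₂ = N₀ := by
  rcases h1.2.2.2.2 (T₁ ⊓ T₂) (le_inf h1.1 h2.1) inf_le_left (fun x hx t ht =>
    ⟨h1.2.2.2.1 x hx t ht.1, h2.2.2.2.1 x hx t ht.2⟩) with h | h
  · exact h
  · exfalso
    have h3 : T₁ ≤ T₂ := by
      rw [← h]
      exact inf_le_right
    rcases h2.2.2.2.2 T₁ h1.1 h3 h1.2.2.2.1 with h4 | h4
    · exact h1.2.2.1 h4
    · exact hne h4

omit [Finite K] in
/-- Two distinct factors commute modulo `N₀`. -/
private theorem B2_comm {N N₀ T₁ T₂ : Subgroup K} (h1 : Fac N N₀ T₁) (h2 : Fac N N₀ T₂)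
    (hne : T₁ ≠ T₂) {a b : K} (ha : a ∈ T₁) (hb : b ∈ T₂) : a * b * a⁻¹ * b⁻¹ ∈ N₀ := by
  rw [← B2_inf h1 h2 hne]
  refine ⟨?_, ?_⟩
  · have h3 := h1.2.2.2.1 b (h2.2.1 hb) a⁻¹ (T₁.inv_mem ha)
    have h4 := T₁.mul_mem ha h3
    have e : a * (b * a⁻¹ * b⁻¹) = a * b * a⁻¹ * b⁻¹ := by group
    rwa [e] at h4
  · exact T₂.mul_mem (h2.2.2.2.1 a (h1.2.1 ha) b hb) (T₂.inv_mem hb)

/-- The factors generate `N`. -/
private theorem B2_gen {X R N N₀ : Subgroup K} (hc : Chief X R N N₀) (M : Subgroup K)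
    (hM : ∀ T, Fac N N₀ T → T ≤ M) : N ≤ M := by
  obtain ⟨T, hT⟩ := B2_exists hc
  have hJn : (sSup {T : Subgroup K | Fac N N₀ T}).Normal := by
    constructor
    intro n hn g
    have h1 : (sSup {T : Subgroup K | Fac N N₀ T}) ≤
        (sSup {T : Subgroup K | Fac N N₀ T}).comap (MulAut.conj g).toMonoidHom := by
      refine sSup_le fun S hS => ?_
      rw [← Subgroup.map_le_iff_le_comap]
      exact le_sSup (B2_conj hc.nN hc.nN₀ hS g)
    exact h1 hn
  have hJN : (sSup {T : Subgroup K | Fac N N₀ T}) ≤ N := sSup_le fun S hS => hS.2.1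
  rcases hc.min _ hJn hJN with h | h
  · rw [← h]
    exact sSup_le fun S hS => hM S hS
  · exact absurd (le_antisymm ((le_sSup (show T ∈ {T : Subgroup K | Fac N N₀ T} from hT)).trans h)
      hT.1) hT.2.2.1

omit [Finite K] in
/-- The factors are nonabelian modulo `N₀`. -/
private theorem B2_nonab {X R N N₀ : Subgroup K} (hc : Chief X R N N₀) (hperf : ⁅N, N⁆ = N)
    {T : Subgroup K} (hT : Fac N N₀ T) : ∃ a ∈ T, ∃ b ∈ T, a * b * a⁻¹ * b⁻¹ ∉ N₀ := by
  classical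
  by_contra hcon
  push Not at hcon
  -- the join of the conjugates of `T`
  have hJn : (⨆ k : K, T.map (MulAut.conj k).toMonoidHom).Normal := by
    constructor
    intro n hn g
    have h1 : (⨆ k : K, T.map (MulAut.conj k).toMonoidHom) ≤
        (⨆ k : K, T.map (MulAut.conj k).toMonoidHom).comap (MulAut.conj g).toMonoidHom := by
      refine iSup_le fun k => ?_
      rw [← Subgroup.map_le_iff_le_comap, Subgroup.map_map]
      have e : (MulAut.conj g).toMonoidHom.comp (MulAut.conj k).toMonoidHom =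
          (MulAut.conj (g * k)).toMonoidHom := by
        ext x
        simp [mul_assoc]
      rw [e]
      exact le_iSup (fun k : K => T.map (MulAut.conj k).toMonoidHom) (g * k)
    exact h1 hn
  have hJN : (⨆ k : K, T.map (MulAut.conj k).toMonoidHom) ≤ N :=
    iSup_le fun k => (B2_conj hc.nN hc.nN₀ hT k).2.1
  have hTJ : T ≤ ⨆ k : K, T.map (MulAut.conj k).toMonoidHom := by
    refine le_trans ?_ (le_iSup (fun k : K => T.map (MulAut.conj k).toMonoidHom) 1)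
    intro x hx
    rw [B2_mem]
    simpa using hx
  have hJ : (⨆ k : K, T.map (MulAut.conj k).toMonoidHom) = N := by
    rcases hc.min _ hJn hJN with h | h
    · exact h
    · exact absurd (le_antisymm (hTJ.trans h) hT.1) hT.2.2.1
  have hcomm : ∀ k l : K, ∀ a ∈ T.map (MulAut.conj k).toMonoidHom,
      ∀ b ∈ T.map (MulAut.conj l).toMonoidHom, a * b * a⁻¹ * b⁻¹ ∈ N₀ := by
    intro k l a ha b hb
    by_cases hkl : T.map (MulAut.conj k).toMonoidHom = T.map (MulAut.conj l).toMonoidHom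
    · rw [← hkl, B2_mem] at hb
      rw [B2_mem] at ha
      have h1 := hcon _ ha _ hb
      have e : k⁻¹ * a * k * (k⁻¹ * b * k) * (k⁻¹ * a * k)⁻¹ * (k⁻¹ * b * k)⁻¹ =
          k⁻¹ * (a * b * a⁻¹ * b⁻¹) * k := by group
      rwa [e, B2_normal_mem hc.nN₀] at h1
    · exact B2_comm (B2_conj hc.nN hc.nN₀ hT k) (B2_conj hc.nN hc.nN₀ hT l) hkl ha hb
  have hn₀ := hc.nN₀
  have hiff : ∀ a b : K, a * b * a⁻¹ * b⁻¹ ∈ N₀ ↔
      QuotientGroup.mk' N₀ a * QuotientGroup.mk' N₀ b =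
        QuotientGroup.mk' N₀ b * QuotientGroup.mk' N₀ a := by
    intro a b
    rw [← QuotientGroup.eq_one_iff]
    have e : ((a * b * a⁻¹ * b⁻¹ : K) : K ⧸ N₀) = QuotientGroup.mk' N₀ a * QuotientGroup.mk' N₀ b *
        (QuotientGroup.mk' N₀ a)⁻¹ * (QuotientGroup.mk' N₀ b)⁻¹ := rfl
    rw [e]
    constructor
    · intro h
      have h2 := mul_inv_eq_one.1 h
      exact mul_inv_eq_iff_eq_mul.1 h2
    · intro h
      rw [mul_inv_eq_one, mul_inv_eq_iff_eq_mul]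
      exact h
  -- the elements commuting with everything in `N` modulo `N₀`
  have hcN : ∀ a ∈ N, ∀ b ∈ N, a * b * a⁻¹ * b⁻¹ ∈ N₀ := by
    have step : ∀ (b : K), (∀ k : K, ∀ a ∈ T.map (MulAut.conj k).toMonoidHom,
        a * b * a⁻¹ * b⁻¹ ∈ N₀) → ∀ a ∈ N, a * b * a⁻¹ * b⁻¹ ∈ N₀ := by
      intro b hb a ha
      rw [← hJ] at ha
      have h1 : (⨆ k : K, T.map (MulAut.conj k).toMonoidHom) ≤
          (Subgroup.centralizer {QuotientGroup.mk' N₀ b}).comap (QuotientGroup.mk' N₀) := by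
        refine iSup_le fun k x hx => ?_
        rw [Subgroup.mem_comap, Subgroup.mem_centralizer_singleton_iff]
        exact ((hiff x b).1 (hb k x hx))
      have h2 := h1 ha
      rw [Subgroup.mem_comap, Subgroup.mem_centralizer_singleton_iff] at h2
      exact (hiff a b).2 h2
    have hsymm : ∀ a b : K, a * b * a⁻¹ * b⁻¹ ∈ N₀ → b * a * b⁻¹ * a⁻¹ ∈ N₀ := by
      intro a b h
      rw [hiff] at h ⊢
      exact h.symm
    intro a ha b hb
    refine step b (fun k x hx => ?_) a ha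
    exact hsymm _ _ (step x (fun l y hy => hcomm l k y hy x hx) b hb)
  have h1 : ⁅N, N⁆ ≤ N₀ := by
    rw [Subgroup.commutator_le]
    intro a ha b hb
    rw [commutatorElement_def]
    exact hcN a ha b hb
  rw [hperf] at h1
  exact hc.ne (le_antisymm hc.le h1)

omit [Finite K] in
/-- `[T₁, T₁]` and `T₂` commute modulo `R`. -/
private theorem B2_commR {X R N N₀ : Subgroup K} (hR : R.Normal) (hc : Chief X R N N₀)
    {T₁ T₂ : Subgroup K} (h1 : Fac N N₀ T₁) (h2 : Fac N N₀ T₂) (hne : T₁ ≠ T₂) :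
    ∀ a ∈ ⁅T₁, T₁⁆, ∀ b ∈ T₂, a * b * a⁻¹ * b⁻¹ ∈ R := by
  intro a ha b hb
  have hiff : ∀ a b : K, a * b * a⁻¹ * b⁻¹ ∈ R ↔
      QuotientGroup.mk' R a * QuotientGroup.mk' R b =
        QuotientGroup.mk' R b * QuotientGroup.mk' R a := by
    intro a b
    rw [← QuotientGroup.eq_one_iff]
    have e : ((a * b * a⁻¹ * b⁻¹ : K) : K ⧸ R) = QuotientGroup.mk' R a * QuotientGroup.mk' R b *
        (QuotientGroup.mk' R a)⁻¹ * (QuotientGroup.mk' R b)⁻¹ := rfl
    rw [e]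
    constructor
    · intro h
      have h2 := mul_inv_eq_one.1 h
      exact mul_inv_eq_iff_eq_mul.1 h2
    · intro h
      rw [mul_inv_eq_one, mul_inv_eq_iff_eq_mul]
      exact h
  have hle : ⁅T₁, T₁⁆ ≤
      (Subgroup.centralizer {QuotientGroup.mk' R b}).comap (QuotientGroup.mk' R) := by
    rw [Subgroup.commutator_le]
    intro c hc1 d hd1
    rw [Subgroup.mem_comap, Subgroup.mem_centralizer_singleton_iff, commutatorElement_def]
    have hz : ∀ c ∈ T₁, ∃ z ∈ N₀, b * c = c * z * b := by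
      intro c hc1
      refine ⟨c⁻¹ * b * c * b⁻¹, ?_, by group⟩
      have h3 := B2_comm h1 h2 hne (T₁.inv_mem hc1) hb
      rwa [inv_inv] at h3
    obtain ⟨z, hz1, hz2⟩ := hz c hc1
    obtain ⟨y, hy1, hy2⟩ := hz d hd1
    have hzc : ∀ z ∈ N₀, ∀ x ∈ X, QuotientGroup.mk' R z * QuotientGroup.mk' R x =
        QuotientGroup.mk' R x * QuotientGroup.mk' R z := fun z hz x hx =>
      (hiff z x).1 (hc.cent z hz x hx)
    have hcX : c ∈ X := hc.NX (h1.2.1 hc1)
    have hdX : d ∈ X := hc.NX (h1.2.1 hd1)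
    have hzX : z ∈ X := hc.NX (hc.le hz1)
    have hyX : y ∈ X := hc.NX (hc.le hy1)
    have e1 := congrArg (QuotientGroup.mk' R) hz2
    have e2 := congrArg (QuotientGroup.mk' R) hy2
    simp only [map_mul] at e1 e2
    simp only [map_mul, map_inv]
    have c1 := hzc z hz1 c hcX
    have c2 := hzc z hz1 d hdX
    have c3 := hzc y hy1 c hcX
    have c4 := hzc y hy1 d hdX
    have c5 := hzc z hz1 y hyX
    set C := QuotientGroup.mk' R c
    set D := QuotientGroup.mk' R d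
    set B := QuotientGroup.mk' R b
    set Z := QuotientGroup.mk' R z
    set Y := QuotientGroup.mk' R y
    have f1 : B * C * B⁻¹ = C * Z := by rw [e1]; group
    have f2 : B * D * B⁻¹ = D * Y := by rw [e2]; group
    have f3 : B * (C * D * C⁻¹ * D⁻¹) * B⁻¹ = C * D * C⁻¹ * D⁻¹ := by
      have g1 : B * (C * D * C⁻¹ * D⁻¹) * B⁻¹ =
          (B * C * B⁻¹) * (B * D * B⁻¹) * (B * C * B⁻¹)⁻¹ * (B * D * B⁻¹)⁻¹ := by group
      rw [g1, f1, f2]
      have k1 : Commute Z C := c1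
      have k2 : Commute Z D := c2
      have k3 : Commute Y C := c3
      have k4 : Commute Y D := c4
      have k5 : Commute Z Y := c5
      have g2 : C * Z * (D * Y) = C * D * (Z * Y) := by
        rw [mul_assoc, ← mul_assoc Z D Y, k2.eq]
        group
      rw [g2, mul_inv_rev, mul_inv_rev]
      have g3 : Commute (Z * Y) (Z⁻¹ * C⁻¹) :=
        Commute.mul_left ((Commute.refl Z).inv_right.mul_right k1.inv_right)
          (k5.symm.inv_right.mul_right k3.inv_right)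
      calc C * D * (Z * Y) * (Z⁻¹ * C⁻¹) * (Y⁻¹ * D⁻¹)
          = C * D * ((Z * Y) * (Z⁻¹ * C⁻¹)) * (Y⁻¹ * D⁻¹) := by group
        _ = C * D * ((Z⁻¹ * C⁻¹) * (Z * Y)) * (Y⁻¹ * D⁻¹) := by rw [g3.eq]
        _ = C * (D * Z⁻¹) * (C⁻¹ * Z) * D⁻¹ := by group
        _ = C * (Z⁻¹ * D) * (Z * C⁻¹) * D⁻¹ := by rw [k2.inv_left.eq, k1.inv_right.eq]
        _ = C * Z⁻¹ * (D * Z) * C⁻¹ * D⁻¹ := by group
        _ = C * Z⁻¹ * (Z * D) * C⁻¹ * D⁻¹ := by rw [k2.eq]
        _ = C * D * C⁻¹ * D⁻¹ := by group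
    have f4 : B * (C * D * C⁻¹ * D⁻¹) = (C * D * C⁻¹ * D⁻¹) * B := mul_inv_eq_iff_eq_mul.1 f3
    exact f4.symm
  have h3 := hle ha
  rw [Subgroup.mem_comap, Subgroup.mem_centralizer_singleton_iff] at h3
  exact (hiff a b).2 h3

theorem fac_structure (X R N N₀ : Subgroup K) (hR : R.Normal) (hc : Chief X R N N₀)
    (hperf : ⁅N, N⁆ = N) :
    (∃ T, Fac N N₀ T) ∧
    (∀ T, Fac N N₀ T → ∀ k : K, Fac N N₀ (T.map (MulAut.conj k).toMonoidHom)) ∧
    (∀ T₁ T₂, Fac N N₀ T₁ → Fac N N₀ T₂ → T₁ ≠ T₂ → T₁ ⊓ T₂ = N₀) ∧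
    (∀ T, Fac N N₀ T → SimpleSec T N₀) ∧
    (∀ T, Fac N N₀ T → ⁅T, T⁆ ⊔ N₀ = T) ∧
    (∀ T₁ T₂, Fac N N₀ T₁ → Fac N N₀ T₂ → T₁ ≠ T₂ →
      ∀ a ∈ ⁅T₁, T₁⁆, ∀ b ∈ T₂, a * b * a⁻¹ * b⁻¹ ∈ R) ∧
    (∀ M : Subgroup K, (∀ T, Fac N N₀ T → T ≤ M) → N ≤ M) := by
  refine ⟨B2_exists hc, fun T hT k => B2_conj hc.nN hc.nN₀ hT k, fun T₁ T₂ h1 h2 h =>
    B2_inf h1 h2 h, fun T hT => ⟨hT.1, fun x _ t ht => hc.nN₀.conj_mem t ht x, ?_,
    B2_nonab hc hperf hT⟩, fun T hT => ?_, fun T₁ T₂ h1 h2 h => B2_commR hR hc h1 h2 h,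
    B2_gen hc⟩
  · intro S hS1 hS2 hS3
    refine hT.2.2.2.2 S hS1 hS2 ?_
    have h1 : N ≤ Subgroup.normalizer (S : Set K) := by
      refine B2_gen hc _ fun T' hT' => ?_
      have key : ∀ x ∈ T', ∀ s ∈ S, x * s * x⁻¹ ∈ S := by
        intro x hx s hs
        by_cases hTT : T' = T
        · subst hTT
          exact hS3 x hx s hs
        · have h2 := B2_comm hT' hT hTT hx (hS2 hs)
          have h3 := S.mul_mem (hS1 h2) hs
          have e : x * s * x⁻¹ * s⁻¹ * s = x * s * x⁻¹ := by group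
          rwa [e] at h3
      intro x hx
      rw [Subgroup.mem_normalizer_iff]
      intro s
      constructor
      · exact fun hs => key x hx s hs
      · intro hs
        have h3 := key x⁻¹ (T'.inv_mem hx) _ hs
        have e : x⁻¹ * (x * s * x⁻¹) * x⁻¹⁻¹ = s := by group
        rwa [e] at h3
    intro x hx s hs
    exact (Subgroup.mem_normalizer_iff.1 (h1 hx) s).1 hs
  · have h1 : N₀ ≤ ⁅T, T⁆ ⊔ N₀ := le_sup_right
    have h0 : ⁅T, T⁆ ≤ T := by
      rw [Subgroup.commutator_le]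
      intro a ha b hb
      exact T.mul_mem (T.mul_mem (T.mul_mem ha hb) (T.inv_mem ha)) (T.inv_mem hb)
    have h2 : ⁅T, T⁆ ⊔ N₀ ≤ T := sup_le h0 hT.1
    have h3 : NormIn N (⁅T, T⁆ ⊔ N₀) := by
      intro x hx t ht
      have h4 : ⁅T, T⁆ ⊔ N₀ ≤ (⁅T, T⁆ ⊔ N₀).comap (MulAut.conj x).toMonoidHom := by
        refine sup_le ?_ ?_
        · rw [Subgroup.commutator_le]
          intro a ha b hb
          have e : x * (a * b * a⁻¹ * b⁻¹) * x⁻¹ = (x * a * x⁻¹) * (x * b * x⁻¹) *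
            (x * a * x⁻¹)⁻¹ * (x * b * x⁻¹)⁻¹ := by group
          change x * (a * b * a⁻¹ * b⁻¹) * x⁻¹ ∈ ⁅T, T⁆ ⊔ N₀
          rw [e, ← commutatorElement_def]
          exact Subgroup.mem_sup_left (Subgroup.commutator_mem_commutator
            (hT.2.2.2.1 x hx a ha) (hT.2.2.2.1 x hx b hb))
        · intro a ha
          change x * a * x⁻¹ ∈ ⁅T, T⁆ ⊔ N₀
          exact Subgroup.mem_sup_right (hc.nN₀.conj_mem a ha x)
      exact h4 ht
    rcases hT.2.2.2.2 _ h1 h2 h3 with h4 | h4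
    · exfalso
      obtain ⟨a, ha, b, hb, hab⟩ := B2_nonab hc hperf hT
      apply hab
      rw [← h4, ← commutatorElement_def]
      exact Subgroup.mem_sup_left (Subgroup.commutator_mem_commutator ha hb)
    · exact h4

end H49KA
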