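import Mathlib

/-!
Definitions for MP_784abc_al (augmentation ideals of complex group algebras of
locally finite groups).
-/

namespace H49KA

universe u

/-- every finite subset generates a finite subgroup -/
def LocFin (G : Type u) [Group G] : Prop :=
  ∀ S : Finset G, Finite (Subgroup.closure (S : Set G))

/-- the augmentation map of the complex group algebra -/
noncomputable def aug {G : Type u} (a : MonoidAlgebra ℂ G) : ℂ :=
  a.coeff.sum fun _ c => c

/-- The augmentation ideal of the complex group algebra, regarded as a ring without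
identity, is simple: it is not zero, and its only two-sided ideals are zero and itself. -/
def AugSimple (G : Type u) [Group G] : Prop :=
  (∃ a : MonoidAlgebra ℂ G, a ≠ 0 ∧ aug a = 0) ∧
  ∀ I : AddSubgroup (MonoidAlgebra ℂ G),
    (∀ a ∈ I, aug a = 0) →
    (∀ a ∈ I, ∀ b : MonoidAlgebra ℂ G, aug b = 0 → a * b ∈ I ∧ b * a ∈ I) →
    (∀ a ∈ I, a = 0) ∨ (∀ a : MonoidAlgebra ℂ G, aug a = 0 → a ∈ I)

variable {G : Type u} [Group G]

/-- `H` is confined: some finite set of nontrivial elements meets every conjugate of `H` -/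
def Confined (H : Subgroup G) : Prop :=
  ∃ S : Finset G, (1 : G) ∉ S ∧ ∀ g : G, ∃ h ∈ H, g * h * g⁻¹ ∈ S

/-- there is no proper confined subgroup -/
def NoConf (G : Type u) [Group G] : Prop :=
  ∀ H : Subgroup G, Confined H → H = ⊤

/-- `X` normalises `T` -/
def NormIn (X T : Subgroup G) : Prop :=
  ∀ x ∈ X, ∀ t ∈ T, x * t * x⁻¹ ∈ T

/-- `C` is a normal subgroup of `T` and `T / C` is a nonabelian simple group -/
def SimpleSec (T C : Subgroup G) : Prop :=
  C ≤ T ∧ NormIn T C ∧
  (∀ N : Subgroup G, C ≤ N → N ≤ T → NormIn T N → N = C ∨ N = T) ∧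
  ∃ a ∈ T, ∃ b ∈ T, a * b * a⁻¹ * b⁻¹ ∉ C

/-- `C ≤ T` are normal subgroups of `X`, the section `T / C` is nonabelian simple and its
centraliser in `X / C` is trivial: `X / C` is almost simple with socle `T / C`. -/
def AlmostSimpleSec (X T C : Subgroup G) : Prop :=
  T ≤ X ∧ NormIn X C ∧ NormIn X T ∧ SimpleSec T C ∧
  ∀ x ∈ X, (∀ t ∈ T, x * t * x⁻¹ * t⁻¹ ∈ C) → x ∈ C

/-- `T / C` is isomorphic to an alternating group -/
def AltSec (T C : Subgroup G) : Prop :=
  ∃ (n : ℕ) (p : T →* Equiv.Perm (Fin n)),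
    (∀ t : T, p t = 1 ↔ (t : G) ∈ C) ∧ p.range = alternatingGroup (Fin n)

/-- a local system of finite subgroups -/
def LocalSystem (𝓛 : Set (Subgroup G)) : Prop :=
  (∀ K ∈ 𝓛, Finite K) ∧ ∀ S : Finset G, ∃ K ∈ 𝓛, (S : Set G) ⊆ K

/-- the local system has alternating tops: every almost simple quotient of a perfect normal
subgroup of a member has alternating socle -/
def AltTops (𝓛 : Set (Subgroup G)) : Prop :=
  ∀ K ∈ 𝓛, ∀ X ≤ K, NormIn K X → ⁅X, X⁆ = X →
    ∀ T C : Subgroup G, AlmostSimpleSec X T C → AltSec T C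

/-- every finite subset lies in a finite subgroup having a homomorphism onto an alternating
group that is injective on the subgroup generated by the finite subset -/
def AltQuot (G : Type u) [Group G] : Prop :=
  ∀ S : Finset G, ∃ (X : Subgroup G) (n : ℕ) (p : X →* Equiv.Perm (Fin n)),
    Finite X ∧ (S : Set G) ⊆ X ∧ p.range = alternatingGroup (Fin n) ∧
    ∀ x : X, (x : G) ∈ Subgroup.closure (S : Set G) → p x = 1 → x = 1

end H49KA
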