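import Pool.Agent.H49.KA.Defs

open Equiv

namespace H49KA
universe u

variable {K : Type*} [Group K] [Finite K]
variable {V : Type*} [AddCommGroup V] [Module ℂ V] [FiniteDimensional ℂ V]

theorem exists_form (ρ : K →* Module.End ℂ V) :
    ∃ B : V →ₗ⋆[ℂ] V →ₗ[ℂ] ℂ, (∀ k v w, B (ρ k v) (ρ k w) = B v w) ∧
      (∀ v, v ≠ 0 → 0 < (B v v).re) ∧ (∀ v, (B v v).im = 0) := by
  haveI : Fintype K := Fintype.ofFinite K
  let b := Module.finBasis ℂ V
  let f : V → V → ℂ := fun v w =>
    ∑ k : K, ∑ i, (starRingEnd ℂ) (b.repr (ρ k v) i) * b.repr (ρ k w) i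
  have hf : ∀ v w, f v w =
    ∑ k : K, ∑ i, (starRingEnd ℂ) (b.repr (ρ k v) i) * b.repr (ρ k w) i := fun _ _ => rfl
  refine ⟨LinearMap.mk₂'ₛₗ (starRingEnd ℂ) (RingHom.id ℂ) f ?_ ?_ ?_ ?_, ?_, ?_, ?_⟩
  · intro v v' w
    rw [hf, hf, hf, ← Finset.sum_add_distrib]
    refine Finset.sum_congr rfl fun k _ => ?_
    rw [← Finset.sum_add_distrib]
    refine Finset.sum_congr rfl fun i _ => ?_
    rw [map_add, map_add, Finsupp.add_apply, map_add, add_mul]
  · intro c v w
    rw [hf, hf, Finset.smul_sum]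
    refine Finset.sum_congr rfl fun k _ => ?_
    rw [Finset.smul_sum]
    refine Finset.sum_congr rfl fun i _ => ?_
    rw [map_smul, map_smul, Finsupp.smul_apply, smul_eq_mul, map_mul, smul_eq_mul, mul_assoc]
  · intro v w w'
    rw [hf, hf, hf, ← Finset.sum_add_distrib]
    refine Finset.sum_congr rfl fun k _ => ?_
    rw [← Finset.sum_add_distrib]
    refine Finset.sum_congr rfl fun i _ => ?_
    rw [map_add, map_add, Finsupp.add_apply, mul_add]
  · intro c v w
    rw [hf, hf, Finset.smul_sum]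
    refine Finset.sum_congr rfl fun k _ => ?_
    rw [Finset.smul_sum]
    refine Finset.sum_congr rfl fun i _ => ?_
    rw [map_smul, map_smul, Finsupp.smul_apply, smul_eq_mul, smul_eq_mul, RingHom.id_apply]
    ring
  · intro k v w
    rw [LinearMap.mk₂'ₛₗ_apply, LinearMap.mk₂'ₛₗ_apply, hf, hf]
    rw [← Equiv.sum_comp (Equiv.mulRight k)
      (fun l => ∑ i, (starRingEnd ℂ) (b.repr (ρ l v) i) * b.repr (ρ l w) i)]
    refine Finset.sum_congr rfl fun l _ => ?_
    rw [Equiv.coe_mulRight, map_mul]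
    rfl
  · intro v hv
    rw [LinearMap.mk₂'ₛₗ_apply, hf, Complex.re_sum]
    have h1 : ∀ k : K, 0 ≤ (∑ i, (starRingEnd ℂ) (b.repr (ρ k v) i) * b.repr (ρ k v) i).re := by
      intro k
      rw [Complex.re_sum]
      refine Finset.sum_nonneg fun i _ => ?_
      rw [mul_comm, Complex.mul_conj, Complex.ofReal_re]
      exact Complex.normSq_nonneg _
    refine lt_of_lt_of_le ?_ (Finset.single_le_sum (fun k _ => h1 k) (Finset.mem_univ (1 : K)))
    rw [map_one, Module.End.one_apply, Complex.re_sum]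
    have h2 : ∃ i, b.repr v i ≠ 0 := by
      by_contra hne
      push Not at hne
      apply hv
      apply b.repr.injective
      ext i
      rw [hne i, map_zero, Finsupp.zero_apply]
    obtain ⟨i, hi⟩ := h2
    have h3 : ∀ j ∈ Finset.univ, 0 ≤ ((starRingEnd ℂ) (b.repr v j) * b.repr v j).re := by
      intro j _
      rw [mul_comm, Complex.mul_conj, Complex.ofReal_re]
      exact Complex.normSq_nonneg _
    refine lt_of_lt_of_le ?_ (Finset.single_le_sum h3 (Finset.mem_univ i))
    rw [mul_comm, Complex.mul_conj, Complex.ofReal_re]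
    exact Complex.normSq_pos.2 hi
  · intro v
    rw [LinearMap.mk₂'ₛₗ_apply, hf, Complex.im_sum]
    refine Finset.sum_eq_zero fun k _ => ?_
    rw [Complex.im_sum]
    refine Finset.sum_eq_zero fun i _ => ?_
    rw [mul_comm, Complex.mul_conj, Complex.ofReal_im]

end H49KA
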