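import Pool.Agent.H49.KA.Defs

open Equiv

namespace H49KA
universe u

variable {G : Type u} [Group G]

/-- the augmentation as an algebra homomorphism -/
private noncomputable def h94Aug : MonoidAlgebra ℂ G →ₐ[ℂ] ℂ :=
  MonoidAlgebra.lift ℂ ℂ G (1 : G →* ℂ)

private lemma h94Aug_apply (a : MonoidAlgebra ℂ G) : h94Aug a = aug a := by
  unfold h94Aug aug
  rw [MonoidAlgebra.lift_apply]
  simp

private lemma h94Aug_single (g : G) (c : ℂ) :
    h94Aug (MonoidAlgebra.single g c) = c := by
  unfold h94Aug
  rw [MonoidAlgebra.lift_single]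
  simp

private lemma h94_single (g : G) (c : ℂ) :
    (MonoidAlgebra.single g c : MonoidAlgebra ℂ G) = c • MonoidAlgebra.single g 1 := by
  rw [MonoidAlgebra.smul_single, smul_eq_mul, mul_one]

private lemma h94_avg (hG : LocFin G) (a : MonoidAlgebra ℂ G) (ha : aug a = 0) :
    ∃ e : MonoidAlgebra ℂ G, h94Aug e = 1 ∧ e * a = 0 ∧ a * e = 0 := by
  classical
  have hfin := hG a.coeff.support
  set F := Subgroup.closure ((a.coeff.support : Finset G) : Set G) with hF
  have : Fintype F := Fintype.ofFinite F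
  have hcard : (Fintype.card F : ℂ) ≠ 0 := by
    have : 0 < Fintype.card F := Fintype.card_pos
    exact_mod_cast this.ne'
  set e : MonoidAlgebra ℂ G :=
    (Fintype.card F : ℂ)⁻¹ • ∑ f : F, MonoidAlgebra.single (f : G) (1 : ℂ) with he
  have hr : ∀ g ∈ F, e * MonoidAlgebra.single g (1 : ℂ) = e := by
    intro g hg
    rw [he, smul_mul_assoc, Finset.sum_mul]
    congr 1
    refine Eq.trans ?_ (Equiv.sum_comp (Equiv.mulRight (⟨g, hg⟩ : F))
      fun f : F => MonoidAlgebra.single (f : G) (1 : ℂ))
    refine Finset.sum_congr rfl fun f _ => ?_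
    rw [MonoidAlgebra.single_mul_single]
    simp
  have hl : ∀ g ∈ F, MonoidAlgebra.single g (1 : ℂ) * e = e := by
    intro g hg
    rw [he, mul_smul_comm, Finset.mul_sum]
    congr 1
    refine Eq.trans ?_ (Equiv.sum_comp (Equiv.mulLeft (⟨g, hg⟩ : F))
      fun f : F => MonoidAlgebra.single (f : G) (1 : ℂ))
    refine Finset.sum_congr rfl fun f _ => ?_
    rw [MonoidAlgebra.single_mul_single]
    simp
  have hsum : a = ∑ g ∈ a.coeff.support, MonoidAlgebra.single g (a.coeff g) :=
    (MonoidAlgebra.sum_coeff_single a).symm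
  have hsub : ∀ g ∈ a.coeff.support, g ∈ F := fun g hg => Subgroup.subset_closure hg
  have hz : ∑ g ∈ a.coeff.support, a.coeff g = 0 := ha
  refine ⟨e, ?_, ?_, ?_⟩
  · rw [he, map_smul, map_sum]
    simp only [h94Aug_single, Finset.sum_const, Finset.card_univ, smul_eq_mul, nsmul_eq_mul,
      mul_one]
    exact inv_mul_cancel₀ hcard
  · rw [hsum, Finset.mul_sum]
    have h1 : ∀ g ∈ a.coeff.support, e * MonoidAlgebra.single g (a.coeff g) = a.coeff g • e := by
      intro g hg
      rw [h94_single, mul_smul_comm, hr g (hsub g hg)]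
    rw [Finset.sum_congr rfl h1, ← Finset.sum_smul, hz, zero_smul]
  · rw [hsum, Finset.sum_mul]
    have h1 : ∀ g ∈ a.coeff.support, MonoidAlgebra.single g (a.coeff g) * e = a.coeff g • e := by
      intro g hg
      rw [h94_single, smul_mul_assoc, hl g (hsub g hg)]
    rw [Finset.sum_congr rfl h1, ← Finset.sum_smul, hz, zero_smul]

theorem augSimple_of_repInd (hG : LocFin G) [Nontrivial G] (h : RepInd G) : AugSimple G := by
  classical
  refine ⟨?_, ?_⟩
  · obtain ⟨g, hg⟩ := exists_ne (1 : G)
    refine ⟨MonoidAlgebra.single g 1 - MonoidAlgebra.single 1 1, ?_, ?_⟩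
    · intro h0
      rw [sub_eq_zero] at h0
      exact hg (MonoidAlgebra.of_injective (R := ℂ) (M := G) h0)
    · rw [← h94Aug_apply, map_sub, h94Aug_single, h94Aug_single, sub_self]
  · intro I hI0 hI
    by_cases hall : ∀ a : MonoidAlgebra ℂ G, aug a = 0 → a ∈ I
    · exact Or.inr hall
    left
    push Not at hall
    obtain ⟨a₀, ha₀, ha₀I⟩ := hall
    -- the left ideal
    have hleft : ∀ a ∈ I, ∀ b : MonoidAlgebra ℂ G, b * a ∈ I := by
      intro a ha b
      obtain ⟨e, he1, he2, _⟩ := h94_avg hG a (hI0 a ha)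
      have h1 : b * a = (b * (1 - e)) * a := by
        rw [mul_assoc, sub_mul, he2, one_mul, sub_zero]
      rw [h1]
      refine (hI a ha _ ?_).2
      rw [← h94Aug_apply, map_mul, map_sub, map_one, he1, sub_self, mul_zero]
    have hright : ∀ a ∈ I, ∀ b : MonoidAlgebra ℂ G, a * b ∈ I := by
      intro a ha b
      obtain ⟨e, he1, _, he2⟩ := h94_avg hG a (hI0 a ha)
      have h1 : a * b = a * ((1 - e) * b) := by
        rw [← mul_assoc, mul_sub, he2, mul_one, sub_zero]
      rw [h1]
      refine (hI a ha _ ?_).1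
      rw [← h94Aug_apply, map_mul, map_sub, map_one, he1, sub_self, zero_mul]
    let I' : Submodule (MonoidAlgebra ℂ G) (MonoidAlgebra ℂ G) :=
      { carrier := I
        add_mem' := fun ha hb => I.add_mem ha hb
        zero_mem' := I.zero_mem
        smul_mem' := fun b a ha => hleft a ha b }
    let L : MonoidAlgebra ℂ G →ₐ[ℂ] Module.End ℂ (MonoidAlgebra ℂ G ⧸ I') :=
      Algebra.lsmul ℂ ℂ (MonoidAlgebra ℂ G ⧸ I')
    have hLmk : ∀ a x : MonoidAlgebra ℂ G,
        L a (Submodule.Quotient.mk x) = Submodule.Quotient.mk (a * x) := fun a x => rfl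
    let ρ : G →* Module.End ℂ (MonoidAlgebra ℂ G ⧸ I') :=
      (L : MonoidAlgebra ℂ G →* Module.End ℂ (MonoidAlgebra ℂ G ⧸ I')).comp
        (MonoidAlgebra.of ℂ G)
    have hρ : ∀ g, ρ g = L (MonoidAlgebra.single g 1) := fun g => rfl
    have hLsum : ∀ a : MonoidAlgebra ℂ G,
        L a = ∑ g ∈ a.coeff.support, a.coeff g • ρ g := by
      intro a
      have hsum : a = ∑ g ∈ a.coeff.support, MonoidAlgebra.single g (a.coeff g) :=
        (MonoidAlgebra.sum_coeff_single a).symm
      calc L a = L (∑ g ∈ a.coeff.support, MonoidAlgebra.single g (a.coeff g)) := by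
            rw [← hsum]
        _ = ∑ g ∈ a.coeff.support, a.coeff g • ρ g := by
            rw [map_sum]
            refine Finset.sum_congr rfl fun g _ => ?_
            rw [h94_single, map_smul, hρ]
    have hne : ∃ g, ρ g ≠ 1 := by
      by_contra hcon
      push Not at hcon
      apply ha₀I
      have h1 : L a₀ (Submodule.Quotient.mk 1) = 0 := by
        rw [hLsum a₀]
        have h2 : ∀ g ∈ a₀.coeff.support, a₀.coeff g • ρ g
            = a₀.coeff g • (1 : Module.End ℂ (MonoidAlgebra ℂ G ⧸ I')) := by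
          intro g _
          rw [hcon g]
        have hz : ∑ g ∈ a₀.coeff.support, a₀.coeff g = 0 := ha₀
        rw [Finset.sum_congr rfl h2, ← Finset.sum_smul, hz, zero_smul]
        rfl
      rw [hLmk, mul_one, Submodule.Quotient.mk_eq_zero] at h1
      exact h1
    have hli := h (MonoidAlgebra ℂ G ⧸ I') ρ hne
    rw [linearIndependent_iff] at hli
    intro a ha
    have h0 : a.coeff = 0 := by
      apply hli
      rw [Finsupp.linearCombination_apply]
      have h1 : (a.coeff.sum fun g c => c • ρ g) = L a := (hLsum a).symm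
      rw [h1]
      ext x
      induction x using Submodule.Quotient.induction_on with
      | _ x =>
        rw [hLmk]
        have : a * x ∈ I' := hright a ha x
        rw [(Submodule.Quotient.mk_eq_zero I').2 this]
        rfl
    exact MonoidAlgebra.coeff_eq_zero.1 h0

end H49KA
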