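import Pool.Agent.H49.KA.Defs

open Equiv

namespace H49KA
universe u

variable {G : Type u} [Group G]

section helper87

open Classical in
/-- the displayed sums of C11 -/
private noncomputable def helper87_f (H : Subgroup G) (x y : G) (a : MonoidAlgebra ℂ G) : ℂ :=
  a.coeff.sum fun g c => if y⁻¹ * g * x ∈ H then c else 0

private theorem helper87_zero (H : Subgroup G) (x y : G) :
    helper87_f H x y (0 : MonoidAlgebra ℂ G) = 0 := by
  unfold helper87_f
  rw [MonoidAlgebra.coeff_zero, Finsupp.sum_zero_index]

private theorem helper87_add (H : Subgroup G) (x y : G) (a b : MonoidAlgebra ℂ G) :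
    helper87_f H x y (a + b) = helper87_f H x y a + helper87_f H x y b := by
  classical
  unfold helper87_f
  rw [MonoidAlgebra.coeff_add, Finsupp.sum_add_index']
  · intro g
    split_ifs <;> rfl
  · intro g c d
    split_ifs
    · rfl
    · rw [add_zero]

private theorem helper87_neg (H : Subgroup G) (x y : G) (a : MonoidAlgebra ℂ G) :
    helper87_f H x y (-a) = -helper87_f H x y a := by
  have h := helper87_add H x y a (-a)
  rw [add_neg_cancel, helper87_zero] at h
  exact (neg_eq_of_add_eq_zero_right h.symm).symm

private theorem helper87_single_pos {H : Subgroup G} {x y g : G} (h : y⁻¹ * g * x ∈ H) (c : ℂ) :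
    helper87_f H x y (MonoidAlgebra.single g c) = c := by
  classical
  unfold helper87_f
  rw [MonoidAlgebra.coeff_single, Finsupp.sum_single_index, if_pos h]
  split_ifs
  rfl

private theorem helper87_single_neg {H : Subgroup G} {x y g : G} (h : y⁻¹ * g * x ∉ H) (c : ℂ) :
    helper87_f H x y (MonoidAlgebra.single g c) = 0 := by
  classical
  unfold helper87_f
  rw [MonoidAlgebra.coeff_single, Finsupp.sum_single_index, if_neg h]
  split_ifs
  rfl

private theorem helper87_mul_single (H : Subgroup G) (x y k : G) (c : ℂ)
    (a : MonoidAlgebra ℂ G) :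
    helper87_f H x y (a * MonoidAlgebra.single k c) = helper87_f H (k * x) y a * c := by
  induction a using MonoidAlgebra.induction_linear with
  | zero => rw [zero_mul, helper87_zero, helper87_zero, zero_mul]
  | add a b ha hb => rw [add_mul, helper87_add, helper87_add, ha, hb, add_mul]
  | single g d =>
    rw [MonoidAlgebra.single_mul_single]
    by_cases h : y⁻¹ * g * (k * x) ∈ H
    · rw [helper87_single_pos h, helper87_single_pos]
      have h1 : y⁻¹ * (g * k) * x = y⁻¹ * g * (k * x) := by group
      rw [h1]
      exact h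
    · rw [helper87_single_neg h, helper87_single_neg, zero_mul]
      have h1 : y⁻¹ * (g * k) * x = y⁻¹ * g * (k * x) := by group
      rw [h1]
      exact h

private theorem helper87_single_mul (H : Subgroup G) (x y k : G) (c : ℂ)
    (a : MonoidAlgebra ℂ G) :
    helper87_f H x y (MonoidAlgebra.single k c * a) = c * helper87_f H x (k⁻¹ * y) a := by
  induction a using MonoidAlgebra.induction_linear with
  | zero => rw [mul_zero, helper87_zero, helper87_zero, mul_zero]
  | add a b ha hb => rw [mul_add, helper87_add, helper87_add, ha, hb, mul_add]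
  | single g d =>
    rw [MonoidAlgebra.single_mul_single]
    by_cases h : (k⁻¹ * y)⁻¹ * g * x ∈ H
    · rw [helper87_single_pos h, helper87_single_pos]
      have h1 : y⁻¹ * (k * g) * x = (k⁻¹ * y)⁻¹ * g * x := by group
      rw [h1]
      exact h
    · rw [helper87_single_neg h, helper87_single_neg, mul_zero]
      have h1 : y⁻¹ * (k * g) * x = (k⁻¹ * y)⁻¹ * g * x := by group
      rw [h1]
      exact h

/-- the ideal -/
private noncomputable def helper87_I (H : Subgroup G) : AddSubgroup (MonoidAlgebra ℂ G) where
  carrier := {a | ∀ x y : G, helper87_f H x y a = 0}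
  add_mem' := by
    intro a b ha hb x y
    rw [helper87_add, ha x y, hb x y, add_zero]
  zero_mem' := fun x y => helper87_zero H x y
  neg_mem' := by
    intro a ha x y
    rw [helper87_neg, ha x y, neg_zero]

private theorem helper87_I_mul {H : Subgroup G} {a : MonoidAlgebra ℂ G} (ha : a ∈ helper87_I H)
    (b : MonoidAlgebra ℂ G) : a * b ∈ helper87_I H := by
  induction b using MonoidAlgebra.induction_linear with
  | zero =>
    rw [mul_zero]
    exact AddSubgroup.zero_mem _
  | add b c hb hc =>
    rw [mul_add]
    exact AddSubgroup.add_mem _ hb hc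
  | single k c =>
    intro x y
    rw [helper87_mul_single, ha (k * x) y, zero_mul]

private theorem helper87_mul_I {H : Subgroup G} {a : MonoidAlgebra ℂ G} (ha : a ∈ helper87_I H)
    (b : MonoidAlgebra ℂ G) : b * a ∈ helper87_I H := by
  induction b using MonoidAlgebra.induction_linear with
  | zero =>
    rw [zero_mul]
    exact AddSubgroup.zero_mem _
  | add b c hb hc =>
    rw [add_mul]
    exact AddSubgroup.add_mem _ hb hc
  | single k c =>
    intro x y
    rw [helper87_single_mul, ha x (k⁻¹ * y), mul_zero]

private theorem helper87_aug {H : Subgroup G} {a : MonoidAlgebra ℂ G} (ha : a ∈ helper87_I H) :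
    aug a = 0 := by
  classical
  unfold aug
  rw [Finsupp.sum, ← Finset.sum_fiberwise_of_maps_to
    (g := fun g : G => (QuotientGroup.mk g : G ⧸ H)) (t := a.coeff.support.image
      fun g : G => (QuotientGroup.mk g : G ⧸ H)) (fun g hg => Finset.mem_image_of_mem _ hg)]
  refine Finset.sum_eq_zero fun t _ => ?_
  obtain ⟨y, rfl⟩ := QuotientGroup.mk_surjective t
  have h1 := ha 1 y
  unfold helper87_f at h1
  rw [Finsupp.sum] at h1
  rw [Finset.sum_filter]
  refine Eq.trans (Finset.sum_congr rfl fun g _ => ?_) h1
  have h2 : ((QuotientGroup.mk g : G ⧸ H) = QuotientGroup.mk y) ↔ y⁻¹ * g * 1 ∈ H := by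
    rw [mul_one, eq_comm, QuotientGroup.eq]
  by_cases h : y⁻¹ * g * 1 ∈ H
  · rw [if_pos h, if_pos (h2.2 h)]
  · rw [if_neg h, if_neg (fun h3 => h (h2.1 h3))]

private theorem helper87_aug_sub (g h : G) :
    aug (MonoidAlgebra.single g 1 - MonoidAlgebra.single h 1 : MonoidAlgebra ℂ G) = 0 := by
  classical
  have hadd : ∀ a b : MonoidAlgebra ℂ G, aug (a + b) = aug a + aug b := by
    intro a b
    unfold aug
    rw [MonoidAlgebra.coeff_add, Finsupp.sum_add_index']
    · intro _; rfl
    · intro _ _ _; rfl
  have hs : ∀ (g : G) (c : ℂ), aug (MonoidAlgebra.single g c) = c := by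
    intro g c
    unfold aug
    rw [MonoidAlgebra.coeff_single, Finsupp.sum_single_index rfl]
  have h1 := hadd (MonoidAlgebra.single g 1 - MonoidAlgebra.single h 1)
    (MonoidAlgebra.single h 1)
  rw [sub_add_cancel, hs, hs] at h1
  exact (add_eq_right.1 h1.symm)

end helper87

open Classical in
theorem coset_faithful (hA : AugSimple G) (H : Subgroup G) (hH : H ≠ ⊤)
    (a : MonoidAlgebra ℂ G)
    (ha : ∀ x y : G, (a.coeff.sum fun g c => if y⁻¹ * g * x ∈ H then c else 0) = 0) :
    a = 0 := by
  have ha' : a ∈ helper87_I H := by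
    intro x y
    unfold helper87_f
    exact ha x y
  obtain ⟨g, hg⟩ : ∃ g, g ∉ H := by
    by_contra hcon
    push Not at hcon
    exact hH (Subgroup.eq_top_iff' H |>.2 hcon)
  rcases hA.2 (helper87_I H) (fun a ha => helper87_aug ha)
    (fun a ha b _ => ⟨helper87_I_mul ha b, helper87_mul_I ha b⟩) with h | h
  · exact h a ha'
  · exfalso
    have h1 := h _ (helper87_aug_sub g 1) 1 1
    rw [sub_eq_add_neg, helper87_add, helper87_neg, helper87_single_neg, helper87_single_pos,
      zero_add, neg_eq_zero] at h1
    · exact one_ne_zero h1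
    · simp
    · simpa using hg

theorem simple_of_augSimple [Infinite G] (hA : AugSimple G) : IsSimpleGroup G := by
  classical
  have hnt : Nontrivial G := inferInstance
  refine { toNontrivial := hnt, eq_bot_or_eq_top_of_normal := fun N hN => ?_ }
  by_cases hT : N = ⊤
  · exact Or.inr hT
  left
  rw [Subgroup.eq_bot_iff_forall]
  intro n hn
  have h0 : (MonoidAlgebra.single n 1 - MonoidAlgebra.single 1 1 : MonoidAlgebra ℂ G) = 0 := by
    apply coset_faithful hA N hT
    intro x y
    have h1 : ∀ a : MonoidAlgebra ℂ G,
        (a.coeff.sum fun g c => if y⁻¹ * g * x ∈ N then c else 0) = helper87_f N x y a := by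
      intro a
      unfold helper87_f
      rfl
    rw [h1, sub_eq_add_neg, helper87_add, helper87_neg]
    have h2 : y⁻¹ * n * x = (y⁻¹ * 1 * x) * (x⁻¹ * n * x) := by group
    have h3 : x⁻¹ * n * x ∈ N := by
      have := hN.conj_mem n hn x⁻¹
      rwa [inv_inv] at this
    by_cases h : y⁻¹ * 1 * x ∈ N
    · rw [helper87_single_pos h, helper87_single_pos, add_neg_cancel]
      rw [h2]
      exact mul_mem h h3
    · rw [helper87_single_neg h, helper87_single_neg, add_neg_cancel]
      rw [h2]
      intro h4
      exact h ((Subgroup.mul_mem_cancel_right N h3).1 h4)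
  rw [sub_eq_zero] at h0
  exact (MonoidAlgebra.single_left_inj one_ne_zero).1 h0

end H49KA
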