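import Pool.Agent.H49.KA.Defs

open Equiv

namespace H49KA
universe u

variable {K : Type*} [Group K] [Finite K]
variable {V : Type*} [AddCommGroup V] [Module ℂ V] [FiniteDimensional ℂ V]

theorem trace_bound (B : V →ₗ⋆[ℂ] V →ₗ[ℂ] ℂ)
    (hB : ∀ v, v ≠ 0 → 0 < (B v v).re) (hB' : ∀ v, (B v v).im = 0)
    (T T' : Module.End ℂ V) (hadj : ∀ v w, B (T v) w = B v (T' w))
    (κ : ℂ) (h : T' * T = κ • (1 : Module.End ℂ V)) (r : ℝ) (hr : 0 ≤ r) (hκ : ‖κ‖ ≤ r ^ 2) :
    ‖LinearMap.trace ℂ V T‖ ≤ r * Module.finrank ℂ V := by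
  have _ := hB'
  have hsp : (LinearMap.charpoly T).Splits := IsAlgClosed.splits _
  have hroot : ∀ μ ∈ (LinearMap.charpoly T).roots, ‖μ‖ ≤ r := by
    intro μ hμ
    have h1 : Module.End.HasEigenvalue T μ :=
      (Module.End.hasEigenvalue_iff_isRoot_charpoly T μ).2
        ((Polynomial.mem_roots (LinearMap.charpoly_monic T).ne_zero).1 hμ)
    obtain ⟨v, hv⟩ := h1.exists_hasEigenvector
    have hTv : T v = μ • v := hv.apply_eq_smul
    have hv0 : v ≠ 0 := hv.2
    have e1 : B (T v) (T v) = κ * B v v := by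
      rw [hadj]
      have : T' (T v) = κ • v := by
        have := congrArg (fun f : Module.End ℂ V => f v) h
        simpa using this
      rw [this, map_smul, smul_eq_mul]
    have e2 : B (T v) (T v) = (starRingEnd ℂ μ * μ) * B v v := by
      rw [hTv, LinearMap.map_smulₛₗ₂, map_smul, smul_eq_mul, smul_eq_mul]
      ring
    have e3 : B v v ≠ 0 := by
      intro h0
      have := hB v hv0
      rw [h0] at this
      simp at this
    have e4 : starRingEnd ℂ μ * μ = κ := mul_right_cancel₀ e3 (e2.symm.trans e1)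
    have e5 : ‖μ‖ ^ 2 ≤ r ^ 2 := by
      rw [← e4, norm_mul, RCLike.norm_conj] at hκ
      rw [sq]; exact hκ
    exact le_of_sq_le_sq e5 hr
  rw [Module.End.trace_eq_sum_roots_charpoly_of_splits hsp]
  refine (norm_multiset_sum_le _).trans ?_
  have hle := Multiset.sum_le_card_nsmul ((LinearMap.charpoly T).roots.map fun x => ‖x‖) r (by
    intro x hx
    obtain ⟨μ, hμ, rfl⟩ := Multiset.mem_map.1 hx
    exact hroot μ hμ)
  refine hle.trans ?_
  rw [Multiset.card_map, nsmul_eq_mul, mul_comm]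
  have hc : (LinearMap.charpoly T).roots.card ≤ Module.finrank ℂ V := by
    rw [← LinearMap.charpoly_natDegree T]
    exact Polynomial.card_roots' _
  exact mul_le_mul_of_nonneg_left (by exact_mod_cast hc) hr

end H49KA
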