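import Pool.Agent.H49.KA.Defs

open Equiv

namespace H49KA
universe u

variable {K : Type*} [Group K] [Finite K]
variable {V : Type*} [AddCommGroup V] [Module ℂ V] [FiniteDimensional ℂ V]

theorem linIndep_of_trace {F : Type*} [Group F] [Finite F] [Nontrivial V]
    (ρ : F →* Module.End ℂ V)
    (h : ∀ f : F, f ≠ 1 → (Nat.card F : ℝ) * ‖LinearMap.trace ℂ V (ρ f)‖ ≤ Module.finrank ℂ V) :
    LinearIndependent ℂ (fun f : F => ρ f) := by
  classical
  have := Fintype.ofFinite F
  rw [Fintype.linearIndependent_iff]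
  intro x hx
  obtain ⟨f0, -, hf0⟩ := Finset.exists_max_image (Finset.univ : Finset F) (fun f => ‖x f‖)
    ⟨1, Finset.mem_univ _⟩
  have hd : (0 : ℝ) < Module.finrank ℂ V := by
    exact_mod_cast (Module.finrank_pos : 0 < Module.finrank ℂ V)
  have hN : (0 : ℝ) < Nat.card F := by
    exact_mod_cast (Nat.card_pos : 0 < Nat.card F)
  have h1 : ∑ f, x f * LinearMap.trace ℂ V (ρ (f0⁻¹ * f)) = 0 := by
    have h2 := congrArg (fun T => LinearMap.trace ℂ V (ρ f0⁻¹ * T)) hx
    simp only [Finset.mul_sum, mul_smul_comm, map_sum, map_smul, mul_zero, map_zero,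
      smul_eq_mul, ← map_mul] at h2
    exact h2
  have h2 : x f0 * Module.finrank ℂ V =
      -∑ f ∈ Finset.univ.erase f0, x f * LinearMap.trace ℂ V (ρ (f0⁻¹ * f)) := by
    rw [← Finset.add_sum_erase _ _ (Finset.mem_univ f0), inv_mul_cancel, map_one,
      LinearMap.trace_one] at h1
    exact eq_neg_of_add_eq_zero_left h1
  have h3 : ‖x f0‖ * Module.finrank ℂ V ≤
      ∑ f ∈ Finset.univ.erase f0, ‖x f0‖ * ((Module.finrank ℂ V : ℝ) / Nat.card F) := by
    have h4 : ‖x f0‖ * Module.finrank ℂ V = ‖x f0 * Module.finrank ℂ V‖ := by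
      rw [norm_mul, Complex.norm_natCast]
    rw [h4, h2, norm_neg]
    refine (norm_sum_le _ _).trans (Finset.sum_le_sum fun f hf => ?_)
    rw [norm_mul]
    refine mul_le_mul (hf0 f (Finset.mem_univ _)) ?_ (norm_nonneg _) (norm_nonneg _)
    rw [le_div_iff₀ hN, mul_comm]
    refine h _ fun h5 => ?_
    rw [inv_mul_eq_one] at h5
    exact (Finset.mem_erase.1 hf).1 h5.symm
  have hcard : ((Finset.univ.erase f0).card : ℝ) = (Nat.card F : ℝ) - 1 := by
    rw [Finset.card_erase_of_mem (Finset.mem_univ f0), Finset.card_univ, Nat.card_eq_fintype_card,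
      Nat.cast_sub (Fintype.card_pos)]
    norm_num
  rw [Finset.sum_const, nsmul_eq_mul, hcard] at h3
  have h4 : ‖x f0‖ = 0 := by
    by_contra hne
    have hpos : 0 < ‖x f0‖ := lt_of_le_of_ne (norm_nonneg _) (Ne.symm hne)
    have h5 : ((Nat.card F : ℝ) - 1) * (‖x f0‖ * ((Module.finrank ℂ V : ℝ) / Nat.card F)) =
        ‖x f0‖ * Module.finrank ℂ V - ‖x f0‖ * Module.finrank ℂ V / Nat.card F := by
      field_simp
    rw [h5] at h3
    have h6 : 0 < ‖x f0‖ * Module.finrank ℂ V / Nat.card F := by positivity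
    linarith
  intro i
  have h5 := hf0 i (Finset.mem_univ _)
  have h6 : ‖x i‖ = 0 := le_antisymm (h5.trans h4.le) (norm_nonneg _)
  exact norm_eq_zero.1 h6

end H49KA
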