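import Pool.Agent.H49.KA.Defs

open Equiv

namespace H49KA
universe u

variable {K : Type*} [Group K] [Finite K]
variable {V : Type*} [AddCommGroup V] [Module ℂ V] [FiniteDimensional ℂ V]

theorem growth_bound (A A' D : Subgroup K) (hA' : A' ≤ A)
    (hab : ∀ a ∈ A, ∀ b ∈ A, a * b * a⁻¹ * b⁻¹ ∈ A')
    (hDA : NormIn D A) (hDA' : NormIn D A') (w : K) (hw : w ∈ A)
    (hreg : ∀ d ∈ D, d * w * d⁻¹ * w⁻¹ ∈ A' → d = 1)
    (f : K) (hf : f ∈ D) (t : ℕ) (d : Fin t → K) (hd : ∀ i, d i ∈ D) :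
    Nat.card (Subgroup.closure (Set.range fun i => d i * f * (d i)⁻¹)) *
      (Nat.card {c : A // f * c * f⁻¹ * (c : K)⁻¹ ∈ A'}) ^ t ≤ (Nat.card A) ^ t := by
  classical
  -- the abelian quotient
  have hnorm : (A'.subgroupOf A).Normal := by
    constructor
    intro n hn g
    rw [Subgroup.mem_subgroupOf] at hn ⊢
    have h1 := hab g g.2 n (hA' hn)
    have h2 := A'.mul_mem h1 hn
    have h3 : (g : K) * n * (g : K)⁻¹ * (n : K)⁻¹ * n = g * n * (g : K)⁻¹ := by group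
    rw [h3] at h2
    simpa using h2
  let q : A →* A ⧸ A'.subgroupOf A := QuotientGroup.mk' _
  have hqker : ∀ a : A, q a = 1 ↔ (a : K) ∈ A' := by
    intro a
    have : q a = 1 ↔ a ∈ A'.subgroupOf A := QuotientGroup.eq_one_iff a
    rw [this, Subgroup.mem_subgroupOf]
  have hqs : Function.Surjective q := QuotientGroup.mk'_surjective _
  have hcomm : ∀ x y : A ⧸ A'.subgroupOf A, x * y = y * x := by
    intro x y
    obtain ⟨a, rfl⟩ := hqs x
    obtain ⟨b, rfl⟩ := hqs y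
    have h1 : q (a * b * a⁻¹ * b⁻¹) = 1 := by
      rw [hqker]
      simpa using hab a a.2 b b.2
    rw [map_mul, map_mul, map_mul, map_inv, map_inv] at h1
    have h2 : q a * q b = (q a * q b * (q a)⁻¹ * (q b)⁻¹) * (q b * q a) := by group
    rw [h2, h1, one_mul]
  let _ : CommGroup (A ⧸ A'.subgroupOf A) :=
    { (inferInstance : Group (A ⧸ A'.subgroupOf A)) with mul_comm := hcomm }
  -- conjugation
  let cj : D → A →* A := fun g =>
    { toFun := fun a => ⟨g * a * (g : K)⁻¹, hDA g g.2 a a.2⟩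
      map_one' := by ext; simp
      map_mul' := by intro a b; ext; simp }
  have hcj : ∀ (g : D) (a : A), ((cj g a : A) : K) = g * a * (g : K)⁻¹ := fun _ _ => rfl
  let fi : Fin t → K := fun i => d i * f * (d i)⁻¹
  have hfi : ∀ i, fi i ∈ D := fun i => D.mul_mem (D.mul_mem (hd i) hf) (D.inv_mem (hd i))
  let δ : Fin t → A →* A ⧸ A'.subgroupOf A := fun i => (q.comp (cj ⟨fi i, hfi i⟩)) * q⁻¹
  have hδ : ∀ i a, δ i a = q (cj ⟨fi i, hfi i⟩ a) * (q a)⁻¹ := fun _ _ => rfl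
  let Φ : (Fin t → A) →* A ⧸ A'.subgroupOf A :=
    { toFun := fun x => ∏ i, δ i (x i)
      map_one' := by simp
      map_mul' := by intro x y; simp [Finset.prod_mul_distrib] }
  have hΦ : ∀ x, Φ x = ∏ i, δ i (x i) := fun _ => rfl
  have hΦs : ∀ i a, Φ (Pi.mulSingle i a) = δ i a := by
    intro i a
    rw [hΦ, Finset.prod_eq_single i]
    · rw [Pi.mulSingle_eq_same]
    · intro j _ hj
      rw [Pi.mulSingle_eq_of_ne hj, map_one]
    · intro h
      exact absurd (Finset.mem_univ i) h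
  have hclD : Subgroup.closure (Set.range fi) ≤ D := by
    rw [Subgroup.closure_le]
    rintro _ ⟨i, rfl⟩
    exact hfi i
  -- the orbit of `w`
  have horb : ∀ (y : K) (hy : y ∈ Subgroup.closure (Set.range fi)),
      ∃ x : Fin t → A, ∀ yD : D, (yD : K) = y → q (cj yD ⟨w, hw⟩) = q ⟨w, hw⟩ * Φ x := by
    intro y hy
    induction hy using Subgroup.closure_induction_left with
    | one =>
      refine ⟨1, fun yD h1 => ?_⟩
      rw [map_one, mul_one]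
      congr 1
      ext
      rw [hcj, h1]
      simp
    | mul_left s hs y hy ih =>
      obtain ⟨i, rfl⟩ := hs
      obtain ⟨x, hx⟩ := ih
      have hyD : y ∈ D := hclD hy
      have hx := hx ⟨y, hyD⟩ rfl
      refine ⟨x * Pi.mulSingle i (cj ⟨y, hyD⟩ ⟨w, hw⟩), fun yD h1 => ?_⟩
      rw [map_mul, hΦs, hδ, ← mul_assoc, ← hx]
      have h2 : cj yD ⟨w, hw⟩ = cj ⟨fi i, hfi i⟩ (cj ⟨y, hyD⟩ ⟨w, hw⟩) := by
        ext
        rw [hcj, hcj, hcj, h1]
        group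
      rw [h2, mul_comm (q (cj ⟨fi i, hfi i⟩ (cj ⟨y, hyD⟩ ⟨w, hw⟩))) _, ← mul_assoc,
        mul_inv_cancel, one_mul]
    | inv_mul_cancel s hs y hy ih =>
      obtain ⟨i, rfl⟩ := hs
      obtain ⟨x, hx⟩ := ih
      have hyD : y ∈ D := hclD hy
      have hx := hx ⟨y, hyD⟩ rfl
      have h1 : (fi i)⁻¹ * y ∈ D := D.mul_mem (D.inv_mem (hfi i)) hyD
      refine ⟨x * (Pi.mulSingle i (cj ⟨(fi i)⁻¹ * y, h1⟩ ⟨w, hw⟩))⁻¹, fun yD h0 => ?_⟩
      have h0' : yD = ⟨(fi i)⁻¹ * y, h1⟩ := Subtype.ext h0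
      rw [h0', map_mul, map_inv, hΦs, hδ, ← mul_assoc, ← hx]
      have h2 : cj ⟨fi i, hfi i⟩ (cj ⟨(fi i)⁻¹ * y, h1⟩ ⟨w, hw⟩) = cj ⟨y, hyD⟩ ⟨w, hw⟩ := by
        ext
        rw [hcj, hcj, hcj]
        group
      rw [h2]
      generalize q (cj ⟨y, hyD⟩ ⟨w, hw⟩) = u
      generalize q (cj ⟨(fi i)⁻¹ * y, h1⟩ ⟨w, hw⟩) = v
      rw [mul_inv_rev, inv_inv, mul_comm v, ← mul_assoc, mul_inv_cancel, one_mul]
  choose X hX using horb
  let C := {c : A // f * c * f⁻¹ * (c : K)⁻¹ ∈ A'}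
  let Ψ : (Subgroup.closure (Set.range fi)) × (Fin t → C) → (Fin t → A) :=
    fun z i => X z.1 z.1.2 i * cj ⟨d i, hd i⟩ (z.2 i).1
  have hΨ : ∀ z, Φ (Ψ z) = Φ (X z.1 z.1.2) := by
    intro z
    have h1 : Ψ z = X z.1 z.1.2 * fun i => cj ⟨d i, hd i⟩ (z.2 i).1 := rfl
    rw [h1, map_mul]
    have h2 : Φ (fun i => cj ⟨d i, hd i⟩ (z.2 i).1) = 1 := by
      rw [hΦ]
      apply Finset.prod_eq_one
      intro i _
      rw [hδ, ← map_inv, ← map_mul, hqker]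
      have h3 := hDA' (d i) (hd i) _ (z.2 i).2
      have h4 : ((cj ⟨fi i, hfi i⟩ (cj ⟨d i, hd i⟩ (z.2 i).1) *
          (cj ⟨d i, hd i⟩ (z.2 i).1)⁻¹ : A) : K)
          = d i * (f * ((z.2 i).1 : K) * f⁻¹ * (((z.2 i).1 : A) : K)⁻¹) * (d i)⁻¹ := by
        rw [Subgroup.coe_mul, Subgroup.coe_inv, hcj, hcj]
        simp only [fi]
        group
      rw [h4]
      exact h3
    rw [h2, mul_one]
  have hinj : Function.Injective Ψ := by
    intro z z' h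
    have hyD : (z.1 : K) ∈ D := hclD z.1.2
    have hyD' : (z'.1 : K) ∈ D := hclD z'.1.2
    have h1 : Φ (X z.1 z.1.2) = Φ (X z'.1 z'.1.2) := by rw [← hΨ, ← hΨ, h]
    have h2 : q (cj ⟨z.1, hyD⟩ ⟨w, hw⟩) = q (cj ⟨z'.1, hyD'⟩ ⟨w, hw⟩) := by
      rw [hX z.1 z.1.2 ⟨z.1, hyD⟩ rfl, hX z'.1 z'.1.2 ⟨z'.1, hyD'⟩ rfl, h1]
    have h3 : q (cj ⟨z.1, hyD⟩ ⟨w, hw⟩ * (cj ⟨z'.1, hyD'⟩ ⟨w, hw⟩)⁻¹) = 1 := by
      rw [map_mul, map_inv, h2, mul_inv_cancel]
    rw [hqker, Subgroup.coe_mul, Subgroup.coe_inv, hcj, hcj] at h3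
    have h4 : ((z'.1 : K)⁻¹ * z.1) = 1 := by
      apply hreg _ (D.mul_mem (D.inv_mem hyD') hyD)
      have h5 := hDA' _ (D.inv_mem hyD') _ h3
      have h6 : ((z'.1 : K)⁻¹ * (z.1 * w * (z.1 : K)⁻¹ * (z'.1 * w * (z'.1 : K)⁻¹)⁻¹) *
          ((z'.1 : K)⁻¹)⁻¹) = (z'.1 : K)⁻¹ * z.1 * w * ((z'.1 : K)⁻¹ * z.1)⁻¹ * w⁻¹ := by
        group
      rw [← h6]
      exact h5
    have h7 : z.1 = z'.1 := by
      ext
      rw [inv_mul_eq_one] at h4
      exact h4.symm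
    obtain ⟨y, c⟩ := z
    obtain ⟨y', c'⟩ := z'
    simp only at h7
    subst h7
    have h8 : c = c' := by
      funext i
      have h9 := congrFun h i
      simp only [Ψ] at h9
      have h10 := mul_left_cancel h9
      have h11 : ((cj ⟨d i, hd i⟩ (c i).1 : A) : K) = ((cj ⟨d i, hd i⟩ (c' i).1 : A) : K) := by
        rw [h10]
      rw [hcj, hcj] at h11
      have h12 := mul_left_cancel (mul_right_cancel h11)
      exact Subtype.ext (Subtype.ext h12)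
    rw [h8]
  have hcard := Nat.card_le_card_of_injective Ψ hinj
  rw [Nat.card_prod, Nat.card_fun, Nat.card_fun, Nat.card_eq_fintype_card (α := Fin t),
    Fintype.card_fin] at hcard
  exact hcard

end H49KA
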