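import Pool.Agent.H49.KA.Defs

open Equiv

namespace H49KA
universe u

variable {K : Type*} [Group K] [Finite K]
variable {V : Type*} [AddCommGroup V] [Module ℂ V] [FiniteDimensional ℂ V]

omit [Finite K] [FiniteDimensional ℂ V] in
private theorem c5_clOp_eq (ρ : K →* Module.End ℂ V) (A : Subgroup K) [Fintype A] (x : K) :
    clOp ρ A x = (Nat.card A : ℂ)⁻¹ • ∑ b : A, ρ ((b : K) * x * (b : K)⁻¹) := by
  unfold clOp
  rw [finsum_eq_sum_of_fintype]

omit [FiniteDimensional ℂ V] in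
/-- the averaged conjugates commute with the operators of the subgroup -/
private theorem c5_comm_rho (ρ : K →* Module.End ℂ V) (A : Subgroup K) (x c : K) (hc : c ∈ A) :
    ρ c * clOp ρ A x = clOp ρ A x * ρ c := by
  classical
  have := Fintype.ofFinite A
  rw [c5_clOp_eq, mul_smul_comm, smul_mul_assoc, Finset.mul_sum, Finset.sum_mul]
  congr 1
  refine Fintype.sum_equiv (Equiv.mulLeft (⟨c, hc⟩ : A)) _ _ fun b => ?_
  rw [← map_mul, ← map_mul]
  congr 1
  simp only [Equiv.coe_mulLeft, Subgroup.coe_mul]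
  group

omit [FiniteDimensional ℂ V] in
private theorem c5_comm (ρ : K →* Module.End ℂ V) (A : Subgroup K) {a : K} (ha : a ∈ A) (x : K) :
    Commute (clOp ρ A a) (clOp ρ A x) := by
  classical
  have := Fintype.ofFinite A
  rw [c5_clOp_eq ρ A a]
  refine Commute.smul_left (Commute.sum_left _ _ _ fun b _ => ?_) _
  exact c5_comm_rho ρ A x _ (A.mul_mem (A.mul_mem b.2 ha) (A.inv_mem b.2))

/-- the average of the operators of the commutators with `a` -/
private noncomputable def c5pi (ρ : K →* Module.End ℂ V) (A : Subgroup K) [Fintype A] (a : K) :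
    Module.End ℂ V :=
  (Nat.card A : ℂ)⁻¹ • ∑ b : A, ρ (a⁻¹ * (b : K) * a * (b : K)⁻¹)

omit [Finite K] [FiniteDimensional ℂ V] in
private theorem c5_mul_pi (ρ : K →* Module.End ℂ V) (A : Subgroup K) [Fintype A] (a : K) :
    ρ a * c5pi ρ A a = clOp ρ A a := by
  rw [c5_clOp_eq, c5pi, mul_smul_comm, Finset.mul_sum]
  congr 1
  refine Finset.sum_congr rfl fun b _ => ?_
  rw [← map_mul]
  congr 1
  group

omit [Finite K] [FiniteDimensional ℂ V] in
/-- commutators are central modulo the kernel -/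
private theorem c5_central (ρ : K →* Module.End ℂ V) (A : Subgroup K) (h2 : Cl2 ρ A) {a b z : K}
    (ha : a ∈ A) (hb : b ∈ A) (hz : z ∈ A) :
    Commute (ρ (a⁻¹ * b * a * b⁻¹)) (ρ z) := by
  have h := h2 a⁻¹ (A.inv_mem ha) b hb z hz
  rw [inv_inv] at h
  have h1 : ρ ((a⁻¹ * b * a * b⁻¹) * z * (a⁻¹ * b * a * b⁻¹)⁻¹ * z⁻¹) *
      ρ (z * (a⁻¹ * b * a * b⁻¹)) = ρ (z * (a⁻¹ * b * a * b⁻¹)) := by
    rw [h, one_mul]
  rw [← map_mul] at h1
  have h2 : (a⁻¹ * b * a * b⁻¹) * z * (a⁻¹ * b * a * b⁻¹)⁻¹ * z⁻¹ * (z * (a⁻¹ * b * a * b⁻¹)) =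
      (a⁻¹ * b * a * b⁻¹) * z := by
    group
  rw [h2, map_mul, map_mul ρ z] at h1
  exact h1

omit [Finite K] [FiniteDimensional ℂ V] in
private theorem c5_mult (ρ : K →* Module.End ℂ V) (A : Subgroup K) (h2 : Cl2 ρ A) {a b c : K}
    (ha : a ∈ A) (hb : b ∈ A) (hc : c ∈ A) :
    ρ (a⁻¹ * b * a * b⁻¹) * ρ (a⁻¹ * c * a * c⁻¹) = ρ (a⁻¹ * (b * c) * a * (b * c)⁻¹) := by
  have h1 : a⁻¹ * (b * c) * a * (b * c)⁻¹ =
      (a⁻¹ * b * a) * ((a⁻¹ * c * a * c⁻¹) * b⁻¹) := by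
    group
  have h3 := c5_central ρ A h2 ha hc (A.inv_mem hb)
  rw [h1, map_mul ρ (a⁻¹ * b * a), map_mul ρ (a⁻¹ * b * a), map_mul ρ (a⁻¹ * c * a * c⁻¹), h3.eq,
    mul_assoc]

omit [Finite K] [FiniteDimensional ℂ V] in
private theorem c5_pi_comm (ρ : K →* Module.End ℂ V) (A : Subgroup K) [Fintype A] (h2 : Cl2 ρ A)
    {a z : K} (ha : a ∈ A) (hz : z ∈ A) : Commute (ρ z) (c5pi ρ A a) := by
  refine Commute.smul_right (Commute.sum_right _ _ _ fun b _ => ?_) _
  exact (c5_central ρ A h2 ha b.2 hz).symm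

omit [FiniteDimensional ℂ V] in
private theorem c5_pi_idem (ρ : K →* Module.End ℂ V) (A : Subgroup K) [Fintype A] (h2 : Cl2 ρ A)
    {a : K} (ha : a ∈ A) : c5pi ρ A a * c5pi ρ A a = c5pi ρ A a := by
  classical
  have h0 : (Nat.card A : ℂ) ≠ 0 := by
    exact_mod_cast (Nat.card_pos (α := A)).ne'
  have h1 : (∑ b : A, ρ (a⁻¹ * (b : K) * a * (b : K)⁻¹)) *
      (∑ b : A, ρ (a⁻¹ * (b : K) * a * (b : K)⁻¹)) =
      (Nat.card A : ℂ) • ∑ b : A, ρ (a⁻¹ * (b : K) * a * (b : K)⁻¹) := by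
    rw [Finset.sum_mul]
    have h3 : ∀ b : A, ρ (a⁻¹ * (b : K) * a * (b : K)⁻¹) *
        (∑ c : A, ρ (a⁻¹ * (c : K) * a * (c : K)⁻¹)) =
        ∑ c : A, ρ (a⁻¹ * (c : K) * a * (c : K)⁻¹) := by
      intro b
      rw [Finset.mul_sum]
      refine Fintype.sum_equiv (Equiv.mulLeft b) _ _ fun c => ?_
      rw [c5_mult ρ A h2 ha b.2 c.2]
      rfl
    rw [Finset.sum_congr rfl fun b _ => h3 b, Finset.sum_const, Finset.card_univ,
      ← Nat.card_eq_fintype_card, ← Nat.cast_smul_eq_nsmul ℂ]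
  rw [c5pi, smul_mul_smul_comm, h1, smul_smul, mul_assoc, inv_mul_cancel₀ h0, mul_one]

omit [FiniteDimensional ℂ V] in
private theorem c5_pow (ρ : K →* Module.End ℂ V) (A : Subgroup K) (h2 : Cl2 ρ A)
    {a : K} (ha : a ∈ A) : ∃ n : ℕ, n ≠ 0 ∧ clOp ρ A a ^ (n + 1) = clOp ρ A a := by
  classical
  have := Fintype.ofFinite A
  refine ⟨orderOf a, (orderOf_pos a).ne', ?_⟩
  have h1 : IsIdempotentElem (c5pi ρ A a) := c5_pi_idem ρ A h2 ha
  rw [← c5_mul_pi, (c5_pi_comm ρ A h2 ha ha).mul_pow, h1.pow_succ_eq, ← map_pow, pow_succ,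
    pow_orderOf_eq_one, one_mul]

omit [FiniteDimensional ℂ V] in
private theorem c5_semi (ρ : K →* Module.End ℂ V) (A : Subgroup K) (h2 : Cl2 ρ A)
    {a : K} (ha : a ∈ A) : (clOp ρ A a).IsSemisimple := by
  obtain ⟨n, hn, h⟩ := c5_pow ρ A h2 ha
  have hn' : (n : ℂ) ≠ 0 := by exact_mod_cast hn
  have hcop : IsCoprime (Polynomial.X : Polynomial ℂ) (Polynomial.X ^ n - 1) := by
    refine ⟨Polynomial.X ^ (n - 1), -1, ?_⟩
    have h3 : (Polynomial.X : Polynomial ℂ) ^ (n - 1) * Polynomial.X = Polynomial.X ^ n := by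
      rw [← pow_succ]
      congr 1
      omega
    rw [h3]
    ring
  have hsq : Squarefree ((Polynomial.X : Polynomial ℂ) * (Polynomial.X ^ n - 1)) :=
    (Polynomial.separable_X.mul (Polynomial.X_pow_sub_one_separable_iff.2 hn') hcop).squarefree
  refine Module.End.isSemisimple_of_squarefree_aeval_eq_zero hsq ?_
  rw [map_mul, map_sub, map_pow, map_one, Polynomial.aeval_X, mul_sub, mul_one, ← pow_succ', h,
    sub_self]

theorem jsp_structure (ρ : K →* Module.End ℂ V) (A : Subgroup K) (h2 : Cl2 ρ A) :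
    (⨆ j : A → ℂ, jsp ρ A j = ⊤) ∧ iSupIndep (fun j : A → ℂ => jsp ρ A j) ∧
    (∀ j : A → ℂ, ∀ a ∈ A, ∀ v ∈ jsp ρ A j, ρ a v ∈ jsp ρ A j) ∧
    (∀ j : A → ℂ, ∀ a : A, j a ≠ 0 → ∀ v ∈ jsp ρ A j, ρ a v = j a • v) := by
  classical
  have := Fintype.ofFinite A
  have hjsp : ∀ j : A → ℂ, jsp ρ A j =
      ⨅ a : A, (clOp ρ A (a : K)).maxGenEigenspace (j a) := by
    intro j
    unfold jsp
    refine iInf_congr fun a => ?_
    exact ((c5_semi ρ A h2 a.2).isFinitelySemisimple.maxGenEigenspace_eq_eigenspace (j a)).symm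
  have hmem : ∀ (j : A → ℂ) (v : V), v ∈ jsp ρ A j ↔ ∀ a : A, clOp ρ A (a : K) v = j a • v := by
    intro j v
    unfold jsp
    rw [Submodule.mem_iInf]
    exact forall_congr' fun a => Module.End.mem_eigenspace_iff
  refine ⟨?_, ?_, ?_, ?_⟩
  · rw [iSup_congr hjsp]
    exact Module.End.iSup_iInf_maxGenEigenspace_eq_top_of_iSup_maxGenEigenspace_eq_top_of_commute
      (fun a : A => clOp ρ A (a : K)) (fun a b _ => c5_comm ρ A a.2 b)
      (fun a => Module.End.iSup_maxGenEigenspace_eq_top _)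
  · have h1 : (fun j : A → ℂ => jsp ρ A j) =
        fun j : A → ℂ => ⨅ a : A, (clOp ρ A (a : K)).maxGenEigenspace (j a) := funext hjsp
    rw [h1]
    exact Module.End.independent_iInf_maxGenEigenspace_of_forall_mapsTo
      (fun a : A => clOp ρ A (a : K)) (fun a b μ =>
        Module.End.mapsTo_maxGenEigenspace_of_comm (c5_comm ρ A b.2 a) μ)
  · intro j a ha v hv
    rw [hmem] at hv ⊢
    intro x
    have h1 : (ρ a * clOp ρ A (x : K)) v = (clOp ρ A (x : K) * ρ a) v := by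
      rw [c5_comm_rho ρ A x a ha]
    rw [Module.End.mul_apply, Module.End.mul_apply, hv x, map_smul] at h1
    exact h1.symm
  · intro j a hja v hv
    rw [hmem] at hv
    have h1 : ρ (a : K) (c5pi ρ A (a : K) v) = j a • v := by
      have h3 := hv a
      rw [← c5_mul_pi, Module.End.mul_apply] at h3
      exact h3
    have h3 : c5pi ρ A (a : K) (ρ (a : K) (c5pi ρ A (a : K) v)) =
        ρ (a : K) (c5pi ρ A (a : K) v) := by
      have h4 : c5pi ρ A (a : K) * (ρ (a : K) * c5pi ρ A (a : K)) =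
          ρ (a : K) * c5pi ρ A (a : K) := by
        rw [← mul_assoc, ← (c5_pi_comm ρ A h2 a.2 a.2).eq, mul_assoc, c5_pi_idem ρ A h2 a.2]
      have h5 := congrArg (fun f : Module.End ℂ V => f v) h4
      simpa only [Module.End.mul_apply] using h5
    rw [h1, map_smul] at h3
    have h4 : c5pi ρ A (a : K) v = v := smul_right_injective V hja h3
    rw [h4] at h1
    exact h1

end H49KA
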