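import Pool.Agent.H49.KA.Defs
import Pool.Agent.H49.KA.C1
import Pool.Agent.H49.KA.C2
import Pool.Agent.H49.KA.C5

open Equiv

namespace H49KA
universe u

variable {K : Type*} [Group K] [Finite K]
variable {V : Type*} [AddCommGroup V] [Module ℂ V] [FiniteDimensional ℂ V]

/-- the elements of the group that preserve a subspace together with their inverses -/
private def c6Stab (ρ : K →* Module.End ℂ V) (U : Submodule ℂ V) : Subgroup K where
  carrier := {k | (∀ v ∈ U, ρ k v ∈ U) ∧ ∀ v ∈ U, ρ k⁻¹ v ∈ U}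
  mul_mem' := by
    intro a b ha hb
    refine ⟨fun v hv => ?_, fun v hv => ?_⟩
    · rw [map_mul, Module.End.mul_apply]
      exact ha.1 _ (hb.1 v hv)
    · rw [mul_inv_rev, map_mul, Module.End.mul_apply]
      exact hb.2 _ (ha.2 v hv)
  one_mem' := by
    refine ⟨fun v hv => ?_, fun v hv => ?_⟩
    · rwa [map_one]
    · rwa [inv_one, map_one]
  inv_mem' := by
    intro a ha
    refine ⟨ha.2, fun v hv => ?_⟩
    rw [inv_inv]
    exact ha.1 v hv

/-- the representation on a subspace of the group of the elements that preserve it -/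
private noncomputable def c6Res (ρ : K →* Module.End ℂ V) (U : Submodule ℂ V) :
    c6Stab ρ U →* Module.End ℂ U where
  toFun k := (ρ (k : K)).restrict k.2.1
  map_one' := by
    ext v
    simp
  map_mul' a b := by
    ext v
    simp

private theorem c6Res_coe (ρ : K →* Module.End ℂ V) (U : Submodule ℂ V) (k : c6Stab ρ U) (v : U) :
    (c6Res ρ U k v : V) = ρ (k : K) v := rfl

private theorem c6_inv_mem (ρ : K →* Module.End ℂ V) (U : Submodule ℂ V) (f : K)
    (hU : ∀ v ∈ U, ρ f v ∈ U) : f ∈ c6Stab ρ U := by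
  refine ⟨hU, ?_⟩
  have hp : ∀ n : ℕ, ∀ v ∈ U, ρ (f ^ n) v ∈ U := by
    intro n
    induction n with
    | zero =>
      intro v hv
      rwa [pow_zero, map_one]
    | succ n ih =>
      intro v hv
      rw [pow_succ, map_mul, Module.End.mul_apply]
      exact ih _ (hU v hv)
  have h1 : f⁻¹ = f ^ (orderOf f - 1) := by
    have h2 := orderOf_pos f
    rw [inv_eq_iff_mul_eq_one, ← pow_succ', Nat.sub_add_cancel h2, pow_orderOf_eq_one]
  rw [h1]
  exact hp _

theorem trace_on_jsp (ρ : K →* Module.End ℂ V) (A : Subgroup K) (h2 : Cl2 ρ A)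
    (j : A → ℂ) (f : K) (hf : ∀ a, a ∈ A ↔ f * a * f⁻¹ ∈ A)
    (hU : ∀ v ∈ jsp ρ A j, ρ f v ∈ jsp ρ A j) (q : ℝ) (hq : 0 ≤ q)
    (hc : (Nat.card {c : A // ∃ s : ℂ, ∀ v ∈ jsp ρ A j,
        ρ (f⁻¹ * (c : K) * f * (c : K)⁻¹) v = s • v} : ℝ) ≤ q ^ 2 * Nat.card A) :
    ‖LinearMap.trace ℂ (jsp ρ A j) ((ρ f).restrict hU)‖ ≤
      q * Module.finrank ℂ (jsp ρ A j) := by
  classical
  haveI : Fintype A := Fintype.ofFinite A
  obtain ⟨-, -, h3, h4⟩ := jsp_structure ρ A h2
  obtain ⟨B, hBinv, hBpos, hBim⟩ := exists_form ρ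
  by_cases hbot : ∀ v ∈ jsp ρ A j, v = 0
  · have hz : (ρ f).restrict hU = 0 := by
      ext v
      have h5 := hbot _ ((ρ f).restrict hU v).2
      rw [h5]
      rfl
    rw [hz, map_zero, norm_zero]
    positivity
  push Not at hbot
  obtain ⟨v0, hv0, hv0'⟩ := hbot
  set U := jsp ρ A j with hUdef
  have hfS : f ∈ c6Stab ρ U := c6_inv_mem ρ U f hU
  have hAS : ∀ a : A, (a : K) ∈ c6Stab ρ U := fun a => c6_inv_mem ρ U a (h3 j a a.2)
  set σ := c6Res ρ U with hσ
  set F : c6Stab ρ U := ⟨f, hfS⟩ with hF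
  set i : A → c6Stab ρ U := fun a => ⟨a, hAS a⟩ with hi
  have hN : (Nat.card A : ℂ) ≠ 0 := by
    rw [Nat.cast_ne_zero]
    exact Nat.card_pos.ne'
  -- the commutators
  have hm : ∀ e : A, f⁻¹ * (e : K) * f * (e : K)⁻¹ ∈ A := by
    intro e
    refine A.mul_mem ?_ (A.inv_mem e.2)
    rw [hf]
    have : f * (f⁻¹ * (e : K) * f) * f⁻¹ = e := by group
    rw [this]
    exact e.2
  set m : A → A := fun e => ⟨f⁻¹ * (e : K) * f * (e : K)⁻¹, hm e⟩ with hmdef
  -- the averaged operators
  set T : Module.End ℂ U := (Nat.card A : ℂ)⁻¹ • ∑ c : A, σ (i c * F * (i c)⁻¹) with hT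
  set T' : Module.End ℂ U := (Nat.card A : ℂ)⁻¹ • ∑ c : A, σ (i c * F⁻¹ * (i c)⁻¹) with hT'
  set κ : ℂ := (Nat.card A : ℂ)⁻¹ * ∑ e : A, j (m e) with hκ
  have htr : LinearMap.trace ℂ U T = LinearMap.trace ℂ U ((ρ f).restrict hU) := by
    have h5 : ∀ c : A, LinearMap.trace ℂ U (σ (i c * F * (i c)⁻¹)) =
        LinearMap.trace ℂ U ((ρ f).restrict hU) := by
      intro c
      rw [map_mul, LinearMap.trace_mul_comm, ← map_mul, ← mul_assoc, inv_mul_cancel, one_mul]
      rfl
    rw [hT, map_smul, map_sum, Finset.sum_congr rfl fun c _ => h5 c, Finset.sum_const,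
      Finset.card_univ, ← Nat.card_eq_fintype_card, smul_eq_mul, nsmul_eq_mul, ← mul_assoc,
      inv_mul_cancel₀ hN, one_mul]
  have hcl : ∀ (a : A) (v : U), (Nat.card A : ℂ)⁻¹ • ∑ c : A, ρ ((c : K) * a * (c : K)⁻¹) v =
      j a • (v : V) := by
    intro a v
    have h5 : (v : V) ∈ Module.End.eigenspace (clOp ρ A a) (j a) :=
      (Submodule.mem_iInf _).1 v.2 a
    rw [Module.End.mem_eigenspace_iff, clOp, finsum_eq_sum_of_fintype] at h5
    rw [← h5, LinearMap.smul_apply, LinearMap.sum_apply]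
  have hTT : T' * T = κ • (1 : Module.End ℂ U) := by
    ext v
    have h5 : ((T' * T) v : V) = (Nat.card A : ℂ)⁻¹ • ∑ c : A, (Nat.card A : ℂ)⁻¹ •
        ∑ e : A, ρ ((c : K) * (m e : K) * (c : K)⁻¹) v := by
      rw [Module.End.mul_apply, hT', LinearMap.smul_apply, LinearMap.sum_apply, Submodule.coe_smul,
        Submodule.coe_sum]
      congr 1
      refine Finset.sum_congr rfl fun c _ => ?_
      rw [c6Res_coe, hT, LinearMap.smul_apply, LinearMap.sum_apply, Submodule.coe_smul,
        Submodule.coe_sum, map_smul, map_sum]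
      congr 1
      rw [← Equiv.sum_comp (Equiv.mulLeft c)]
      refine Finset.sum_congr rfl fun e _ => ?_
      rw [c6Res_coe, ← Module.End.mul_apply, ← map_mul]
      congr 2
      simp only [hi, hF, hmdef, Equiv.coe_mulLeft, Subgroup.coe_mul, Subgroup.coe_inv]
      group
    rw [h5, ← Finset.smul_sum, Finset.sum_comm]
    have h6 : (Nat.card A : ℂ)⁻¹ • ∑ e : A, ∑ c : A, ρ ((c : K) * (m e : K) * (c : K)⁻¹) (v : V) =
        ∑ e : A, j (m e) • (v : V) := by
      rw [Finset.smul_sum]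
      exact Finset.sum_congr rfl fun e _ => hcl (m e) v
    rw [h6, ← Finset.sum_smul, smul_smul]
    rfl
  -- the form
  set B' : U →ₗ⋆[ℂ] U →ₗ[ℂ] ℂ := B.domRestrict₁₂ U U with hB'
  have hB'a : ∀ v w : U, B' v w = B (v : V) (w : V) := fun v w => rfl
  have hadj : ∀ v w, B' (T v) w = B' v (T' w) := by
    intro v w
    have hinv : ∀ (k : K) (x y : V), B (ρ k x) y = B x (ρ k⁻¹ y) := by
      intro k x y
      rw [← hBinv k x (ρ k⁻¹ y), ← Module.End.mul_apply, ← map_mul, mul_inv_cancel, map_one,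
        Module.End.one_apply]
    rw [hB'a, hB'a, hT, hT', LinearMap.smul_apply, LinearMap.smul_apply, LinearMap.sum_apply,
      LinearMap.sum_apply, Submodule.coe_smul, Submodule.coe_smul, Submodule.coe_sum,
      Submodule.coe_sum, LinearMap.map_smulₛₗ, map_smul, map_sum, map_sum, LinearMap.smul_apply,
      LinearMap.sum_apply]
    congr 1
    · simp
    · refine Finset.sum_congr rfl fun c _ => ?_
      rw [c6Res_coe, c6Res_coe, hinv]
      congr 3
      simp only [hi, hF, Subgroup.coe_mul, Subgroup.coe_inv]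
      group
  -- the size of the eigenvalues
  have hj1 : ∀ a : A, ‖j a‖ ≤ 1 := by
    intro a
    by_cases ha : j a = 0
    · rw [ha, norm_zero]
      exact zero_le_one
    · have h5 := h4 j a ha v0 hv0
      have h6 := hBinv a v0 v0
      have h60 : B (j a • v0) (j a • v0) =
          (starRingEnd ℂ) (j a) * (j a * B v0 v0) := by
        rw [map_smul, LinearMap.map_smulₛₗ, LinearMap.smul_apply, smul_eq_mul, smul_eq_mul]
        ring
      rw [h5, h60, ← mul_assoc, ← Complex.normSq_eq_conj_mul_self] at h6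
      have h7 : (B v0 v0).re = Complex.normSq (j a) * (B v0 v0).re := by
        have := congrArg Complex.re h6
        rw [Complex.re_ofReal_mul] at this
        exact this.symm
      have h8 : Complex.normSq (j a) = 1 := by
        have h9 := hBpos v0 hv0'
        have h10 : (Complex.normSq (j a) - 1) * (B v0 v0).re = 0 := by linarith
        rcases mul_eq_zero.1 h10 with h11 | h11
        · linarith
        · exact absurd h11 h9.ne'
      rw [Complex.normSq_eq_norm_sq] at h8
      nlinarith [norm_nonneg (j a)]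
  have hκn : ‖κ‖ ≤ q ^ 2 := by
    have hNp : (0 : ℝ) < Nat.card A := by
      rw [Nat.cast_pos]
      exact Nat.card_pos
    have h5 : ‖∑ e : A, j (m e)‖ ≤ q ^ 2 * Nat.card A := by
      refine le_trans (norm_sum_le _ _) (le_trans ?_ hc)
      have h6 : ∀ e : A, ‖j (m e)‖ ≤ if (∃ s : ℂ, ∀ v ∈ U,
          ρ (f⁻¹ * (e : K) * f * (e : K)⁻¹) v = s • v) then (1 : ℝ) else 0 := by
        intro e
        split_ifs with h7
        · exact hj1 _
        · have h8 : j (m e) = 0 := by
            by_contra hne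
            exact h7 ⟨j (m e), h4 j (m e) hne⟩
          rw [h8, norm_zero]
      refine le_trans (Finset.sum_le_sum fun e _ => h6 e) ?_
      rw [Finset.sum_ite, Finset.sum_const_zero, add_zero, Finset.sum_const, nsmul_eq_mul, mul_one,
        Nat.card_eq_fintype_card, Fintype.card_subtype]
    rw [hκ, norm_mul, norm_inv, Complex.norm_natCast, inv_mul_le_iff₀ hNp]
    linarith
  have hmain := trace_bound B' (fun v hv => hBpos v (fun h => hv (Subtype.ext h)))
    (fun v => hBim v) T T' hadj κ hTT q hq hκn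
  rw [htr] at hmain
  exact hmain

end H49KA
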