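import Pool.Agent.H49.KA.Defs
import Pool.Agent.H49.KA.C3
import Pool.Agent.H49.KA.C4
import Pool.Agent.H49.KA.C5
import Pool.Agent.H49.KA.C6

open Equiv
open scoped commutatorElement

namespace H49KA
universe u

section C7aux
variable {K : Type*} [Group K]
variable {V : Type*} [AddCommGroup V] [Module ℂ V]

private lemma mem_jsp (ρ : K →* Module.End ℂ V) (A : Subgroup K) (j : A → ℂ) (v : V) :
    v ∈ jsp ρ A j ↔ ∀ a : A, clOp ρ A a v = j a • v := by
  simp only [jsp, Submodule.mem_iInf, Module.End.mem_eigenspace_iff]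

private lemma norm_mem {L A : Subgroup K} (hA : NormIn L A) {l a : K} (hl : l ∈ L)
    (ha : a ∈ A) : l⁻¹ * a * l ∈ A := by
  have := hA l⁻¹ (L.inv_mem hl) a ha
  rwa [inv_inv] at this

/-- conjugation action on functions on `A` -/
private def fact {L A : Subgroup K} (hA : NormIn L A) (l : L) (j : A → ℂ) : A → ℂ :=
  fun a => j ⟨(l : K)⁻¹ * a * l, norm_mem hA l.2 a.2⟩

private lemma fact_one {L A : Subgroup K} (hA : NormIn L A) (j : A → ℂ) :
    fact hA 1 j = j := by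
  funext a
  simp [fact]

private lemma fact_mul {L A : Subgroup K} (hA : NormIn L A) (l l' : L) (j : A → ℂ) :
    fact hA (l * l') j = fact hA l (fact hA l' j) := by
  funext a
  simp only [fact]
  congr 1
  apply Subtype.ext
  simp [mul_assoc]

private lemma fact_inv {L A : Subgroup K} (hA : NormIn L A) (l : L) (j : A → ℂ) :
    fact hA l⁻¹ (fact hA l j) = j := by
  rw [← fact_mul, inv_mul_cancel, fact_one]

private lemma clOp_conj {L A : Subgroup K} (hA : NormIn L A) (ρ : K →* Module.End ℂ V)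
    [Finite A] (l : L) (x : K) :
    clOp ρ A (l * x * (l : K)⁻¹) * ρ l = ρ l * clOp ρ A x := by
  classical
  have : Fintype A := Fintype.ofFinite A
  simp only [clOp, finsum_eq_sum_of_fintype, smul_mul_assoc, mul_smul_comm, Finset.sum_mul,
    Finset.mul_sum]
  congr 1
  let e : A ≃ A :=
    { toFun := fun b => ⟨(l : K)⁻¹ * b * l, norm_mem hA l.2 b.2⟩
      invFun := fun b => ⟨l * b * (l : K)⁻¹, hA l l.2 b b.2⟩
      left_inv := fun b => by apply Subtype.ext; simp [mul_assoc]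
      right_inv := fun b => by apply Subtype.ext; simp [mul_assoc] }
  refine Fintype.sum_equiv e _ _ ?_
  intro b
  rw [← map_mul, ← map_mul]
  congr 1
  simp only [e, Equiv.coe_fn_mk]
  group

private lemma rho_jsp {L A : Subgroup K} (hA : NormIn L A) (ρ : K →* Module.End ℂ V)
    [Finite A] (l : L) (j : A → ℂ) (v : V) (hv : v ∈ jsp ρ A j) :
    ρ l v ∈ jsp ρ A (fact hA l j) := by
  rw [mem_jsp] at hv ⊢
  intro a
  have h1 := clOp_conj hA ρ l ((l : K)⁻¹ * a * l)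
  have h2 : (l : K) * ((l : K)⁻¹ * a * l) * (l : K)⁻¹ = a := by group
  rw [h2] at h1
  have h3 := congrArg (fun T : Module.End ℂ V => T v) h1
  simp only [Module.End.mul_apply] at h3
  rw [h3]
  have h4 := hv ⟨(l : K)⁻¹ * a * l, norm_mem hA l.2 a.2⟩
  rw [h4, map_smul]
  rfl

private lemma rho_inj (ρ : K →* Module.End ℂ V) (l : K) (v : V) (h : ρ l v = 0) : v = 0 := by
  have h1 : ρ l⁻¹ (ρ l v) = v := by
    rw [← Module.End.mul_apply, ← map_mul, inv_mul_cancel, map_one, Module.End.one_apply]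
  rw [← h1, h, map_zero]

private lemma jsp_ne {L A : Subgroup K} (hA : NormIn L A) (ρ : K →* Module.End ℂ V)
    [Finite A] (l : L) (j : A → ℂ) (h : jsp ρ A j ≠ ⊥) :
    jsp ρ A (fact hA l j) ≠ ⊥ := by
  obtain ⟨v, hv, hv0⟩ := Submodule.exists_mem_ne_zero_of_ne_bot h
  intro hb
  have h1 := rho_jsp hA ρ l j v hv
  rw [hb, Submodule.mem_bot] at h1
  exact hv0 (rho_inj ρ _ v h1)

/-- elements of `A` acting as scalars -/
private def scal (ρ : K →* Module.End ℂ V) (A : Subgroup K) (U : Submodule ℂ V) :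
    Subgroup K where
  carrier := {x | x ∈ A ∧ ∃ s : ℂ, ∀ v ∈ U, ρ x v = s • v}
  mul_mem' := by
    rintro x y ⟨hx, s, hs⟩ ⟨hy, t, ht⟩
    refine ⟨A.mul_mem hx hy, s * t, fun v hv => ?_⟩
    rw [map_mul, Module.End.mul_apply, ht v hv, map_smul, hs v hv, smul_smul, mul_comm]
  one_mem' := ⟨A.one_mem, 1, fun v _ => by simp⟩
  inv_mem' := by
    rintro x ⟨hx, s, hs⟩
    refine ⟨A.inv_mem hx, s⁻¹, fun v hv => ?_⟩
    have h1 : ρ x⁻¹ (ρ x v) = v := by
      rw [← Module.End.mul_apply, ← map_mul, inv_mul_cancel, map_one, Module.End.one_apply]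
    rw [hs v hv, map_smul] at h1
    by_cases h0 : s = 0
    · rw [h0, zero_smul] at h1
      rw [← h1]; simp
    · rw [← h1, smul_smul, inv_mul_cancel₀ h0, one_smul, h1]

private lemma mem_scal (ρ : K →* Module.End ℂ V) (A : Subgroup K) (U : Submodule ℂ V) (x : K) :
    x ∈ scal ρ A U ↔ x ∈ A ∧ ∃ s : ℂ, ∀ v ∈ U, ρ x v = s • v := Iff.rfl

/-- conjugating scalars -/
private lemma scal_conj {L A : Subgroup K} (hA : NormIn L A) (ρ : K →* Module.End ℂ V)
    [Finite A] (l : L) (j : A → ℂ) (x : K) (hx : x ∈ scal ρ A (jsp ρ A j)) :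
    (l : K) * x * (l : K)⁻¹ ∈ scal ρ A (jsp ρ A (fact hA l j)) := by
  obtain ⟨hxA, s, hs⟩ := hx
  refine ⟨hA l l.2 x hxA, s, fun v hv => ?_⟩
  have h1 := rho_jsp hA ρ l⁻¹ _ v hv
  rw [fact_inv] at h1
  have h2 := hs _ h1
  have h3 : ρ ((l : K) * x * (l : K)⁻¹) v = ρ l (ρ x (ρ (l⁻¹ : L) v)) := by
    rw [← Module.End.mul_apply, ← Module.End.mul_apply, ← map_mul, ← map_mul]
    simp
  rw [h3, h2, map_smul]
  congr 1
  rw [← Module.End.mul_apply, ← map_mul]
  simp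

end C7aux

variable {K : Type*} [Group K] [Finite K]
variable {V : Type*} [AddCommGroup V] [Module ℂ V] [FiniteDimensional ℂ V]

/-- commutators act as scalars -/
private lemma comm_scal (ρ : K →* Module.End ℂ V) (A : Subgroup K) (h2 : Cl2 ρ A)
    (j : A → ℂ) (a b : K) (ha : a ∈ A) (hb : b ∈ A) :
    a * b * a⁻¹ * b⁻¹ ∈ scal ρ A (jsp ρ A j) := by
  classical
  have : Fintype A := Fintype.ofFinite A
  have hk : a * b * a⁻¹ * b⁻¹ ∈ A :=
    A.mul_mem (A.mul_mem (A.mul_mem ha hb) (A.inv_mem ha)) (A.inv_mem hb)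
  refine ⟨hk, j ⟨_, hk⟩, fun v hv => ?_⟩
  rw [mem_jsp] at hv
  rw [← hv ⟨_, hk⟩]
  have h3 : clOp ρ A (a * b * a⁻¹ * b⁻¹) = ρ (a * b * a⁻¹ * b⁻¹) := by
    simp only [clOp, finsum_eq_sum_of_fintype]
    have h4 : ∀ c : A, ρ ((c : K) * (a * b * a⁻¹ * b⁻¹) * (c : K)⁻¹) =
        ρ (a * b * a⁻¹ * b⁻¹) := by
      intro c
      have h5 := h2 a ha b hb (c : K)⁻¹ (A.inv_mem c.2)
      have h6 : (c : K) * (a * b * a⁻¹ * b⁻¹) * (c : K)⁻¹ =
          (c : K) * ((a * b * a⁻¹ * b⁻¹) * (c : K)⁻¹ * (a * b * a⁻¹ * b⁻¹)⁻¹ * ((c : K)⁻¹)⁻¹) *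
            (c : K)⁻¹ * (a * b * a⁻¹ * b⁻¹) := by
        group
      rw [h6, map_mul, map_mul, map_mul, h5, mul_one, ← map_mul, mul_inv_cancel, map_one,
        one_mul]
    rw [Finset.sum_congr rfl (fun c _ => h4 c), Finset.sum_const, Finset.card_univ,
      ← Nat.cast_smul_eq_nsmul ℂ, smul_smul, Nat.card_eq_fintype_card, inv_mul_cancel₀, one_smul]
    exact Nat.cast_ne_zero.mpr Fintype.card_ne_zero
  rw [h3]

/-- independence from a regular joint eigenspace -/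
private lemma indep_of_regular (ρ : K →* Module.End ℂ V) (A L D F : Subgroup K)
    (hA : NormIn L A) (h2 : Cl2 ρ A) (hFD : F ≤ D) (hDL : D ≤ L) (j : A → ℂ)
    (hj : jsp ρ A j ≠ ⊥)
    (hreg : ∀ d (hd : d ∈ D), fact hA ⟨d, hDL hd⟩ j = j → d = 1) :
    LinearIndependent ℂ (fun f : F => ρ f) := by
  obtain ⟨-, hind, -, -⟩ := jsp_structure ρ A h2
  obtain ⟨v, hv, hv0⟩ := Submodule.exists_mem_ne_zero_of_ne_bot hj
  let φ : F → (A → ℂ) := fun f => fact hA ⟨f, hDL (hFD f.2)⟩ j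
  have hφ : Function.Injective φ := by
    intro f f' h
    have h1 : fact hA (⟨f', hDL (hFD f'.2)⟩⁻¹ * ⟨f, hDL (hFD f.2)⟩) j = j := by
      rw [fact_mul]
      have h1' : fact hA ⟨f, hDL (hFD f.2)⟩ j = fact hA ⟨f', hDL (hFD f'.2)⟩ j := h
      rw [h1', fact_inv]
    have h2 := hreg ((f' : K)⁻¹ * f) (D.mul_mem (D.inv_mem (hFD f'.2)) (hFD f.2)) h1
    rw [inv_mul_eq_one] at h2
    exact Subtype.ext h2.symm
  have hlin : LinearIndependent ℂ (fun f : F => ρ f v) := by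
    apply iSupIndep.linearIndependent (fun f : F => jsp ρ A (φ f)) (hind.comp hφ)
    · intro f
      exact rho_jsp hA ρ ⟨f, hDL (hFD f.2)⟩ j v hv
    · intro f h
      exact hv0 (rho_inj ρ _ v h)
  exact LinearIndependent.of_comp (LinearMap.applyₗ v) hlin

theorem class2 (ρ : K →* Module.End ℂ V) (F P D L A : Subgroup K)
    (hFP : F ≤ P) (hPD : P ≤ D) (hDL : D ≤ L) (hP : ⁅P, P⁆ = P)
    (roD : ∀ H : Subgroup K, ¬ F ≤ H → ∃ k ∈ L, ∀ d ∈ D, k⁻¹ * d * k ∈ H → d = 1)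
    (tD : ∀ N : Subgroup K, NormIn L N → F ≤ N → D ≤ N)
    (gr : ∀ f ∈ F, f ≠ 1 → ∃ (t : ℕ) (d : Fin t → K), (∀ i, d i ∈ D) ∧
      ((Nat.card F) ^ 2) ^ t <
        Nat.card (Subgroup.closure (Set.range fun i => d i * f * (d i)⁻¹)))
    (hA : NormIn L A) (h2 : Cl2 ρ A)
    (hne : ∃ a ∈ A, ∃ f ∈ F, ρ (a * f * a⁻¹ * f⁻¹) ≠ 1) :
    LinearIndependent ℂ (fun f : F => ρ f) := by
  classical
  have hFD : F ≤ D := hFP.trans hPD
  have hFL : F ≤ L := hFD.trans hDL
  obtain ⟨htop, hind, hAinv, hsc⟩ := jsp_structure ρ A h2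
  by_cases hcase : ∀ j : A → ℂ, jsp ρ A j ≠ ⊥ → ∀ f (hf : f ∈ F), fact hA ⟨f, hFL hf⟩ j = j
  swap
  · -- a moved joint eigenspace
    push Not at hcase
    obtain ⟨j, hj, f, hf, hfj⟩ := hcase
    let H : Subgroup K :=
      { carrier := {l | ∃ hl : l ∈ L, fact hA ⟨l, hl⟩ j = j}
        mul_mem' := by
          rintro x y ⟨hx, hx'⟩ ⟨hy, hy'⟩
          refine ⟨L.mul_mem hx hy, ?_⟩
          have := fact_mul hA ⟨x, hx⟩ ⟨y, hy⟩ j
          rw [hy', hx'] at this
          exact this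
        one_mem' := ⟨L.one_mem, fact_one hA j⟩
        inv_mem' := by
          rintro x ⟨hx, hx'⟩
          refine ⟨L.inv_mem hx, ?_⟩
          have := fact_inv hA ⟨x, hx⟩ j
          rw [hx'] at this
          exact this }
    have hFH : ¬ F ≤ H := by
      intro h
      obtain ⟨hl, h'⟩ := h hf
      exact hfj h'
    obtain ⟨k, hk, hreg⟩ := roD H hFH
    apply indep_of_regular ρ A L D F hA h2 hFD hDL (fact hA ⟨k, hk⟩ j) (jsp_ne hA ρ _ j hj)
    intro d hd hdj
    apply hreg d hd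
    refine ⟨L.mul_mem (L.mul_mem (L.inv_mem hk) (hDL hd)) hk, ?_⟩
    have e1 : (⟨k⁻¹ * d * k, L.mul_mem (L.mul_mem (L.inv_mem hk) (hDL hd)) hk⟩ : L) =
        (⟨k, hk⟩ : L)⁻¹ * (⟨d, hDL hd⟩ * ⟨k, hk⟩) := by
      apply Subtype.ext
      simp [mul_assoc]
    rw [e1, fact_mul, fact_mul, hdj, fact_inv]
  -- everything in `D` fixes all joint eigenspaces
  have hDfix : ∀ j : A → ℂ, jsp ρ A j ≠ ⊥ → ∀ d (hd : d ∈ D), fact hA ⟨d, hDL hd⟩ j = j := by
    let N : Subgroup K :=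
      { carrier := {l | ∃ hl : l ∈ L, ∀ j : A → ℂ, jsp ρ A j ≠ ⊥ → fact hA ⟨l, hl⟩ j = j}
        mul_mem' := by
          rintro x y ⟨hx, hx'⟩ ⟨hy, hy'⟩
          refine ⟨L.mul_mem hx hy, fun j hj => ?_⟩
          have := fact_mul hA ⟨x, hx⟩ ⟨y, hy⟩ j
          rw [hy' j hj, hx' j hj] at this
          exact this
        one_mem' := ⟨L.one_mem, fun j _ => fact_one hA j⟩
        inv_mem' := by
          rintro x ⟨hx, hx'⟩
          refine ⟨L.inv_mem hx, fun j hj => ?_⟩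
          have := fact_inv hA ⟨x, hx⟩ j
          rw [hx' j hj] at this
          exact this }
    have hN : NormIn L N := by
      rintro l hl x ⟨hx, hx'⟩
      refine ⟨L.mul_mem (L.mul_mem hl hx) (L.inv_mem hl), fun j hj => ?_⟩
      have e1 : (⟨l * x * l⁻¹, L.mul_mem (L.mul_mem hl hx) (L.inv_mem hl)⟩ : L) =
          ⟨l, hl⟩ * (⟨x, hx⟩ * (⟨l, hl⟩ : L)⁻¹) := by
        apply Subtype.ext
        simp [mul_assoc]
      have hj' := jsp_ne hA ρ (⟨l, hl⟩ : L)⁻¹ j hj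
      rw [e1, fact_mul, fact_mul, hx' _ hj', ← fact_mul, mul_inv_cancel, fact_one]
    have hFN : F ≤ N := fun f hf => ⟨hFL hf, fun j hj => hcase j hj f hf⟩
    intro j hj d hd
    obtain ⟨_, h⟩ := tD N hN hFN hd
    exact h j hj
  -- invariance of the joint eigenspaces under D
  have hDinv : ∀ j : A → ℂ, jsp ρ A j ≠ ⊥ → ∀ d (hd : d ∈ D), ∀ v ∈ jsp ρ A j,
      ρ d v ∈ jsp ρ A j := by
    intro j hj d hd v hv
    have := rho_jsp hA ρ ⟨d, hDL hd⟩ j v hv
    rwa [hDfix j hj d hd] at this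
  -- F acts nontrivially on some A / scalars
  have hact : ∃ j : A → ℂ, jsp ρ A j ≠ ⊥ ∧ ∃ a ∈ A, ∃ f ∈ F,
      f * a * f⁻¹ * a⁻¹ ∉ scal ρ A (jsp ρ A j) := by
    by_contra hcon
    push Not at hcon
    let N : Subgroup K :=
      { carrier := {l | ∃ hl : l ∈ L, ∀ j : A → ℂ, jsp ρ A j ≠ ⊥ → fact hA ⟨l, hl⟩ j = j ∧
          ∀ a ∈ A, l * a * l⁻¹ * a⁻¹ ∈ scal ρ A (jsp ρ A j)}
        mul_mem' := by
          rintro x y ⟨hx, hx'⟩ ⟨hy, hy'⟩
          refine ⟨L.mul_mem hx hy, fun j hj => ⟨?_, fun a ha => ?_⟩⟩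
          · have := fact_mul hA ⟨x, hx⟩ ⟨y, hy⟩ j
            rw [(hy' j hj).1, (hx' j hj).1] at this
            exact this
          · have e1 : (x * y) * a * (x * y)⁻¹ * a⁻¹ =
                (x * (y * a * y⁻¹ * a⁻¹) * x⁻¹) * (x * a * x⁻¹ * a⁻¹) := by group
            rw [e1]
            refine (scal ρ A (jsp ρ A j)).mul_mem ?_ ((hx' j hj).2 a ha)
            have := scal_conj hA ρ ⟨x, hx⟩ j _ ((hy' j hj).2 a ha)
            rwa [(hx' j hj).1] at this
        one_mem' := ⟨L.one_mem, fun j _ => ⟨fact_one hA j, fun a _ => by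
          simpa using (scal ρ A (jsp ρ A j)).one_mem⟩⟩
        inv_mem' := by
          rintro x ⟨hx, hx'⟩
          refine ⟨L.inv_mem hx, fun j hj => ?_⟩
          have hfix : fact hA ⟨x⁻¹, L.inv_mem hx⟩ j = j := by
            have := fact_inv hA ⟨x, hx⟩ j
            rw [(hx' j hj).1] at this
            exact this
          refine ⟨hfix, fun a ha => ?_⟩
          have e1 : x⁻¹ * a * x⁻¹⁻¹ * a⁻¹ = x⁻¹ * (x * a * x⁻¹ * a⁻¹)⁻¹ * x⁻¹⁻¹ := by group
          rw [e1]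
          have := scal_conj hA ρ ⟨x⁻¹, L.inv_mem hx⟩ j _
            ((scal ρ A (jsp ρ A j)).inv_mem ((hx' j hj).2 a ha))
          rwa [hfix] at this }
    have hN : NormIn L N := by
      rintro l hl x ⟨hx, hx'⟩
      refine ⟨L.mul_mem (L.mul_mem hl hx) (L.inv_mem hl), fun j hj => ?_⟩
      have hj' := jsp_ne hA ρ (⟨l, hl⟩ : L)⁻¹ j hj
      obtain ⟨h1, h1'⟩ := hx' _ hj'
      refine ⟨?_, fun a ha => ?_⟩
      · have e1 : (⟨l * x * l⁻¹, L.mul_mem (L.mul_mem hl hx) (L.inv_mem hl)⟩ : L) =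
            ⟨l, hl⟩ * (⟨x, hx⟩ * (⟨l, hl⟩ : L)⁻¹) := by
          apply Subtype.ext
          simp [mul_assoc]
        rw [e1, fact_mul, fact_mul, h1, ← fact_mul, mul_inv_cancel, fact_one]
      · have h3 := h1' (l⁻¹ * a * l) (norm_mem hA hl ha)
        have h4 := scal_conj hA ρ ⟨l, hl⟩ _ _ h3
        rw [← fact_mul, mul_inv_cancel, fact_one] at h4
        have e1 : l * x * l⁻¹ * a * (l * x * l⁻¹)⁻¹ * a⁻¹ =
            l * (x * (l⁻¹ * a * l) * x⁻¹ * (l⁻¹ * a * l)⁻¹) * l⁻¹ := by group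
        rw [e1]
        exact h4
    have hFN : F ≤ N := fun f hf => ⟨hFL hf, fun j hj =>
      ⟨hcase j hj f hf, fun a ha => hcon j hj a ha f hf⟩⟩
    have hDN := tD N hN hFN
    obtain ⟨a, ha, f, hf, hne'⟩ := hne
    apply hne'
    -- P commutes with a on every joint eigenspace
    have hcomm : ∀ j : A → ℂ, jsp ρ A j ≠ ⊥ → ∀ p ∈ P, ∀ v ∈ jsp ρ A j,
        ρ (p * a) v = ρ (a * p) v := by
      intro j hj
      obtain ⟨v0, hv0, hv0'⟩ := Submodule.exists_mem_ne_zero_of_ne_bot hj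
      have hex : ∀ p : P, ∃ s : ℂ, ∀ v ∈ jsp ρ A j, ρ ((p : K) * a) v = s • ρ (a * p) v := by
        intro p
        obtain ⟨_, h⟩ := hDN (hPD p.2)
        obtain ⟨-, s, hs⟩ := (h j hj).2 a ha
        refine ⟨s, fun v hv => ?_⟩
        have h1 : ρ (a * p) v ∈ jsp ρ A j := by
          rw [map_mul, Module.End.mul_apply]
          exact hAinv j a ha _ (hDinv j hj p (hPD p.2) v hv)
        have h2 := hs _ h1
        rw [← h2, ← Module.End.mul_apply, ← map_mul]
        congr 2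
        group
      choose s hs using hex
      have huniq : ∀ (p : P) (t : ℂ), (∀ v ∈ jsp ρ A j, ρ ((p : K) * a) v = t • ρ (a * p) v) →
          t = s p := by
        intro p t ht
        have h1 := (ht v0 hv0).symm.trans (hs p v0 hv0)
        have h2 : (t - s p) • ρ (a * p) v0 = 0 := by
          rw [sub_smul, h1, sub_self]
        rcases smul_eq_zero.mp h2 with h | h
        · exact sub_eq_zero.mp h
        · exact absurd (rho_inj ρ _ _ h) hv0'
      have hmul : ∀ p q : P, s (p * q) = s p * s q := by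
        intro p q
        symm
        apply huniq
        intro v hv
        have h1 : ρ q v ∈ jsp ρ A j := hDinv j hj q (hPD q.2) v hv
        calc ρ (((p * q : P) : K) * a) v = ρ p (ρ ((q : K) * a) v) := by
              rw [← Module.End.mul_apply, ← map_mul]; simp [mul_assoc]
          _ = s q • ρ p (ρ (a * q) v) := by rw [hs q v hv, map_smul]
          _ = s q • ρ ((p : K) * a) (ρ q v) := by
              rw [← Module.End.mul_apply, ← Module.End.mul_apply, ← map_mul, ← map_mul,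
                mul_assoc]
          _ = s q • s p • ρ (a * p) (ρ q v) := by rw [hs p _ h1]
          _ = (s p * s q) • ρ (a * ((p * q : P) : K)) v := by
              rw [smul_smul, mul_comm, ← Module.End.mul_apply, ← map_mul]
              simp [mul_assoc]
      have hone : s 1 = 1 := by
        symm
        apply huniq
        intro v _
        simp
      let Z : Subgroup K :=
        { carrier := {p | ∃ hp : p ∈ P, s ⟨p, hp⟩ = 1}
          mul_mem' := by
            rintro x y ⟨hx, hx'⟩ ⟨hy, hy'⟩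
            refine ⟨P.mul_mem hx hy, ?_⟩
            have := hmul ⟨x, hx⟩ ⟨y, hy⟩
            rw [hx', hy', mul_one] at this
            exact this
          one_mem' := ⟨P.one_mem, hone⟩
          inv_mem' := by
            rintro x ⟨hx, hx'⟩
            refine ⟨P.inv_mem hx, ?_⟩
            have := hmul (⟨x, hx⟩ : P)⁻¹ ⟨x, hx⟩
            rw [inv_mul_cancel, hone, hx', mul_one] at this
            exact this.symm }
      have hPZ : P ≤ Z := by
        rw [← hP, Subgroup.commutator_le]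
        intro p hp q hq
        have hmem : ⁅p, q⁆ ∈ P := by
          rw [← hP]
          exact Subgroup.commutator_mem_commutator hp hq
        refine ⟨hmem, ?_⟩
        have e1 : (⟨⁅p, q⁆, hmem⟩ : P) = ⟨p, hp⟩ * ⟨q, hq⟩ * (⟨p, hp⟩ : P)⁻¹ * (⟨q, hq⟩ : P)⁻¹ := by
          apply Subtype.ext
          simp [commutatorElement_def]
        have e2 : s (⟨p, hp⟩ : P) * s (⟨p, hp⟩ : P)⁻¹ = 1 := by
          rw [← hmul, mul_inv_cancel, hone]
        have e3 : s (⟨q, hq⟩ : P) * s (⟨q, hq⟩ : P)⁻¹ = 1 := by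
          rw [← hmul, mul_inv_cancel, hone]
        rw [e1, hmul, hmul, hmul]
        calc s ⟨p, hp⟩ * s ⟨q, hq⟩ * s (⟨p, hp⟩ : P)⁻¹ * s (⟨q, hq⟩ : P)⁻¹
            = (s ⟨p, hp⟩ * s (⟨p, hp⟩ : P)⁻¹) * (s ⟨q, hq⟩ * s (⟨q, hq⟩ : P)⁻¹) := by ring
          _ = 1 := by rw [e2, e3, mul_one]
      intro p hp v hv
      obtain ⟨hp', h1⟩ := hPZ hp
      have := hs ⟨p, hp'⟩ v hv
      rw [h1, one_smul] at this
      exact this
    have heq : ρ (f * a) = ρ (a * f) := by
      have hle : (⊤ : Submodule ℂ V) ≤ LinearMap.eqLocus (ρ (f * a)) (ρ (a * f)) := by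
        rw [← htop]
        apply iSup_le
        intro j v hv
        by_cases hj : jsp ρ A j = ⊥
        · rw [hj, Submodule.mem_bot] at hv
          rw [hv]
          exact Submodule.zero_mem _
        · exact hcomm j hj f (hFP hf) v hv
      ext v
      exact hle (Submodule.mem_top (x := v))
    have e1 : a * f * a⁻¹ * f⁻¹ = (a * f) * (f * a)⁻¹ := by group
    rw [e1, map_mul, ← heq, ← map_mul, mul_inv_cancel, map_one]
  obtain ⟨j, hj, a, ha, f₀, hf₀, hnot⟩ := hact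
  let H : Subgroup K :=
    { carrier := {l | ∃ hl : l ∈ L, fact hA ⟨l, hl⟩ j = j ∧
        l * a * l⁻¹ * a⁻¹ ∈ scal ρ A (jsp ρ A j)}
      mul_mem' := by
        rintro x y ⟨hx, hx1, hx2⟩ ⟨hy, hy1, hy2⟩
        refine ⟨L.mul_mem hx hy, ?_, ?_⟩
        · have := fact_mul hA ⟨x, hx⟩ ⟨y, hy⟩ j
          rw [hy1, hx1] at this
          exact this
        · have e1 : (x * y) * a * (x * y)⁻¹ * a⁻¹ =
              (x * (y * a * y⁻¹ * a⁻¹) * x⁻¹) * (x * a * x⁻¹ * a⁻¹) := by group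
          rw [e1]
          refine (scal ρ A (jsp ρ A j)).mul_mem ?_ hx2
          have := scal_conj hA ρ ⟨x, hx⟩ j _ hy2
          rwa [hx1] at this
      one_mem' := ⟨L.one_mem, fact_one hA j, by
        simpa using (scal ρ A (jsp ρ A j)).one_mem⟩
      inv_mem' := by
        rintro x ⟨hx, hx1, hx2⟩
        have hfix : fact hA ⟨x⁻¹, L.inv_mem hx⟩ j = j := by
          have := fact_inv hA ⟨x, hx⟩ j
          rw [hx1] at this
          exact this
        refine ⟨L.inv_mem hx, hfix, ?_⟩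
        have e1 : x⁻¹ * a * x⁻¹⁻¹ * a⁻¹ = x⁻¹ * (x * a * x⁻¹ * a⁻¹)⁻¹ * x⁻¹⁻¹ := by group
        rw [e1]
        have := scal_conj hA ρ ⟨x⁻¹, L.inv_mem hx⟩ j _
          ((scal ρ A (jsp ρ A j)).inv_mem hx2)
        rwa [hfix] at this }
  have hFH : ¬ F ≤ H := by
    intro h
    obtain ⟨hl, h1, h2⟩ := h hf₀
    exact hnot h2
  obtain ⟨k, hk, hreg⟩ := roD H hFH
  let j' : A → ℂ := fact hA ⟨k, hk⟩ j
  have hj' : jsp ρ A j' ≠ ⊥ := jsp_ne hA ρ _ j hj
  let S : Subgroup K := scal ρ A (jsp ρ A j')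
  let w : K := k * a * k⁻¹
  have hwA : w ∈ A := hA k hk a ha
  have hregw : ∀ d ∈ D, d * w * d⁻¹ * w⁻¹ ∈ S → d = 1 := by
    intro d hd hdw
    apply hreg d hd
    have hkdk : k⁻¹ * d * k ∈ L := L.mul_mem (L.mul_mem (L.inv_mem hk) (hDL hd)) hk
    refine ⟨hkdk, ?_, ?_⟩
    · have e1 : (⟨k⁻¹ * d * k, hkdk⟩ : L) =
          (⟨k, hk⟩ : L)⁻¹ * (⟨d, hDL hd⟩ * ⟨k, hk⟩) := by
        apply Subtype.ext
        simp [mul_assoc]
      have e2 : fact hA ⟨d, hDL hd⟩ (fact hA ⟨k, hk⟩ j) = fact hA ⟨k, hk⟩ j :=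
        hDfix j' hj' d hd
      rw [e1, fact_mul, fact_mul, e2, fact_inv]
    · have h3 := scal_conj hA ρ (⟨k, hk⟩ : L)⁻¹ j' _ hdw
      have e3 : fact hA (⟨k, hk⟩ : L)⁻¹ j' = j := fact_inv hA _ j
      rw [e3] at h3
      have e4 : k⁻¹ * d * k * a * (k⁻¹ * d * k)⁻¹ * a⁻¹ =
          (((⟨k, hk⟩ : L)⁻¹ : L) : K) * (d * w * d⁻¹ * w⁻¹) *
            (((⟨k, hk⟩ : L)⁻¹ : L) : K)⁻¹ := by
        simp only [w, Subgroup.coe_inv]
        group
      rw [e4]
      exact h3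
  have hDA : NormIn D A := fun d hd => hA d (hDL hd)
  have hDS : NormIn D S := by
    intro d hd x hx
    have := scal_conj hA ρ ⟨d, hDL hd⟩ j' x hx
    rwa [hDfix j' hj' d hd] at this
  have hSA : S ≤ A := fun x hx => hx.1
  have hab : ∀ a ∈ A, ∀ b ∈ A, a * b * a⁻¹ * b⁻¹ ∈ S :=
    fun a ha b hb => comm_scal ρ A h2 j' a b ha hb
  -- trace bound
  have hnt : Nontrivial (jsp ρ A j') := Submodule.nontrivial_iff_ne_bot.mpr hj'
  have hFinv : ∀ f : F, ∀ v ∈ jsp ρ A j', ρ f v ∈ jsp ρ A j' :=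
    fun f v hv => hDinv j' hj' f (hFD f.2) v hv
  let σ : F →* Module.End ℂ (jsp ρ A j') :=
    { toFun := fun f => (ρ f).restrict (hFinv f)
      map_one' := by
        ext v
        simp [LinearMap.restrict_apply]
      map_mul' := fun f f' => by
        ext v
        simp [LinearMap.restrict_apply] }
  have htr : ∀ f : F, f ≠ 1 →
      (Nat.card F : ℝ) * ‖LinearMap.trace ℂ (jsp ρ A j') (σ f)‖ ≤
        Module.finrank ℂ (jsp ρ A j') := by
    intro f hf1
    have hfK : (f : K) ≠ 1 := fun h => hf1 (Subtype.ext h)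
    obtain ⟨t, d, hd, hlt⟩ := gr f f.2 hfK
    have hgb := growth_bound A S D hSA hab hDA hDS w hwA hregw f (hFD f.2) t d hd
    have hpos : 0 < Nat.card {c : A // (f : K) * c * (f : K)⁻¹ * (c : K)⁻¹ ∈ S} := by
      have : Nonempty {c : A // (f : K) * c * (f : K)⁻¹ * (c : K)⁻¹ ∈ S} :=
        ⟨⟨1, by simpa using S.one_mem⟩⟩
      exact Nat.card_pos
    have hFpos : (0 : ℝ) < Nat.card F := by exact_mod_cast Nat.card_pos (α := F)
    have hlt2 : (Nat.card F) ^ 2 *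
        Nat.card {c : A // (f : K) * c * (f : K)⁻¹ * (c : K)⁻¹ ∈ S} < Nat.card A := by
      apply lt_of_pow_lt_pow_left₀ t (Nat.zero_le _)
      rw [mul_pow]
      refine lt_of_lt_of_le ?_ hgb
      exact Nat.mul_lt_mul_of_pos_right hlt (Nat.pow_pos hpos)
    have hcard : Nat.card {c : A // ∃ s : ℂ, ∀ v ∈ jsp ρ A j',
        ρ ((f : K)⁻¹ * (c : K) * f * (c : K)⁻¹) v = s • v} =
        Nat.card {c : A // (f : K) * c * (f : K)⁻¹ * (c : K)⁻¹ ∈ S} := by
      apply Nat.card_congr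
      apply Equiv.subtypeEquivRight
      intro c
      have hcA : (f : K)⁻¹ * (c : K) * f * (c : K)⁻¹ ∈ A :=
        A.mul_mem (norm_mem hA (hFL f.2) c.2) (A.inv_mem c.2)
      constructor
      · intro h
        have h1 : (f : K)⁻¹ * (c : K) * f * (c : K)⁻¹ ∈ S := ⟨hcA, h⟩
        have h2 := S.inv_mem (hDS f (hFD f.2) _ h1)
        have e1 : ((f : K) * ((f : K)⁻¹ * (c : K) * f * (c : K)⁻¹) * (f : K)⁻¹)⁻¹ =
            (f : K) * c * (f : K)⁻¹ * (c : K)⁻¹ := by group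
        rwa [e1] at h2
      · intro h
        have h2 := S.inv_mem (hDS (f : K)⁻¹ (D.inv_mem (hFD f.2)) _ h)
        have e1 : ((f : K)⁻¹ * ((f : K) * c * (f : K)⁻¹ * (c : K)⁻¹) * (f : K)⁻¹⁻¹)⁻¹ =
            (f : K)⁻¹ * (c : K) * f * (c : K)⁻¹ := by group
        rw [e1] at h2
        exact h2.2
    have hfA : ∀ x, x ∈ A ↔ (f : K) * x * (f : K)⁻¹ ∈ A := by
      intro x
      constructor
      · exact hA f (hFL f.2) x
      · intro h
        have := norm_mem hA (hFL f.2) h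
        have e1 : (f : K)⁻¹ * ((f : K) * x * (f : K)⁻¹) * f = x := by group
        rwa [e1] at this
    have h6 := trace_on_jsp ρ A h2 j' f hfA (hFinv f) (1 / (Nat.card F : ℝ)) (by positivity) (by
      rw [hcard, div_pow, one_pow, one_div, inv_mul_eq_div, le_div_iff₀ (by positivity)]
      have : ((Nat.card F) ^ 2 *
        Nat.card {c : A // (f : K) * c * (f : K)⁻¹ * (c : K)⁻¹ ∈ S} : ℝ) ≤ Nat.card A := by
        exact_mod_cast hlt2.le
      linarith)
    have h7 : (Nat.card F : ℝ) * ‖LinearMap.trace ℂ (jsp ρ A j') ((ρ f).restrict (hFinv f))‖ ≤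
        (Nat.card F : ℝ) * (1 / (Nat.card F : ℝ) * Module.finrank ℂ (jsp ρ A j')) :=
      mul_le_mul_of_nonneg_left h6 hFpos.le
    rw [← mul_assoc, mul_one_div_cancel hFpos.ne', one_mul] at h7
    exact h7
  have hlin := linIndep_of_trace σ htr
  rw [linearIndependent_iff'] at hlin ⊢
  intro s g hg i hi
  apply hlin s g ?_ i hi
  ext v
  have h1 := congrArg (fun T : Module.End ℂ V => T (v : V)) hg
  simp only [LinearMap.sum_apply, LinearMap.smul_apply, LinearMap.zero_apply] at h1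
  simp only [LinearMap.sum_apply, LinearMap.smul_apply, LinearMap.zero_apply,
    Submodule.coe_sum, Submodule.coe_smul, Submodule.coe_zero]
  rw [← h1]
  rfl

end H49KA
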