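import Pool.Agent.H49.KA.Defs
import Pool.Agent.H49.KA.B3
import Pool.Agent.H49.KA.C7

open Equiv

namespace H49KA
universe u

theorem klevel {K : Type u} [Group K] {F P D L X : Subgroup K} (h : KData K F P D L X)
    {V : Type*} [AddCommGroup V] [Module ℂ V] [FiniteDimensional ℂ V]
    (ρ : K →* Module.End ℂ V) (hρ : ∃ f ∈ F, ρ f ≠ 1) :
    LinearIndependent ℂ (fun f : F => ρ f) := by
  haveI := h.finK
  have hFL : F ≤ L := h.hFP.trans (h.hPD.trans h.hDL)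
  have hFR : ¬ F ≤ ρ.ker := by
    intro hle
    obtain ⟨f, hf, hne⟩ := hρ
    exact hne (MonoidHom.mem_ker.1 (hle hf))
  obtain ⟨A, hLA, hcl, a, ha, f, hf, haf⟩ := chief_step F L X ρ.ker hFL h.hLX h.hXn h.hX
    (MonoidHom.normal_ker ρ) hFR h.roL h.d1 h.d4
  refine class2 ρ F P D L A h.hFP h.hPD h.hDL h.hP h.roD h.tD h.gr hLA ?_ ?_
  · intro a ha b hb c hc
    exact MonoidHom.mem_ker.1 (hcl a ha b hb c hc)
  · refine ⟨a, ha, f, hf, fun h1 => haf ?_⟩
    exact MonoidHom.mem_ker.2 h1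

end H49KA
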