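import Pool.Agent.H49.KA.Defs

open Equiv

namespace H49KA
universe u

open Nat in
private lemma D1a_arith2 (j m : ℕ) (hm : 2 ≤ m) :
    2 * 3 ^ m * (m + 1)! * j ! < (j + 3 * m)! := by
  induction m, hm using Nat.le_induction with
  | base =>
    have h1 : (j + 3 * 2)! = (j + 6) * ((j + 5) * ((j + 4) * ((j + 3) * ((j + 2) *
        ((j + 1) * j !))))) := by
      simp only [Nat.factorial_succ, show j + 3 * 2 = (j + 5) + 1 from rfl]
    rw [h1]
    have h2 : 0 < j ! := Nat.factorial_pos j
    have h3 : (2 + 1)! = 6 := rfl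
    rw [h3]
    have h4 : 720 ≤ (j + 6) * ((j + 5) * ((j + 4) * ((j + 3) * ((j + 2) * (j + 1))))) := by
      calc 720 = 6 * (5 * (4 * (3 * (2 * 1)))) := rfl
        _ ≤ _ := by gcongr <;> omega
    calc 2 * 3 ^ 2 * 6 * j ! < 720 * j ! := by nlinarith
      _ ≤ ((j + 6) * ((j + 5) * ((j + 4) * ((j + 3) * ((j + 2) * (j + 1)))))) * j ! :=
          Nat.mul_le_mul_right _ h4
      _ = _ := by ring
  | succ m hm ih =>
    have h1 : (j + 3 * (m + 1))! = (j + 3 * m + 3) * ((j + 3 * m + 2) * ((j + 3 * m + 1) *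
        (j + 3 * m)!)) := by
      rw [show j + 3 * (m + 1) = (j + 3 * m + 2) + 1 by ring, Nat.factorial_succ,
        Nat.factorial_succ, Nat.factorial_succ]
    rw [h1]
    have h2 : 3 * (m + 2) ≤ (j + 3 * m + 3) * ((j + 3 * m + 2) * (j + 3 * m + 1)) := by
      calc 3 * (m + 2) ≤ (j + 3 * m + 3) * (2 * 1) := by nlinarith
        _ ≤ _ := by gcongr <;> omega
    calc 2 * 3 ^ (m + 1) * (m + 1 + 1)! * j ! =
          (3 * (m + 2)) * (2 * 3 ^ m * (m + 1)! * j !) := by
            rw [Nat.factorial_succ (m + 1)]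
            ring
      _ < (3 * (m + 2)) * (j + 3 * m)! := Nat.mul_lt_mul_of_pos_left ih (by omega)
      _ ≤ ((j + 3 * m + 3) * ((j + 3 * m + 2) * (j + 3 * m + 1))) * (j + 3 * m)! :=
          Nat.mul_le_mul_right _ h2
      _ = _ := by ring

open Nat in
private lemma D1a_arith (j m : ℕ) (hm : 1 ≤ m) (h : 7 ≤ j + 3 * (m + 1)) :
    2 * 3 ^ m * (m + 1)! * j ! < (j + 3 * m)! := by
  rcases eq_or_lt_of_le hm with h1 | h1
  · subst h1
    have h2 : (j + 3 * 1)! = (j + 3) * ((j + 2) * ((j + 1) * j !)) := by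
      simp only [Nat.factorial_succ, show j + 3 * 1 = (j + 2) + 1 from rfl]
    rw [h2]
    have h3 : 0 < j ! := Nat.factorial_pos j
    have h4 : (1 + 1)! = 2 := rfl
    rw [h4]
    have h5 : 24 ≤ (j + 3) * ((j + 2) * (j + 1)) := by
      calc 24 = 4 * (3 * 2) := rfl
        _ ≤ _ := by gcongr <;> omega
    calc 2 * 3 ^ 1 * 2 * j ! < 24 * j ! := by nlinarith
      _ ≤ ((j + 3) * ((j + 2) * (j + 1))) * j ! := Nat.mul_le_mul_right _ h5
      _ = _ := by ring
  · exact D1a_arith2 j m h1

private lemma D1a_card_le {n : ℕ} (t : alternatingGroup (Fin n)) :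
    Nat.card (Subgroup.centralizer {(t : Perm (Fin n))}) ≤
      2 * Nat.card (Subgroup.centralizer {t}) := by
  set C := Subgroup.centralizer {(t : Perm (Fin n))} with hC
  set f : C →* ℤˣ := Perm.sign.comp C.subtype with hf
  have h1 : Nat.card C = Nat.card f.ker * Nat.card f.range := by
    rw [← f.ker.card_mul_index, Subgroup.index_ker]
  have h2 : Nat.card f.range ≤ 2 := by
    have h3 : Nat.card f.range ≤ Nat.card ℤˣ := Subgroup.card_le_card_group f.range
    have h4 : Nat.card ℤˣ = 2 := by
      rw [Nat.card_eq_fintype_card]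
      rfl
    omega
  have h5 : Nat.card f.ker ≤ Nat.card (Subgroup.centralizer {t}) := by
    have hmem : ∀ x : f.ker, ((x : C) : Perm (Fin n)) ∈ alternatingGroup (Fin n) := fun x =>
      Perm.mem_alternatingGroup.2 x.2
    have hmem2 : ∀ x : f.ker, (⟨((x : C) : Perm (Fin n)), hmem x⟩ : alternatingGroup (Fin n)) ∈
        Subgroup.centralizer {t} := by
      intro x
      rw [Subgroup.mem_centralizer_singleton_iff]
      apply Subtype.ext
      exact Subgroup.mem_centralizer_singleton_iff.1 (x : C).2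
    refine Nat.card_le_card_of_injective
      (fun x : f.ker => (⟨_, hmem2 x⟩ : Subgroup.centralizer {t})) ?_
    intro x y hxy
    apply Subtype.ext
    apply Subtype.ext
    have h6 := congrArg (fun z : Subgroup.centralizer {t} =>
      ((z : alternatingGroup (Fin n)) : Perm (Fin n))) hxy
    exact h6
  rw [h1]
  calc Nat.card f.ker * Nat.card f.range ≤ Nat.card (Subgroup.centralizer {t}) * 2 :=
        Nat.mul_le_mul h5 h2
    _ = _ := Nat.mul_comm _ _

private lemma D1a_card_ge {n : ℕ} (t : alternatingGroup (Fin n)) :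
    Nat.card (Subgroup.centralizer {t}) ≤
      Nat.card (Subgroup.centralizer {(t : Perm (Fin n))}) := by
  have hmem : ∀ x : Subgroup.centralizer {t},
      ((x : alternatingGroup (Fin n)) : Perm (Fin n)) ∈
        Subgroup.centralizer {(t : Perm (Fin n))} := by
    intro x
    rw [Subgroup.mem_centralizer_singleton_iff]
    have h6 := x.2
    rw [Subgroup.mem_centralizer_singleton_iff] at h6
    exact congrArg (fun z : alternatingGroup (Fin n) => (z : Perm (Fin n))) h6
  refine Nat.card_le_card_of_injective (fun x => (⟨_, hmem x⟩ :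
    Subgroup.centralizer {(t : Perm (Fin n))})) ?_
  intro x y hxy
  apply Subtype.ext
  apply Subtype.ext
  exact congrArg (fun z : Subgroup.centralizer {(t : Perm (Fin n))} => (z : Perm (Fin n))) hxy

private lemma D1a_card_eq {G : Type*} [Group G] (φ : G ≃* G) (t : G) :
    Nat.card (Subgroup.centralizer {t}) = Nat.card (Subgroup.centralizer {φ t}) := by
  refine Nat.card_congr (φ.toEquiv.subtypeEquiv fun x => ?_)
  rw [Subgroup.mem_centralizer_singleton_iff, Subgroup.mem_centralizer_singleton_iff]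
  change _ ↔ φ x * φ t = φ t * φ x
  rw [← map_mul, ← map_mul, φ.injective.eq_iff]

theorem aut_threeCycle (n : ℕ) (hn : 7 ≤ n)
    (φ : alternatingGroup (Fin n) ≃* alternatingGroup (Fin n)) (t : alternatingGroup (Fin n))
    (ht : (t : Perm (Fin n)).IsThreeCycle) : (φ t : Perm (Fin n)).IsThreeCycle := by
  have hord : orderOf (φ t : Perm (Fin n)) = 3 := by
    rw [Subgroup.orderOf_coe, MulEquiv.orderOf_eq, ← Subgroup.orderOf_coe, ht.orderOf]
  obtain ⟨m, hm⟩ := Perm.cycleType_prime_order (σ := (φ t : Perm (Fin n)))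
    (by rw [hord]; exact Nat.prime_three)
  rw [hord] at hm
  rcases Nat.eq_zero_or_pos m with h0 | h0
  · rw [h0] at hm
    exact hm
  · exfalso
    have h1 := D1a_card_le t
    rw [D1a_card_eq φ t] at h1
    have h2 := D1a_card_ge (φ t)
    have h3 := Perm.nat_card_centralizer (t : Perm (Fin n))
    have h4 := Perm.nat_card_centralizer (φ t : Perm (Fin n))
    rw [ht.cycleType] at h3
    rw [hm] at h4
    have hsum : (Multiset.replicate (m + 1) 3).sum ≤ n := by
      rw [← hm]
      have := (φ t : Perm (Fin n)).sum_cycleType_le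
      rwa [Fintype.card_fin] at this
    rw [Multiset.sum_replicate, smul_eq_mul] at hsum
    have h5 : (Multiset.replicate (m + 1) 3).toFinset = {3} := by
      rw [Multiset.toFinset_replicate, if_neg (Nat.succ_ne_zero m)]
    rw [h5, Finset.prod_singleton, Multiset.count_replicate_self, Multiset.prod_replicate,
      Multiset.sum_replicate, smul_eq_mul, Fintype.card_fin] at h4
    have h6 : (({3} : Multiset ℕ)).toFinset = {3} := Multiset.toFinset_singleton 3
    rw [h6, Finset.prod_singleton, Multiset.count_singleton_self, Multiset.prod_singleton,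
      Multiset.sum_singleton, Fintype.card_fin, Nat.factorial_one, mul_one] at h3
    obtain ⟨j, rfl⟩ := Nat.exists_eq_add_of_le hsum
    have h7 := D1a_arith j m h0 (by omega)
    have h8 : (m + 1) * 3 + j - 3 = j + 3 * m := by omega
    have h9 : (m + 1) * 3 + j - (m + 1) * 3 = j := by omega
    rw [h8] at h3
    rw [h9] at h4
    have h10 : (j + 3 * m).factorial * 3 ≤ 2 * (j.factorial * 3 ^ (m + 1) * (m + 1).factorial) := by
      rw [← h3, ← h4]
      exact h1.trans (Nat.mul_le_mul_left 2 h2)
    have h11 : 2 * (j.factorial * 3 ^ (m + 1) * (m + 1).factorial) =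
        3 * (2 * 3 ^ m * (m + 1).factorial * j.factorial) := by
      ring
    rw [h11] at h10
    omega

end H49KA
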