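import Pool.Agent.H49.KA.Defs

open Equiv

namespace H49KA
universe u

section D1b
variable {α : Type*} [Fintype α] [DecidableEq α]

/-- The 3-cycle `a → b → c → a`. -/
private def c3 (a b c : α) : Perm α := swap a b * swap b c

private theorem c3_a {a b c : α} (hab : a ≠ b) (hac : a ≠ c) : c3 a b c a = b := by
  simp [c3, swap_apply_of_ne_of_ne hab hac]

private theorem c3_b {a b c : α} (hac : a ≠ c) (hbc : b ≠ c) : c3 a b c b = c := by
  simp [c3, swap_apply_of_ne_of_ne hac.symm hbc.symm]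

private theorem c3_c {a b c : α} : c3 a b c c = a := by
  simp [c3]

private theorem c3_o {a b c p : α} (ha : p ≠ a) (hb : p ≠ b) (hc : p ≠ c) : c3 a b c p = p := by
  simp [c3, swap_apply_of_ne_of_ne hb hc, swap_apply_of_ne_of_ne ha hb]

private theorem c3_isThreeCycle {a b c : α} (hab : a ≠ b) (hac : a ≠ c) (hbc : b ≠ c) :
    (c3 a b c).IsThreeCycle := by
  have h := Perm.isThreeCycle_swap_mul_swap_same (a := b) (b := a) (c := c) hab.symm hbc hac
  rwa [swap_comm b a] at h

/-- The points of a 3-cycle. -/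
private theorem three_pts {g : Perm α} (hg : g.IsThreeCycle) {p : α} (hp : g p ≠ p) :
    g (g p) ≠ p ∧ g (g p) ≠ g p ∧ g (g (g p)) = p ∧ ∀ q, g q ≠ q → q = p ∨ q = g p ∨ q = g (g p) := by
  have h3 : g ^ 3 = 1 := by
    rw [← hg.orderOf]
    exact pow_orderOf_eq_one g
  have h3p : g (g (g p)) = p := by
    have h := congrArg (fun f : Perm α => f p) h3
    simpa [pow_succ, Perm.mul_apply] using h
  have h2 : g (g p) ≠ g p := fun h => hp (g.injective h)
  have h1 : g (g p) ≠ p := by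
    intro h
    rw [h] at h3p
    exact hp h3p
  refine ⟨h1, h2, h3p, fun q hq => ?_⟩
  have hc : g.support.card = 3 := hg.card_support
  have hs : ({p, g p, g (g p)} : Finset α) ⊆ g.support := by
    intro r hr
    rw [Perm.mem_support]
    simp only [Finset.mem_insert, Finset.mem_singleton] at hr
    rcases hr with rfl | rfl | rfl
    · exact hp
    · exact h2
    · rw [h3p]
      exact h1.symm
  have hcard : ({p, g p, g (g p)} : Finset α).card = 3 := by
    rw [Finset.card_eq_three]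
    exact ⟨p, g p, g (g p), hp.symm, h1.symm, h2.symm, rfl⟩
  have heq := Finset.eq_of_subset_of_card_le hs (by rw [hc, hcard])
  have hq' : q ∈ g.support := Perm.mem_support.2 hq
  rw [← heq] at hq'
  simpa using hq'

private theorem three_ne_one {g : Perm α} (hg : g.IsThreeCycle) : ∃ p, g p ≠ p := by
  by_contra h
  push Not at h
  have h1 : g = 1 := Equiv.ext h
  have h2 := hg.card_support
  rw [h1, Perm.support_one] at h2
  simp at h2

/-- Two 3-cycles that agree at a moved point and at its image are equal. -/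
private theorem three_eq {g g' : Perm α} (hg : g.IsThreeCycle) (hg' : g'.IsThreeCycle) {p : α}
    (hp : g p ≠ p) (h1 : g' p = g p) (h2 : g' (g p) = g (g p)) : g' = g := by
  have hp' : g' p ≠ p := by rw [h1]; exact hp
  obtain ⟨a1, a2, a3, a4⟩ := three_pts hg hp
  obtain ⟨b1, b2, b3, b4⟩ := three_pts hg' hp'
  rw [h1, h2] at b3 b4
  refine Equiv.ext fun q => ?_
  by_cases hq : q = p
  · rw [hq, h1]
  by_cases hq1 : q = g p
  · rw [hq1, h2]
  by_cases hq2 : q = g (g p)
  · rw [hq2, a3, b3]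
  have c1 : g q = q := by
    by_contra h
    rcases a4 q h with h | h | h
    · exact hq h
    · exact hq1 h
    · exact hq2 h
  have c2 : g' q = q := by
    by_contra h
    rcases b4 q h with h | h | h
    · exact hq h
    · exact hq1 h
    · exact hq2 h
  rw [c1, c2]

/-- Two 3-cycles whose product has order two share a directed edge. -/
private theorem edge {c c' : Perm α} (hc : c.IsThreeCycle) (hc' : c'.IsThreeCycle)
    (h2 : (c * c') * (c * c') = 1) (h1 : c * c' ≠ 1) : ∃ q, c q ≠ q ∧ c' q = c q := by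
  by_contra hno
  push Not at hno
  have h2p : ∀ p, c (c' (c (c' p))) = p := by
    intro p
    have h := congrArg (fun f : Perm α => f p) h2
    simpa [Perm.mul_apply] using h
  apply h1
  -- every moved point of `c` is moved by `c'`
  have hm : ∀ p, c p ≠ p → c' p ≠ p := by
    intro p hp hp'
    obtain ⟨a1, a2, a3, a4⟩ := three_pts hc hp
    have h := h2p p
    rw [hp'] at h
    have h3 : c' (c p) = c (c p) := by
      apply c.injective
      rw [h, a3]
    exact hno (c p) a2 h3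
  refine Equiv.ext fun p => ?_
  change c (c' p) = p
  -- the moved points of `c'` are the moved points of `c`
  obtain ⟨r, hr⟩ := three_ne_one hc
  obtain ⟨a1, a2, a3, a4⟩ := three_pts hc hr
  have hr' := hm r hr
  have hr1 : c' (c r) ≠ c r := hm _ a2
  have hr2 : c' (c (c r)) ≠ c (c r) := hm _ (by rw [a3]; exact a1.symm)
  obtain ⟨b1, b2, b3, b4⟩ := three_pts hc' hr'
  have n0 := hno r hr
  have n1 := hno (c r) a2
  have n2 := hno (c (c r)) (by rw [a3]; exact a1.symm)
  rw [a3] at n2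
  -- `c' r = c (c r)`, and so on
  have e0 : c' r = c (c r) := by
    rcases b4 (c r) hr1 with h | h | h
    · exact absurd h hr
    · exact absurd h.symm n0
    · -- `c r = c' (c' r)`
      rcases b4 (c (c r)) hr2 with k | k | k
      · exact absurd k a1
      · exact k.symm
      · exact absurd (k.trans h.symm) a2
  have e1 : c' (c r) = r := by
    rcases b4 (c r) hr1 with h | h | h
    · exact absurd h hr
    · exact absurd h.symm n0
    · rw [h, b3]
  have e2 : c' (c (c r)) = c r := by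
    rcases b4 (c r) hr1 with h | h | h
    · exact absurd h hr
    · exact absurd h.symm n0
    · rw [← e0, ← h]
  by_cases hp : p = r
  · rw [hp, e0, a3]
  by_cases hp1 : p = c r
  · rw [hp1, e1]
  by_cases hp2 : p = c (c r)
  · rw [hp2, e2]
  have g1 : c p = p := by
    by_contra h
    rcases a4 p h with h | h | h
    · exact hp h
    · exact hp1 h
    · exact hp2 h
  have g2 : c' p = p := by
    by_contra h
    rcases b4 p h with h | h | h
    · exact hp h
    · rw [e0] at h
      exact hp2 h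
    · rw [e0, e2] at h
      exact hp1 h
  rw [g2, g1]

/-- A third 3-cycle that shares directed edges with two distinct 3-cycles with a common edge,
has the common edge. -/
private theorem edge3 {d₂ d₃ d : Perm α} (h2 : d₂.IsThreeCycle) (h3 : d₃.IsThreeCycle)
    (hd : d.IsThreeCycle) {x : α} (hx : d₂ x ≠ x) (hx3 : d₃ x = d₂ x) (hne : d₂ ≠ d₃)
    (e2 : ∃ q, d q ≠ q ∧ d₂ q = d q) (e3 : ∃ q, d q ≠ q ∧ d₃ q = d q) : d x = d₂ x := by
  obtain ⟨q, hq, hq2⟩ := e2
  obtain ⟨r, hr, hr2⟩ := e3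
  obtain ⟨a1, a2, a3, a4⟩ := three_pts h2 hx
  obtain ⟨b1, b2, b3, b4⟩ := three_pts h3 (p := x) (by rw [hx3]; exact hx)
  rw [hx3] at b1 b2 b3 b4
  set y := d₂ x with hy
  have hzw : d₂ y ≠ d₃ y := fun h => hne (three_eq h3 h2 (p := x) (by rw [hx3]; exact hx)
    (by rw [hx3]) (by rw [hx3, h]))
  by_contra hcon
  have dq : q = y ∨ q = d₂ y := by
    rcases a4 q (by rw [hq2]; exact hq) with h | h | h
    · exfalso
      rw [h] at hq2
      exact hcon hq2.symm
    · exact Or.inl h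
    · exact Or.inr h
  have dr : r = y ∨ r = d₃ y := by
    rcases b4 r (by rw [hr2]; exact hr) with h | h | h
    · exfalso
      rw [h, hx3] at hr2
      exact hcon hr2.symm
    · exact Or.inl h
    · exact Or.inr h
  -- four moved points
  have four : ∀ a b c e : α, d a ≠ a → d b ≠ b → d c ≠ c → d e ≠ e → a ≠ b → a ≠ c → a ≠ e →
      b ≠ c → b ≠ e → c ≠ e → False := by
    intro a b c e ha hb hc he h12 h13 h14 h23 h24 h34
    obtain ⟨-, -, -, h⟩ := three_pts hd ha
    rcases h b hb with h' | h' | h'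
    · exact h12 h'.symm
    · rcases h c hc with k | k | k
      · exact h13 k.symm
      · exact h23 (h'.trans k.symm)
      · rcases h e he with l | l | l
        · exact h14 l.symm
        · exact h24 (h'.trans l.symm)
        · exact h34 (k.trans l.symm)
    · rcases h c hc with k | k | k
      · exact h13 k.symm
      · rcases h e he with l | l | l
        · exact h14 l.symm
        · exact h34 (k.trans l.symm)
        · exact h24 (h'.trans l.symm)
      · exact h23 (h'.trans k.symm)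
  have mv : ∀ a, d a ≠ a → d (d a) ≠ d a := fun a ha h => ha (d.injective h)
  rcases dq with rfl | rfl
  · rcases dr with rfl | rfl
    · exact hzw (hq2.trans hr2.symm)
    · -- `d y = d₂ y`, `d (d₃ y) = x`
      rw [b3] at hr2
      refine four y (d₂ y) (d₃ y) x hq (by rw [hq2]; exact mv y hq) hr ?_ a2.symm b2.symm hx
        hzw a1 b1
      rw [hr2]
      exact mv _ hr
  · rw [a3] at hq2
    rcases dr with rfl | rfl
    · refine four (d₂ y) x y (d₃ y) hq ?_ hr (by rw [hr2]; exact mv y hr) a1 a2 hzw hx.symm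
        b1.symm b2.symm
      rw [hq2]
      exact mv _ hq
    · rw [b3] at hr2
      exact hzw (d.injective (hq2.symm.trans hr2))

/-- A subgroup with all the 3-cycles `(a₀ a₁ k)` contains the alternating group. -/
private theorem gen3 {a₀ a₁ : α} (h01 : a₀ ≠ a₁) (M : Subgroup (Perm α))
    (hM : ∀ k, k ≠ a₀ → k ≠ a₁ → c3 a₀ a₁ k ∈ M) : alternatingGroup α ≤ M := by
  rw [← Perm.closure_three_cycles_eq_alternating, Subgroup.closure_le]
  have inv3 : ∀ a b c : α, a ≠ b → a ≠ c → b ≠ c → (c3 a b c)⁻¹ = c3 a c b := by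
    intro a b c hab hac hbc
    rw [inv_eq_iff_mul_eq_one]
    refine Equiv.ext fun p => ?_
    change c3 a b c (c3 a c b p) = p
    by_cases h1 : p = a
    · rw [h1, c3_a hac hab, c3_c]
    by_cases h2 : p = b
    · rw [h2, c3_c, c3_a hab hac]
    by_cases h3 : p = c
    · rw [h3, c3_b hab hbc.symm, c3_b hac hbc]
    rw [c3_o h1 h3 h2, c3_o h1 h2 h3]
  have m1 : ∀ a b, a ≠ a₀ → b ≠ a₀ → a ≠ b → c3 a₀ a b ∈ M := by
    intro a b ha hb hab
    by_cases h1 : a = a₁
    · rw [h1]
      exact hM b hb (fun h => hab (h1.trans h.symm))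
    by_cases h2 : b = a₁
    · rw [h2, ← inv3 a₀ a₁ a h01 ha.symm (Ne.symm h1)]
      exact M.inv_mem (hM a ha h1)
    have h3 : c3 a₀ a b = c3 a₀ a₁ b * (c3 a₀ a₁ a)⁻¹ := by
      rw [inv3 a₀ a₁ a h01 ha.symm (Ne.symm h1)]
      refine Equiv.ext fun p => ?_
      change c3 a₀ a b p = c3 a₀ a₁ b (c3 a₀ a a₁ p)
      by_cases p1 : p = a₀
      · rw [p1, c3_a ha.symm hb.symm, c3_a ha.symm h01, c3_o ha h1 hab]
      by_cases p2 : p = a₁
      · rw [p2, c3_c, c3_a h01 hb.symm, c3_o h01.symm (Ne.symm h1) (Ne.symm h2)]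
      by_cases p3 : p = a
      · rw [p3, c3_b hb.symm hab, c3_b h01 h1, c3_b hb.symm (Ne.symm h2)]
      by_cases p4 : p = b
      · rw [p4, c3_c, c3_o hb hab.symm h2, c3_c]
      rw [c3_o p1 p3 p4, c3_o p1 p3 p2, c3_o p1 p2 p4]
    rw [h3]
    exact M.mul_mem (hM b hb h2) (M.inv_mem (hM a ha h1))
  have m2 : ∀ a b c, a ≠ b → a ≠ c → b ≠ c → a ≠ a₀ → b ≠ a₀ → c ≠ a₀ → c3 a b c ∈ M := by
    intro a b c hab hac hbc ha hb hc
    have h3 : c3 a b c = c3 a₀ a b * c3 a₀ b c := by
      refine Equiv.ext fun p => ?_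
      change c3 a b c p = c3 a₀ a b (c3 a₀ b c p)
      by_cases p1 : p = a₀
      · rw [p1, c3_o ha.symm hb.symm hc.symm, c3_a hb.symm hc.symm, c3_c]
      by_cases p2 : p = a
      · rw [p2, c3_a hab hac, c3_o ha hab hac, c3_b hb.symm hab]
      by_cases p3 : p = b
      · rw [p3, c3_b hac hbc, c3_b hc.symm hbc, c3_o hc hac.symm hbc.symm]
      by_cases p4 : p = c
      · rw [p4, c3_c, c3_c, c3_a ha.symm hb.symm]
      rw [c3_o p2 p3 p4, c3_o p1 p3 p4, c3_o p1 p2 p3]
    rw [h3]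
    exact M.mul_mem (m1 a b ha hb hab) (m1 b c hb hc hbc)
  have rot : ∀ g : Perm α, g.IsThreeCycle → ∀ p, g p ≠ p → g = c3 p (g p) (g (g p)) := by
    intro g hg p hp
    obtain ⟨a1, a2, a3, a4⟩ := three_pts hg hp
    refine three_eq (c3_isThreeCycle hp.symm a1.symm a2.symm) hg (p := p) ?_ ?_ ?_
    · rw [c3_a hp.symm a1.symm]
      exact hp
    · rw [c3_a hp.symm a1.symm]
    · rw [c3_a hp.symm a1.symm, c3_b a1.symm a2.symm]
  intro g hg
  have hg' : g.IsThreeCycle := hg
  by_cases h0 : g a₀ = a₀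
  · obtain ⟨p, hp⟩ := three_ne_one hg'
    obtain ⟨a1, a2, a3, a4⟩ := three_pts hg' hp
    change g ∈ M
    rw [rot g hg' p hp]
    refine m2 _ _ _ hp.symm a1.symm a2.symm ?_ ?_ ?_
    · intro h
      rw [h] at hp
      exact hp h0
    · intro h
      rw [h] at a2
      exact a2 h0
    · intro h
      rw [h] at a3
      rw [h, ← a3, h0] at a1
      exact a1 rfl
  · obtain ⟨a1, a2, a3, a4⟩ := three_pts hg' h0
    change g ∈ M
    rw [rot g hg' a₀ h0]
    exact m1 _ _ h0 a1 a2.symm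

end D1b

theorem aut_of_threeCycle (n : ℕ) (hn : 5 ≤ n)
    (φ : alternatingGroup (Fin n) ≃* alternatingGroup (Fin n))
    (h : ∀ t : alternatingGroup (Fin n), (t : Perm (Fin n)).IsThreeCycle →
      (φ t : Perm (Fin n)).IsThreeCycle) :
    ∃ σ : Perm (Fin n), ∀ t : alternatingGroup (Fin n),
        (φ t : Perm (Fin n)) = σ * t * σ⁻¹ := by
  let a₀ : Fin n := ⟨0, by omega⟩
  let a₁ : Fin n := ⟨1, by omega⟩
  have h01 : a₀ ≠ a₁ := by simp [a₀, a₁]
  let u₂ : Fin n := ⟨2, by omega⟩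
  let u₃ : Fin n := ⟨3, by omega⟩
  have u20 : u₂ ≠ a₀ := by simp [a₀, u₂]
  have u21 : u₂ ≠ a₁ := by simp [a₁, u₂]
  have u30 : u₃ ≠ a₀ := by simp [a₀, u₃]
  have u31 : u₃ ≠ a₁ := by simp [a₁, u₃]
  have u23 : u₂ ≠ u₃ := by simp [u₂, u₃]
  -- the 3-cycles `(a₀ a₁ k)` as elements of the alternating group
  have hc : ∀ k, k ≠ a₀ → k ≠ a₁ → (c3 a₀ a₁ k).IsThreeCycle := fun k h0 h1 =>
    c3_isThreeCycle h01 h0.symm h1.symm
  have hcA : ∀ k, ∃ t : alternatingGroup (Fin n), (k ≠ a₀ → k ≠ a₁ →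
      (t : Perm (Fin n)) = c3 a₀ a₁ k) := by
    intro k
    by_cases h0 : k = a₀
    · exact ⟨1, fun h => absurd h0 h⟩
    by_cases h1 : k = a₁
    · exact ⟨1, fun _ h => absurd h1 h⟩
    · exact ⟨⟨c3 a₀ a₁ k, (hc k h0 h1).mem_alternatingGroup⟩, fun _ _ => rfl⟩
  choose t ht using hcA
  have hd : ∀ k, k ≠ a₀ → k ≠ a₁ → (φ (t k) : Perm (Fin n)).IsThreeCycle := by
    intro k h0 h1
    apply h
    rw [ht k h0 h1]
    exact hc k h0 h1
  -- the edges
  have hedge : ∀ k l, k ≠ a₀ → k ≠ a₁ → l ≠ a₀ → l ≠ a₁ → k ≠ l →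
      ∃ q, (φ (t k) : Perm (Fin n)) q ≠ q ∧
        (φ (t l) : Perm (Fin n)) q = (φ (t k) : Perm (Fin n)) q := by
    intro k l k0 k1 l0 l1 hkl
    have e1 : (t k * t l) * (t k * t l) = 1 := by
      apply Subtype.ext
      change (t k : Perm (Fin n)) * (t l : Perm (Fin n)) *
        ((t k : Perm (Fin n)) * (t l : Perm (Fin n))) = 1
      rw [ht k k0 k1, ht l l0 l1]
      refine Equiv.ext fun p => ?_
      change c3 a₀ a₁ k (c3 a₀ a₁ l (c3 a₀ a₁ k (c3 a₀ a₁ l p))) = p
      by_cases p1 : p = a₀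
      · rw [p1, c3_a h01 l0.symm, c3_b k0.symm k1.symm, c3_o k0 k1 hkl, c3_c]
      by_cases p2 : p = a₁
      · rw [p2, c3_b l0.symm l1.symm, c3_o l0 l1 hkl.symm, c3_c, c3_a h01 k0.symm]
      by_cases p3 : p = k
      · rw [p3, c3_o k0 k1 hkl, c3_c, c3_a h01 l0.symm, c3_b k0.symm k1.symm]
      by_cases p4 : p = l
      · rw [p4, c3_c, c3_a h01 k0.symm, c3_b l0.symm l1.symm, c3_o l0 l1 hkl.symm]
      rw [c3_o p1 p2 p4, c3_o p1 p2 p3, c3_o p1 p2 p4, c3_o p1 p2 p3]
    have e2 : t k * t l ≠ 1 := by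
      intro h1
      have h2 : (t k : Perm (Fin n)) * (t l : Perm (Fin n)) = 1 := congrArg Subtype.val h1
      rw [ht k k0 k1, ht l l0 l1] at h2
      have h3 := congrArg (fun f : Perm (Fin n) => f a₀) h2
      change c3 a₀ a₁ k (c3 a₀ a₁ l a₀) = a₀ at h3
      rw [c3_a h01 l0.symm, c3_b k0.symm k1.symm] at h3
      exact k0 h3
    refine edge (hd k k0 k1) (hd l l0 l1) ?_ ?_
    · have h1 : φ ((t k * t l) * (t k * t l)) = 1 := by rw [e1, map_one]
      rw [map_mul, map_mul] at h1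
      exact congrArg Subtype.val h1
    · intro h1
      apply e2
      apply φ.injective
      rw [map_mul, map_one]
      exact Subtype.ext h1
  have htinj : ∀ k l, k ≠ a₀ → k ≠ a₁ → l ≠ a₀ → l ≠ a₁ →
      (φ (t k) : Perm (Fin n)) = (φ (t l) : Perm (Fin n)) → k = l := by
    intro k l k0 k1 l0 l1 hkl
    have h1 : t k = t l := φ.injective (Subtype.ext hkl)
    have h2 : (t k : Perm (Fin n)) a₁ = (t l : Perm (Fin n)) a₁ := by rw [h1]
    rw [ht k k0 k1, ht l l0 l1, c3_b k0.symm k1.symm, c3_b l0.symm l1.symm] at h2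
    exact h2
  obtain ⟨x, hx, hx3⟩ := hedge u₂ u₃ u20 u21 u30 u31 u23
  set y := (φ (t u₂) : Perm (Fin n)) x with hy
  have hall : ∀ k, k ≠ a₀ → k ≠ a₁ → (φ (t k) : Perm (Fin n)) x = y := by
    intro k k0 k1
    by_cases e2 : k = u₂
    · rw [e2]
    by_cases e3 : k = u₃
    · rw [e3]
      exact hx3
    have hne : (φ (t u₂) : Perm (Fin n)) ≠ (φ (t u₃) : Perm (Fin n)) := fun h1 =>
      u23 (htinj _ _ u20 u21 u30 u31 h1)
    exact edge3 (hd u₂ u20 u21) (hd u₃ u30 u31) (hd k k0 k1) hx hx3 hne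
      (hedge k u₂ k0 k1 u20 u21 e2) (hedge k u₃ k0 k1 u30 u31 e3)
  -- the permutation
  let f : Fin n → Fin n := fun k =>
    if k = a₀ then x else if k = a₁ then y else (φ (t k) : Perm (Fin n)) y
  have f0 : f a₀ = x := by simp [f]
  have f1 : f a₁ = y := by simp [f, h01.symm]
  have fk : ∀ k, k ≠ a₀ → k ≠ a₁ → f k = (φ (t k) : Perm (Fin n)) y := by
    intro k k0 k1
    simp [f, k0, k1]
  have pts : ∀ k, k ≠ a₀ → k ≠ a₁ → f k ≠ x ∧ f k ≠ y ∧ (φ (t k) : Perm (Fin n)) (f k) = x ∧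
      ∀ q, (φ (t k) : Perm (Fin n)) q ≠ q → q = x ∨ q = y ∨ q = f k := by
    intro k k0 k1
    have h1 := three_pts (hd k k0 k1) (p := x) (by rw [hall k k0 k1]; exact hx)
    rw [hall k k0 k1] at h1
    rw [fk k k0 k1]
    exact h1
  have finj : Function.Injective f := by
    intro k l hkl
    by_cases k0 : k = a₀
    · by_cases l0 : l = a₀
      · rw [k0, l0]
      by_cases l1 : l = a₁
      · rw [k0, l1, f0, f1] at hkl
        exact absurd hkl.symm hx
      · rw [k0, f0] at hkl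
        exact absurd hkl.symm (pts l l0 l1).1
    by_cases k1 : k = a₁
    · by_cases l0 : l = a₀
      · rw [k1, l0, f0, f1] at hkl
        exact absurd hkl hx
      by_cases l1 : l = a₁
      · rw [k1, l1]
      · rw [k1, f1] at hkl
        exact absurd hkl.symm (pts l l0 l1).2.1
    by_cases l0 : l = a₀
    · rw [l0, f0] at hkl
      exact absurd hkl (pts k k0 k1).1
    by_cases l1 : l = a₁
    · rw [l1, f1] at hkl
      exact absurd hkl (pts k k0 k1).2.1
    apply htinj k l k0 k1 l0 l1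
    refine three_eq (hd l l0 l1) (hd k k0 k1) (p := x) ?_ ?_ ?_
    · rw [hall l l0 l1]
      exact hx
    · rw [hall l l0 l1, hall k k0 k1]
    · rw [hall l l0 l1, ← fk k k0 k1, ← fk l l0 l1, hkl]
  let σ : Perm (Fin n) := Equiv.ofBijective f (Finite.injective_iff_bijective.1 finj)
  have hσ : ∀ k, σ k = f k := fun k => rfl
  refine ⟨σ, ?_⟩
  -- the conjugation
  have hconj : ∀ k, k ≠ a₀ → k ≠ a₁ → (φ (t k) : Perm (Fin n)) = σ * c3 a₀ a₁ k * σ⁻¹ := by
    intro k k0 k1
    rw [eq_mul_inv_iff_mul_eq]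
    refine Equiv.ext fun p => ?_
    change (φ (t k) : Perm (Fin n)) (f p) = f (c3 a₀ a₁ k p)
    obtain ⟨q1, q2, q3, q4⟩ := pts k k0 k1
    by_cases p0 : p = a₀
    · rw [p0, f0, c3_a h01 k0.symm, f1, hall k k0 k1]
    by_cases p1 : p = a₁
    · rw [p1, f1, c3_b k0.symm k1.symm, fk k k0 k1]
    by_cases pk : p = k
    · rw [pk, q3, c3_c, f0]
    rw [c3_o p0 p1 pk]
    by_contra hcon
    rcases q4 _ hcon with h1 | h1 | h1
    · rw [← f0] at h1
      exact p0 (finj h1)
    · rw [← f1] at h1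
      exact p1 (finj h1)
    · exact pk (finj h1)
  -- the subgroup where the two maps agree
  let M : Subgroup (Perm (Fin n)) :=
    (MonoidHom.eqLocus ((alternatingGroup (Fin n)).subtype.comp φ.toMonoidHom)
      ((MulAut.conj σ).toMonoidHom.comp (alternatingGroup (Fin n)).subtype)).map
      (alternatingGroup (Fin n)).subtype
  have hM : alternatingGroup (Fin n) ≤ M := by
    refine gen3 h01 M fun k k0 k1 => ?_
    refine ⟨t k, ?_, ht k k0 k1⟩
    change (φ (t k) : Perm (Fin n)) = σ * (t k : Perm (Fin n)) * σ⁻¹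
    rw [ht k k0 k1]
    exact hconj k k0 k1
  intro s
  obtain ⟨s', hs', hs''⟩ := hM s.2
  have h1 : s' = s := Subtype.ext hs''
  rw [h1] at hs'
  exact hs'

end H49KA
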