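import Pool.Agent.H49.KA.Defs
import Pool.Agent.H49.KA.D1a
import Pool.Agent.H49.KA.D1b

open Equiv

namespace H49KA
universe u

theorem aut_alt : ∃ N : ℕ, 5 ≤ N ∧ ∀ n ≥ N,
    ∀ φ : alternatingGroup (Fin n) ≃* alternatingGroup (Fin n),
      ∃ σ : Perm (Fin n), ∀ t : alternatingGroup (Fin n),
        (φ t : Perm (Fin n)) = σ * t * σ⁻¹ :=
  ⟨7, by norm_num, fun n hn φ => aut_of_threeCycle n (by omega) φ
    (fun t ht => aut_threeCycle n hn φ t ht)⟩

end H49KA
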