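import Pool.Agent.H49.KA.Defs

open Equiv

namespace H49KA
universe u

variable {G : Type u} [Group G]

private theorem D2_cent {n : ℕ} (hn : 5 ≤ n) (σ : Perm (Fin n))
    (h : ∀ t ∈ alternatingGroup (Fin n), σ * t = t * σ) : σ = 1 := by
  classical
  by_contra hne
  obtain ⟨i, hi⟩ : ∃ i, σ i ≠ i := by
    by_contra hall
    push Not at hall
    exact hne (Equiv.ext hall)
  have hcard : 1 < ((Finset.univ : Finset (Fin n)) \ {i, σ i}).card := by
    have h1 := Finset.le_card_sdiff {i, σ i} (Finset.univ : Finset (Fin n))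
    have h2 : ({i, σ i} : Finset (Fin n)).card ≤ 2 := Finset.card_le_two
    rw [Finset.card_univ, Fintype.card_fin] at h1
    omega
  obtain ⟨a, ha, b, hb, hab⟩ := Finset.one_lt_card.1 hcard
  rw [Finset.mem_sdiff, Finset.mem_insert, Finset.mem_singleton, not_or] at ha hb
  obtain ⟨-, ha1, ha2⟩ := ha
  obtain ⟨-, hb1, hb2⟩ := hb
  have hc : swap (σ i) a * swap a b ∈ alternatingGroup (Fin n) := by
    rw [Perm.mem_alternatingGroup, map_mul, Perm.sign_swap (Ne.symm ha2), Perm.sign_swap hab]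
    rfl
  have h1 := congrArg (fun f : Perm (Fin n) => f i) (h _ hc)
  simp only [Perm.mul_apply] at h1
  rw [swap_apply_of_ne_of_ne (Ne.symm ha1) (Ne.symm hb1),
    swap_apply_of_ne_of_ne (Ne.symm hi) (Ne.symm ha1),
    swap_apply_of_ne_of_ne (Ne.symm ha2) (Ne.symm hb2), swap_apply_left] at h1
  exact ha2 h1.symm

theorem alt_action (X T C : Subgroup G) (h : AlmostSimpleSec X T C) (n : ℕ) (hn : 5 ≤ n)
    (haut : ∀ φ : alternatingGroup (Fin n) ≃* alternatingGroup (Fin n),
      ∃ σ : Perm (Fin n), ∀ t : alternatingGroup (Fin n), (φ t : Perm (Fin n)) = σ * t * σ⁻¹)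
    (p : T →* Perm (Fin n)) (hp : ∀ t : T, p t = 1 ↔ (t : G) ∈ C)
    (hr : p.range = alternatingGroup (Fin n)) :
    ∃ θ : X →* Perm (Fin n), (∀ x : X, θ x = 1 ↔ (x : G) ∈ C) ∧
      ∀ (x : X) (t t' : T), (t' : G) = x * t * (x : G)⁻¹ → p t' = θ x * p t * (θ x)⁻¹ := by
  obtain ⟨-, hXC, hXT, ⟨hCT, -, -, -⟩, hcent⟩ := h
  have hmemA : ∀ t : T, p t ∈ alternatingGroup (Fin n) := by
    intro t
    rw [← hr]
    exact ⟨t, rfl⟩
  have hsurj : ∀ a ∈ alternatingGroup (Fin n), ∃ t : T, p t = a := by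
    intro a ha
    rw [← hr] at ha
    exact ha
  have hker : ∀ t t' : T, p t = p t' ↔ (t : G) * (t' : G)⁻¹ ∈ C := by
    intro t t'
    rw [← mul_inv_eq_one, ← map_inv, ← map_mul, hp]
    rfl
  -- the conjugation
  let cj : X → T → T := fun x t => ⟨x * t * (x : G)⁻¹, hXT x x.2 t t.2⟩
  have hcjc : ∀ x t, ((cj x t : T) : G) = x * t * (x : G)⁻¹ := fun _ _ => rfl
  have hcj : ∀ x t t', p t = p t' → p (cj x t) = p (cj x t') := by
    intro x t t' h
    rw [hker] at h ⊢
    have h1 : ((cj x t : T) : G) * ((cj x t' : T) : G)⁻¹ =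
        x * ((t : G) * (t' : G)⁻¹) * (x : G)⁻¹ := by
      rw [hcjc, hcjc]
      group
    rw [h1]
    exact hXC x x.2 _ h
  have hcjmul : ∀ x t t', cj x (t * t') = cj x t * cj x t' := by
    intro x t t'
    apply Subtype.ext
    rw [Subgroup.coe_mul, hcjc, hcjc, hcjc, Subgroup.coe_mul]
    group
  have hcjcj : ∀ x y t, cj x (cj y t) = cj (x * y) t := by
    intro x y t
    apply Subtype.ext
    rw [hcjc, hcjc, hcjc, Subgroup.coe_mul]
    group
  have hcj1 : ∀ t, cj 1 t = t := by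
    intro t
    apply Subtype.ext
    rw [hcjc, Subgroup.coe_one]
    group
  have key : ∀ x : X, ∃ σ : Perm (Fin n), ∀ t : T, p (cj x t) = σ * p t * σ⁻¹ := by
    intro x
    choose s hs using fun a : alternatingGroup (Fin n) => hsurj a a.2
    let φ : X → alternatingGroup (Fin n) → alternatingGroup (Fin n) :=
      fun x a => ⟨p (cj x (s a)), hmemA _⟩
    have hφ : ∀ x t, φ x ⟨p t, hmemA t⟩ = ⟨p (cj x t), hmemA _⟩ := by
      intro x t
      apply Subtype.ext
      exact hcj x _ _ (hs _)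
    have hinv : ∀ x y, x * y = 1 → ∀ a, φ x (φ y a) = a := by
      intro x y hxy a
      have h1 : φ x (φ y a) = ⟨p (cj x (cj y (s a))), hmemA _⟩ := hφ x (cj y (s a))
      rw [h1]
      apply Subtype.ext
      change p (cj x (cj y (s a))) = a
      rw [hcjcj, hxy, hcj1, hs]
    let e : alternatingGroup (Fin n) ≃* alternatingGroup (Fin n) :=
      { toFun := φ x
        invFun := φ x⁻¹
        left_inv := hinv _ _ (inv_mul_cancel x)
        right_inv := hinv _ _ (mul_inv_cancel x)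
        map_mul' := by
          intro a b
          apply Subtype.ext
          change p (cj x (s (a * b))) = p (cj x (s a)) * p (cj x (s b))
          rw [← map_mul, ← hcjmul]
          refine hcj x _ _ ?_
          rw [hs, map_mul, hs, hs]
          rfl }
    obtain ⟨σ, hσ⟩ := haut e
    refine ⟨σ, fun t => ?_⟩
    have h1 := hσ ⟨p t, hmemA t⟩
    have h2 : e ⟨p t, hmemA t⟩ = ⟨p (cj x t), hmemA _⟩ := hφ x t
    rw [h2] at h1
    exact h1
  have huniq : ∀ σ τ : Perm (Fin n), (∀ t : T, σ * p t * σ⁻¹ = τ * p t * τ⁻¹) → σ = τ := by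
    intro σ τ h
    have h1 : τ⁻¹ * σ = 1 := by
      refine D2_cent hn _ fun a ha => ?_
      obtain ⟨t, rfl⟩ := hsurj a ha
      have h2 := h t
      calc τ⁻¹ * σ * p t = τ⁻¹ * (σ * p t * σ⁻¹) * σ := by group
        _ = p t * (τ⁻¹ * σ) := by
          rw [h2]
          group
    calc σ = τ * (τ⁻¹ * σ) := by group
      _ = τ := by rw [h1, mul_one]
  choose θ hθ using key
  have hmul : ∀ x y, θ (x * y) = θ x * θ y := by
    intro x y
    refine huniq _ _ fun t => ?_
    rw [← hθ, ← hcjcj, hθ, hθ]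
    group
  refine ⟨MonoidHom.mk' θ hmul, ?_, ?_⟩
  · intro x
    change θ x = 1 ↔ _
    constructor
    · intro h1
      refine hcent x x.2 fun t ht => ?_
      have h2 := hθ x ⟨t, ht⟩
      rw [h1, one_mul, inv_one, mul_one, hker] at h2
      exact h2
    · intro hx
      refine huniq _ _ fun t => ?_
      rw [← hθ, one_mul, inv_one, mul_one]
      have h3 : p ⟨x, hCT hx⟩ = 1 := (hp _).2 hx
      have h4 : cj x t = ⟨x, hCT hx⟩ * t * (⟨x, hCT hx⟩ : T)⁻¹ := Subtype.ext rfl
      rw [h4, map_mul, map_mul, map_inv, h3, one_mul, inv_one, mul_one]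
  · intro x t t' htt
    have h1 : t' = cj x t := Subtype.ext htt
    rw [h1]
    exact hθ x t

end H49KA
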