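import Pool.Agent.H49.KA.Defs

open Equiv

namespace H49KA
universe u

variable {G : Type u} [Group G]

/-- three elements in different right cosets -/
private theorem D3_cosets (L L₃ : Subgroup G) (hLL : L ≤ L₃) [Finite L₃]
    (h3 : 3 * Nat.card L ≤ Nat.card L₃) :
    ∃ l : Fin 3 → G, (∀ i, l i ∈ L₃) ∧ ∀ i j, i ≠ j → l i * (l j)⁻¹ ∉ L := by
  classical
  have hfin3 : (L₃ : Set G).Finite := Set.toFinite _
  have hfin : (L : Set G).Finite := hfin3.subset hLL
  haveI : Finite L := hfin.to_subtype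
  have hpos : 0 < Nat.card L := Nat.card_pos
  have hc : (L : Set G).ncard = Nat.card L := rfl
  have hc3 : (L₃ : Set G).ncard = Nat.card L₃ := rfl
  obtain ⟨a, ha3, haL⟩ : ∃ a ∈ L₃, a ∉ L := by
    by_contra hcon
    push Not at hcon
    have h1 : (L₃ : Set G).ncard ≤ (L : Set G).ncard := Set.ncard_le_ncard hcon hfin
    omega
  have hfin2 : ((fun x => x * a) '' (L : Set G)).Finite := hfin.image _
  obtain ⟨b, hb3, hbA⟩ : ∃ b ∈ L₃, b ∉ (L : Set G) ∪ (fun x => x * a) '' (L : Set G) := by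
    by_contra hcon
    push Not at hcon
    have h1 : (L₃ : Set G).ncard ≤ ((L : Set G) ∪ (fun x => x * a) '' (L : Set G)).ncard :=
      Set.ncard_le_ncard hcon (hfin.union hfin2)
    have h2 := Set.ncard_union_le (L : Set G) ((fun x => x * a) '' (L : Set G))
    have h4 := Set.ncard_image_le (f := fun x => x * a) hfin
    omega
  have hb1 : b ∉ L := fun h => hbA (Or.inl h)
  have hb2 : b * a⁻¹ ∉ L := by
    intro h
    apply hbA
    right
    exact ⟨b * a⁻¹, h, by simp⟩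
  have haL' : a⁻¹ ∉ L := fun h => haL (by simpa using L.inv_mem h)
  have hb1' : b⁻¹ ∉ L := fun h => hb1 (by simpa using L.inv_mem h)
  have hb2' : a * b⁻¹ ∉ L := by
    intro h
    apply hb2
    have := L.inv_mem h
    simpa using this
  refine ⟨![1, a, b], ?_, ?_⟩
  · intro i
    fin_cases i
    · exact L₃.one_mem
    · exact ha3
    · exact hb3
  · intro i j hij
    fin_cases i <;> fin_cases j <;> first | exact absurd rfl hij | simpa using ‹_›

private theorem D3_comm {α : Type*} [Group α] (S : Set α)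
    (h : ∀ a ∈ S, ∀ b ∈ S, a * b = b * a) :
    ∀ a ∈ Subgroup.closure S, ∀ b ∈ Subgroup.closure S, a * b = b * a := by
  have h1 : Subgroup.closure S ≤ Subgroup.centralizer S := by
    rw [Subgroup.closure_le]
    intro a ha
    rw [SetLike.mem_coe, Subgroup.mem_centralizer_iff]
    intro b hb
    exact h b hb a ha
  have h2 : Subgroup.closure S ≤ Subgroup.centralizer (Subgroup.closure S : Set α) := by
    rw [Subgroup.closure_le]
    intro a ha
    rw [SetLike.mem_coe, Subgroup.mem_centralizer_iff]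
    intro b hb
    have h3 := h1 hb
    rw [Subgroup.mem_centralizer_iff] at h3
    exact (h3 a ha).symm
  intro a ha b hb
  have h3 := h2 hb
  rw [Subgroup.mem_centralizer_iff] at h3
  exact h3 a ha

/-- the 3-cycle -/
private def D3_cyc {n : ℕ} (x : Fin 3 → Fin n) : Perm (Fin n) := swap (x 0) (x 1) * swap (x 1) (x 2)

private theorem D3_cyc_fix {n : ℕ} (x : Fin 3 → Fin n) (z : Fin n) (h : ∀ i, z ≠ x i) :
    D3_cyc x z = z := by
  unfold D3_cyc
  rw [Perm.mul_apply, swap_apply_of_ne_of_ne (h 1) (h 2), swap_apply_of_ne_of_ne (h 0) (h 1)]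

private theorem D3_cyc_conj {n : ℕ} (x : Fin 3 → Fin n) (g : Perm (Fin n)) :
    g * D3_cyc x * g⁻¹ = D3_cyc fun i => g (x i) := by
  unfold D3_cyc
  rw [swap_apply_apply g (x 0) (x 1), swap_apply_apply g (x 1) (x 2)]
  group

private theorem D3_cyc_even {n : ℕ} (x : Fin 3 → Fin n) (h : Function.Injective x) :
    D3_cyc x ∈ alternatingGroup (Fin n) := by
  rw [Perm.mem_alternatingGroup]
  unfold D3_cyc
  rw [Perm.sign_mul, Perm.sign_swap, Perm.sign_swap]
  · rfl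
  · intro he
    have := h he
    exact absurd this (by decide)
  · intro he
    have := h he
    exact absurd this (by decide)

private theorem D3_cyc_move {n : ℕ} (x : Fin 3 → Fin n) (h : Function.Injective x) :
    D3_cyc x (x 2) ≠ x 2 := by
  unfold D3_cyc
  rw [Perm.mul_apply, swap_apply_right, swap_apply_right]
  intro he
  have := h he
  exact absurd this (by decide)

theorem alt_E (X T C F L L₃ : Subgroup G) (h : AlmostSimpleSec X T C) (hFL : F ≤ L)
    (hLL : L ≤ L₃) (hLX : L₃ ≤ X) [Finite L₃] (h3 : 3 * Nat.card L ≤ Nat.card L₃)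
    (ro : ∀ H : Subgroup G, ¬ L₃ ≤ H → ∃ k ∈ X, ∀ l ∈ L₃, k⁻¹ * l * k ∈ H → l = 1)
    (hFC : ¬ F ≤ C) (n : ℕ)
    (p : T →* Perm (Fin n)) (hp : ∀ t : T, p t = 1 ↔ (t : G) ∈ C)
    (hr : p.range = alternatingGroup (Fin n))
    (θ : X →* Perm (Fin n)) (hθ : ∀ x : X, θ x = 1 ↔ (x : G) ∈ C)
    (hθp : ∀ (x : X) (t t' : T), (t' : G) = x * t * (x : G)⁻¹ →
      p t' = θ x * p t * (θ x)⁻¹) :
    ∃ E : Subgroup G, C ≤ E ∧ E ≤ T ∧ NormIn L E ∧
      (∀ a ∈ E, ∀ b ∈ E, a * b * a⁻¹ * b⁻¹ ∈ C) ∧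
      ∃ a ∈ E, ∃ f ∈ F, a * f * a⁻¹ * f⁻¹ ∉ C := by
  classical
  obtain ⟨hTX, hXC, hXT, ⟨hCT, _, _, _⟩, _⟩ := h
  -- a moved point
  obtain ⟨f, hfF, hfC⟩ := SetLike.not_le_iff_exists.1 hFC
  have hf3 : f ∈ L₃ := hLL (hFL hfF)
  have hfX : f ∈ X := hLX hf3
  have hf1 : f ≠ 1 := by
    rintro rfl
    exact hfC C.one_mem
  have hθf : θ ⟨f, hfX⟩ ≠ 1 := fun he => hfC ((hθ _).1 he)
  obtain ⟨x0, hx0⟩ : ∃ x0, θ ⟨f, hfX⟩ x0 ≠ x0 := by
    by_contra hcon
    push Not at hcon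
    exact hθf (Equiv.ext hcon)
  -- the stabiliser
  let H : Subgroup G :=
    { carrier := {g | ∃ hg : g ∈ X, θ ⟨g, hg⟩ x0 = x0}
      mul_mem' := by
        rintro a b ⟨ha, ha'⟩ ⟨hb, hb'⟩
        refine ⟨X.mul_mem ha hb, ?_⟩
        have e : (⟨a * b, X.mul_mem ha hb⟩ : X) = ⟨a, ha⟩ * ⟨b, hb⟩ := rfl
        rw [e, map_mul, Perm.mul_apply, hb', ha']
      one_mem' := by
        refine ⟨X.one_mem, ?_⟩
        have e : (⟨1, X.one_mem⟩ : X) = 1 := rfl
        rw [e, map_one, Perm.one_apply]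
      inv_mem' := by
        rintro a ⟨ha, ha'⟩
        refine ⟨X.inv_mem ha, ?_⟩
        have e : (⟨a⁻¹, X.inv_mem ha⟩ : X) = (⟨a, ha⟩ : X)⁻¹ := rfl
        rw [e, map_inv, Perm.inv_eq_iff_eq]
        exact ha'.symm }
  have hH : ¬ L₃ ≤ H := by
    intro hle
    obtain ⟨_, h1⟩ := hle hf3
    exact hx0 h1
  obtain ⟨k, hkX, hk⟩ := ro H hH
  -- the action as a function on the group
  let act : G → Fin n → Fin n := fun g z => if hg : g ∈ X then θ ⟨g, hg⟩ z else z
  have act_eq : ∀ g (hg : g ∈ X) z, act g z = θ ⟨g, hg⟩ z := fun g hg z => by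
    simp only [act, dif_pos hg]
  have act_mul : ∀ g ∈ X, ∀ g' ∈ X, ∀ z, act (g * g') z = act g (act g' z) := by
    intro g hg g' hg' z
    rw [act_eq _ (X.mul_mem hg hg'), act_eq _ hg, act_eq _ hg']
    have e : (⟨g * g', X.mul_mem hg hg'⟩ : X) = ⟨g, hg⟩ * ⟨g', hg'⟩ := rfl
    rw [e, map_mul, Perm.mul_apply]
  have act_one : ∀ z, act 1 z = z := by
    intro z
    rw [act_eq _ X.one_mem]
    have e : (⟨1, X.one_mem⟩ : X) = 1 := rfl
    rw [e, map_one, Perm.one_apply]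
  have hreg : ∀ l ∈ L₃, act l (act k x0) = act k x0 → l = 1 := by
    intro l hl he
    apply hk l hl
    have hlX := hLX hl
    refine ⟨X.mul_mem (X.mul_mem (X.inv_mem hkX) hlX) hkX, ?_⟩
    rw [← act_eq, act_mul _ (X.mul_mem (X.inv_mem hkX) hlX) _ hkX, act_mul _ (X.inv_mem hkX) _ hlX,
      he, ← act_mul _ (X.inv_mem hkX) _ hkX, inv_mul_cancel, act_one]
  obtain ⟨l, hl3, hlL⟩ := D3_cosets L L₃ hLL h3
  let pt : G → Fin 3 → Fin n := fun y i => act (y * l i) (act k x0)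
  have hptinj : ∀ y ∈ L, ∀ y' ∈ L, ∀ i j, pt y i = pt y' j → y = y' ∧ i = j := by
    intro y hy y' hy' i j he
    have m1 : y * l i ∈ L₃ := L₃.mul_mem (hLL hy) (hl3 i)
    have m2 : y' * l j ∈ L₃ := L₃.mul_mem (hLL hy') (hl3 j)
    have h1 : (y' * l j)⁻¹ * (y * l i) = 1 := by
      apply hreg _ (L₃.mul_mem (L₃.inv_mem m2) m1)
      rw [act_mul _ (hLX (L₃.inv_mem m2)) _ (hLX m1)]
      have he' : act (y * l i) (act k x0) = act (y' * l j) (act k x0) := he
      rw [he', ← act_mul _ (hLX (L₃.inv_mem m2)) _ (hLX m2), inv_mul_cancel, act_one]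
    have h2 : y * l i = y' * l j := (inv_mul_eq_one.1 h1).symm
    have h5 : i = j := by
      by_contra hij
      apply hlL i j hij
      have h6 : l i * (l j)⁻¹ = y⁻¹ * y' := by
        rw [mul_inv_eq_iff_eq_mul, mul_assoc, ← h2, inv_mul_cancel_left]
      rw [h6]
      exact L.mul_mem (L.inv_mem hy) hy'
    subst h5
    exact ⟨mul_right_cancel h2, rfl⟩
  have hptinj' : ∀ y ∈ L, Function.Injective (pt y) :=
    fun y hy i j he => (hptinj y hy y hy i j he).2
  have hconj : ∀ (x : G) (hx : x ∈ L) (y : G), y ∈ L →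
      θ ⟨x, hLX (hLL hx)⟩ * D3_cyc (pt y) * (θ ⟨x, hLX (hLL hx)⟩)⁻¹ = D3_cyc (pt (x * y)) := by
    intro x hx y hy
    rw [D3_cyc_conj]
    congr 1
    funext i
    rw [← act_eq]
    change act x (act (y * l i) (act k x0)) = act (x * y * l i) (act k x0)
    rw [← act_mul _ (hLX (hLL hx)) _ (hLX (L₃.mul_mem (hLL hy) (hl3 i))), mul_assoc]
  let S : Set (Perm (Fin n)) := {c | ∃ y ∈ L, c = D3_cyc (pt y)}
  have hScomm : ∀ a ∈ S, ∀ b ∈ S, a * b = b * a := by
    rintro _ ⟨y, hy, rfl⟩ _ ⟨y', hy', rfl⟩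
    by_cases hyy : y = y'
    · rw [hyy]
    · have hd : Perm.Disjoint (D3_cyc (pt y)) (D3_cyc (pt y')) := by
        intro z
        by_cases hz : ∃ i, z = pt y i
        · right
          obtain ⟨i, rfl⟩ := hz
          apply D3_cyc_fix
          intro j he
          exact hyy (hptinj y hy y' hy' i j he).1
        · left
          push Not at hz
          exact D3_cyc_fix _ _ hz
      exact hd.commute
  let A : Subgroup (Perm (Fin n)) := Subgroup.closure S
  have hAcomm := D3_comm S hScomm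
  let E : Subgroup G := (A.comap p).map T.subtype
  have hE : ∀ t : T, (t : G) ∈ E ↔ p t ∈ A := by
    intro t
    constructor
    · rintro ⟨s, hs, hst⟩
      have : s = t := Subtype.ext hst
      rw [← this]
      exact hs
    · intro ht
      exact ⟨t, ht, rfl⟩
  have hET : E ≤ T := by
    rintro _ ⟨s, _, rfl⟩
    exact s.2
  refine ⟨E, ?_, hET, ?_, ?_, ?_⟩
  · intro x hx
    have h1 : x ∈ T := hCT hx
    apply (hE ⟨x, h1⟩).2
    rw [(hp ⟨x, h1⟩).2 hx]
    exact A.one_mem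
  · intro x hx t ht
    have htT := hET ht
    have hxX : x ∈ X := hLX (hLL hx)
    have h1 : x * t * x⁻¹ ∈ T := hXT x hxX t htT
    apply (hE ⟨_, h1⟩).2
    rw [hθp ⟨x, hxX⟩ ⟨t, htT⟩ ⟨_, h1⟩ rfl]
    have h2 : p ⟨t, htT⟩ ∈ A := (hE ⟨t, htT⟩).1 ht
    have h4 : A ≤ A.comap (MulAut.conj (θ ⟨x, hxX⟩)).toMonoidHom := by
      rw [Subgroup.closure_le]
      rintro _ ⟨y, hy, rfl⟩
      rw [SetLike.mem_coe, Subgroup.mem_comap]
      change θ ⟨x, hxX⟩ * D3_cyc (pt y) * (θ ⟨x, hxX⟩)⁻¹ ∈ A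
      rw [hconj x hx y hy]
      exact Subgroup.subset_closure ⟨x * y, L.mul_mem hx hy, rfl⟩
    exact h4 h2
  · intro a ha b hb
    have haT := hET ha
    have hbT := hET hb
    have h1 := (hE ⟨a, haT⟩).1 ha
    have h2 := (hE ⟨b, hbT⟩).1 hb
    have h4 := hAcomm _ h1 _ h2
    have h5 : p (⟨a, haT⟩ * ⟨b, hbT⟩ * (⟨a, haT⟩)⁻¹ * (⟨b, hbT⟩)⁻¹) = 1 := by
      rw [map_mul, map_mul, map_mul, map_inv, map_inv, h4]
      group
    exact (hp _).1 h5
  · have hc1 : D3_cyc (pt 1) ∈ p.range := by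
      rw [hr]
      exact D3_cyc_even _ (hptinj' 1 L.one_mem)
    obtain ⟨a, ha⟩ := hc1
    refine ⟨a, ?_, f, hfF, ?_⟩
    · apply (hE a).2
      rw [ha]
      exact Subgroup.subset_closure ⟨1, L.one_mem, rfl⟩
    · intro hcon
      have hfL : f ∈ L := hFL hfF
      have h1 : f * a * f⁻¹ ∈ T := hXT f hfX a a.2
      have h2 : p ⟨f * a * f⁻¹, h1⟩ = D3_cyc (pt f) := by
        rw [hθp ⟨f, hfX⟩ a ⟨_, h1⟩ rfl, ha]
        have := hconj f hfL 1 L.one_mem
        rw [mul_one] at this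
        exact this
      have h4 : (((a * (⟨f * a * f⁻¹, h1⟩ : T)⁻¹ : T) : G)) ∈ C := by
        have e : ((a * (⟨f * a * f⁻¹, h1⟩ : T)⁻¹ : T) : G) = a * f * (a : G)⁻¹ * f⁻¹ := by
          simp only [Subgroup.coe_mul, Subgroup.coe_inv]
          group
        rw [e]
        exact hcon
      have h5 := (hp _).2 h4
      rw [map_mul, map_inv, h2, ha, mul_inv_eq_one] at h5
      have h6 := D3_cyc_move (pt 1) (hptinj' 1 L.one_mem)
      apply h6
      rw [h5]
      apply D3_cyc_fix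
      intro j he
      exact hf1 (hptinj 1 L.one_mem f hfL 2 j he).1.symm

end H49KA
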