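import Pool.Agent.H49.KA.Defs
import Pool.Agent.H49.KA.A3

open Equiv

namespace H49KA
universe u

variable {G : Type u} [Group G]

theorem altQuot_of_altTops (hG : LocFin G) [IsSimpleGroup G] [Infinite G]
    (𝓛 : Set (Subgroup G)) (h𝓛 : LocalSystem 𝓛) (hA : AltTops 𝓛) : AltQuot G := by
  intro S
  obtain ⟨L, hL⟩ : ∃ L : Subgroup G, L = Subgroup.closure (S : Set G) := ⟨_, rfl⟩
  have hLfin : Finite L := by
    rw [hL]
    exact hG S
  obtain ⟨L₀, hL₀fin, -, hL₀⟩ := exists_top hG L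
  obtain ⟨K, hK, hSK⟩ := h𝓛.2 (Set.toFinite (L₀ : Set G)).toFinset
  have hL₀K : L₀ ≤ K := by
    intro x hx
    apply hSK
    rw [Set.Finite.coe_toFinset]
    exact hx
  have hKfin : Finite K := h𝓛.1 K hK
  obtain ⟨X, C, hXK, hKX, hLX, hperf, hsec, hLC⟩ := hL₀ K hKfin hL₀K
  obtain ⟨n, p, hp, hpr⟩ := hA K hK X hXK hKX hperf X C hsec
  refine ⟨X, n, p, ?_, ?_, hpr, ?_⟩
  · exact Set.Finite.subset (Set.toFinite (K : Set G)) hXK
  · intro s hs
    apply hLX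
    rw [hL]
    exact Subgroup.subset_closure hs
  · intro x hx hpx
    have h1 : (x : G) ∈ C := (hp x).1 hpx
    have h2 : (x : G) ∈ L ⊓ C := ⟨by rw [hL]; exact hx, h1⟩
    rw [hLC, Subgroup.mem_bot] at h2
    exact Subtype.ext h2

end H49KA
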