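import Pool.Agent.H49.KA.Base

/-!
Further definitions used in the proof.
-/

namespace H49KA

universe u

variable {G : Type u} [Group G]

/-- Condition (E) -/
def HypE (𝓛 : Set (Subgroup G)) : Prop :=
  ∀ F L : Subgroup G, Finite L → F ≠ ⊥ → F ≤ L →
    ∃ M : Subgroup G, Finite M ∧ L ≤ M ∧
      ∀ K ∈ 𝓛, ∀ X ≤ K, NormIn K X → ⁅X, X⁆ = X → M ≤ X → ∀ T C : Subgroup G,
        AlmostSimpleSec X T C → ¬ F ≤ C →
        ∃ E : Subgroup G, C ≤ E ∧ E ≤ T ∧ NormIn L E ∧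
          (∀ a ∈ E, ∀ b ∈ E, a * b * a⁻¹ * b⁻¹ ∈ C) ∧
      ∃ a ∈ E, ∃ f ∈ F, a * f * a⁻¹ * f⁻¹ ∉ C

/-- the finite data used at the level of one finite subgroup `K` -/
structure KData (K : Type u) [Group K] (F P D L X : Subgroup K) : Prop where
  finK : Finite K
  hFP : F ≤ P
  hPD : P ≤ D
  hDL : D ≤ L
  hLX : L ≤ X
  hXn : X.Normal
  hX : ⁅X, X⁆ = X
  hP : ⁅P, P⁆ = P
  roD : ∀ H : Subgroup K, ¬ F ≤ H → ∃ k ∈ L, ∀ d ∈ D, k⁻¹ * d * k ∈ H → d = 1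
  tD : ∀ N : Subgroup K, NormIn L N → F ≤ N → D ≤ N
  gr : ∀ f ∈ F, f ≠ 1 → ∃ (t : ℕ) (d : Fin t → K), (∀ i, d i ∈ D) ∧
    ((Nat.card F) ^ 2) ^ t <
      Nat.card (Subgroup.closure (Set.range fun i => d i * f * (d i)⁻¹))
  roL : ∀ H : Subgroup K, ¬ F ≤ H → ∃ k : K, ∀ l ∈ L, k⁻¹ * l * k ∈ H → l = 1
  d1 : ∀ N : Subgroup K, N.Normal → F ≤ N → X ≤ N
  d4 : ∀ T C : Subgroup K, AlmostSimpleSec X T C → ¬ F ≤ C →
    ∃ E : Subgroup K, C ≤ E ∧ E ≤ T ∧ NormIn L E ∧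
      (∀ a ∈ E, ∀ b ∈ E, a * b * a⁻¹ * b⁻¹ ∈ C) ∧
      ∃ a ∈ E, ∃ f ∈ F, a * f * a⁻¹ * f⁻¹ ∉ C

/-- `N / N₀` is the chief factor of `K` used in the proof; `X` is a perfect normal subgroup
and `R` a normal subgroup -/
structure Chief {K : Type u} [Group K] (X R N N₀ : Subgroup K) : Prop where
  nN : N.Normal
  nN₀ : N₀.Normal
  le : N₀ ≤ N
  ne : N₀ ≠ N
  NX : N ≤ X
  comm : ⁅N, X⁆ = N
  cent : ∀ n ∈ N₀, ∀ x ∈ X, n * x * n⁻¹ * x⁻¹ ∈ R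
  RN : R ⊓ N ≤ N₀
  min : ∀ M : Subgroup K, M.Normal → M ≤ N → M = N ∨ M ≤ N₀

/-- the simple factors of a nonabelian chief factor -/
def Fac {K : Type u} [Group K] (N N₀ T : Subgroup K) : Prop :=
  N₀ ≤ T ∧ T ≤ N ∧ T ≠ N₀ ∧ NormIn N T ∧
    ∀ S : Subgroup K, N₀ ≤ S → S ≤ T → NormIn N S → S = N₀ ∨ S = T

section rep
variable {K : Type*} [Group K] {V : Type*} [AddCommGroup V] [Module ℂ V]

/-- averaged conjugates -/
noncomputable def clOp (ρ : K →* Module.End ℂ V) (A : Subgroup K) (x : K) : Module.End ℂ V :=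
  (Nat.card A : ℂ)⁻¹ • ∑ᶠ b : A, ρ ((b : K) * x * (b : K)⁻¹)

/-- joint eigenspaces of the averaged conjugates -/
noncomputable def jsp (ρ : K →* Module.End ℂ V) (A : Subgroup K) (j : A → ℂ) : Submodule ℂ V :=
  ⨅ a : A, Module.End.eigenspace (clOp ρ A a) (j a)

/-- class at most two modulo the kernel -/
def Cl2 (ρ : K →* Module.End ℂ V) (A : Subgroup K) : Prop :=
  ∀ a ∈ A, ∀ b ∈ A, ∀ c ∈ A,
    ρ ((a * b * a⁻¹ * b⁻¹) * c * (a * b * a⁻¹ * b⁻¹)⁻¹ * c⁻¹) = 1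

end rep

/-- in every nontrivial complex representation the operators of the group are linearly
independent -/
def RepInd (G : Type u) [Group G] : Prop :=
  ∀ (M : Type u) [AddCommGroup M] [Module ℂ M] (ρ : G →* Module.End ℂ M),
    (∃ g, ρ g ≠ 1) → LinearIndependent ℂ (fun g : G => ρ g)

end H49KA
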