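import Pool.Agent.H49.KA.Defs

open Equiv

namespace H49KA
universe u

/-- the Young symmetriser of the square -/
private noncomputable def R1_Y (k : ℕ) (σ : Perm (Fin (k + 1) × Fin (k + 1))) : ℂ :=
  open Classical in
  ∑ c : Perm (Fin (k + 1) × Fin (k + 1)),
    if (∀ x, (c x).2 = x.2) ∧ (∀ x, ((σ * c⁻¹) x).1 = x.1) then ((Perm.sign c : ℤ) : ℂ) else 0

private theorem R1_swap {k : ℕ} (σ : Perm (Fin (k + 1) × Fin (k + 1)))
    (a b : Fin (k + 1) × Fin (k + 1)) (hab : a ≠ b) (h : a.2 = b.2) :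
    R1_Y k (σ * swap a b) = - R1_Y k σ := by
  classical
  unfold R1_Y
  rw [← Equiv.sum_comp (Equiv.mulRight (swap a b)), ← Finset.sum_neg_distrib]
  apply Finset.sum_congr rfl
  intro c _
  rw [Equiv.coe_mulRight]
  have h1 : σ * swap a b * (c * swap a b)⁻¹ = σ * c⁻¹ := by
    rw [mul_inv_rev, swap_inv, mul_assoc, ← mul_assoc (swap a b), swap_mul_self, one_mul]
  have h2 : (∀ x, ((c * swap a b) x).2 = x.2) ↔ (∀ x, (c x).2 = x.2) := by
    have h3 : ∀ x, (swap a b x).2 = x.2 := by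
      intro x
      rcases eq_or_ne x a with rfl | h4
      · rw [swap_apply_left, h]
      · rcases eq_or_ne x b with rfl | h5
        · rw [swap_apply_right, h]
        · rw [swap_apply_of_ne_of_ne h4 h5]
    constructor
    · intro h6 x
      have h7 := h6 (swap a b x)
      rw [Perm.mul_apply, swap_apply_self] at h7
      rw [h7, h3]
    · intro h6 x
      rw [Perm.mul_apply, h6, h3]
  have h8 : ∀ x, ((σ * swap a b * (c * swap a b)⁻¹) x).1 = ((σ * c⁻¹) x).1 := by
    intro x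
    rw [h1]
  by_cases h9 : (∀ x, (c x).2 = x.2) ∧ (∀ x, ((σ * c⁻¹) x).1 = x.1)
  · rw [if_pos h9, if_pos ⟨h2.2 h9.1, fun x => (h8 x).trans (h9.2 x)⟩]
    change ((Perm.sign (c * swap a b) : ℤ) : ℂ) = _
    rw [Perm.sign_mul, Perm.sign_swap hab]
    push_cast
    ring
  · rw [if_neg h9, if_neg, neg_zero]
    rintro ⟨h10, h11⟩
    exact h9 ⟨h2.1 h10, fun x => (h8 x).symm.trans (h11 x)⟩

private theorem R1_one (k : ℕ) : R1_Y k 1 = 1 := by
  classical
  unfold R1_Y
  rw [Finset.sum_eq_single 1]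
  · rw [if_pos]
    · simp
    · simp
  · intro c _ hc
    rw [if_neg]
    rintro ⟨h1, h2⟩
    apply hc
    ext1 x
    rw [one_mul] at h2
    have h3 := h2 (c x)
    rw [show c⁻¹ (c x) = x from Equiv.symm_apply_apply c x] at h3
    exact Prod.ext h3.symm (h1 x)
  · intro h
    exact absurd (Finset.mem_univ _) h

private theorem R1_plus (k : ℕ) (Δ : Finset (Fin (k + 1) × Fin (k + 1))) (hΔ : k + 2 ≤ Δ.card)
    (τ : Perm (Fin (k + 1) × Fin (k + 1))) [∀ δ : Perm (Fin (k + 1) × Fin (k + 1)),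
      Decidable (∀ x, x ∉ Δ → δ x = x)] :
    ∑ δ : Perm (Fin (k + 1) × Fin (k + 1)),
      (if (∀ x, x ∉ Δ → δ x = x) then R1_Y k (τ * δ) else 0) = 0 := by
  obtain ⟨a, ha, b, hb, hab, h⟩ : ∃ a ∈ Δ, ∃ b ∈ Δ, a ≠ b ∧ a.2 = b.2 := by
    have := Finset.exists_ne_map_eq_of_card_lt_of_maps_to (s := Δ)
      (t := (Finset.univ : Finset (Fin (k + 1)))) (f := fun x => x.2)
      (by rw [Finset.card_univ, Fintype.card_fin]; omega) (fun _ _ => Finset.mem_coe.2 (Finset.mem_univ _))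
    exact this
  have h1 : ∑ δ : Perm (Fin (k + 1) × Fin (k + 1)),
      (if (∀ x, x ∉ Δ → δ x = x) then R1_Y k (τ * δ) else 0) =
      - ∑ δ : Perm (Fin (k + 1) × Fin (k + 1)),
      (if (∀ x, x ∉ Δ → δ x = x) then R1_Y k (τ * δ) else 0) := by
    conv_lhs => rw [← Equiv.sum_comp (Equiv.mulRight (swap a b))]
    rw [← Finset.sum_neg_distrib]
    apply Finset.sum_congr rfl
    intro δ _
    rw [Equiv.coe_mulRight]
    have h2 : (∀ x, x ∉ Δ → (δ * swap a b) x = x) ↔ (∀ x, x ∉ Δ → δ x = x) := by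
      apply forall_congr'
      intro x
      apply imp_congr_right
      intro hx
      rw [Perm.mul_apply, swap_apply_of_ne_of_ne]
      · rintro rfl
        exact hx ha
      · rintro rfl
        exact hx hb
    by_cases h3 : (∀ x, x ∉ Δ → δ x = x)
    · rw [if_pos h3, if_pos (h2.2 h3), ← mul_assoc, R1_swap _ a b hab h]
    · rw [if_neg h3, if_neg (fun h4 => h3 (h2.1 h4)), neg_zero]
  have h2 := self_eq_neg.1 h1
  exact h2

private theorem R1_minus (k : ℕ) (Δ : Finset (Fin (k + 1) × Fin (k + 1))) (hΔ : k + 2 ≤ Δ.card)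
    (τ : Perm (Fin (k + 1) × Fin (k + 1))) [∀ δ : Perm (Fin (k + 1) × Fin (k + 1)),
      Decidable (∀ x, x ∉ Δ → δ x = x)] :
    ∑ δ : Perm (Fin (k + 1) × Fin (k + 1)),
      (if (∀ x, x ∉ Δ → δ x = x) then ((Perm.sign δ : ℤ) : ℂ) * R1_Y k (τ * δ) else 0) = 0 := by
  classical
  have h0 : ∀ δ : Perm (Fin (k + 1) × Fin (k + 1)),
      (if (∀ x, x ∉ Δ → δ x = x) then ((Perm.sign δ : ℤ) : ℂ) * R1_Y k (τ * δ) else 0) =
      ∑ c : Perm (Fin (k + 1) × Fin (k + 1)),
      (if (∀ x, (c x).2 = x.2) then ((Perm.sign c : ℤ) : ℂ) *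
        (if (∀ x, x ∉ Δ → δ x = x) ∧ (∀ x, ((τ * δ * c⁻¹) x).1 = x.1) then
          ((Perm.sign δ : ℤ) : ℂ) else 0) else 0) := by
    intro δ
    unfold R1_Y
    by_cases h3 : (∀ x, x ∉ Δ → δ x = x)
    · rw [if_pos h3, Finset.mul_sum]
      apply Finset.sum_congr rfl
      intro c _
      by_cases h4 : (∀ x, (c x).2 = x.2)
      · by_cases h5 : (∀ x, ((τ * δ * c⁻¹) x).1 = x.1)
        · rw [if_pos ⟨h4, h5⟩, if_pos h4, if_pos ⟨h3, h5⟩, mul_comm]
        · rw [if_neg (fun h => h5 h.2), if_pos h4, if_neg (fun h => h5 h.2), mul_zero, mul_zero]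
      · rw [if_neg (fun h => h4 h.1), if_neg h4, mul_zero]
    · rw [if_neg h3]
      symm
      apply Finset.sum_eq_zero
      intro c _
      have h6 : ¬ ((∀ x, x ∉ Δ → δ x = x) ∧ (∀ x, ((τ * δ * c⁻¹) x).1 = x.1)) :=
        fun h => h3 h.1
      rw [if_neg h6, mul_zero, ite_self]
  rw [Finset.sum_congr rfl (fun δ _ => h0 δ), Finset.sum_comm]
  apply Finset.sum_eq_zero
  intro c _
  by_cases h4 : (∀ x, (c x).2 = x.2)
  swap
  · apply Finset.sum_eq_zero
    intro δ _
    rw [if_neg h4]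
  simp only [if_pos h4]
  rw [← Finset.mul_sum]
  apply mul_eq_zero_of_right
  obtain ⟨a, ha, b, hb, hab, h⟩ : ∃ a ∈ Δ, ∃ b ∈ Δ, a ≠ b ∧ (c a).1 = (c b).1 := by
    have := Finset.exists_ne_map_eq_of_card_lt_of_maps_to (s := Δ)
      (t := (Finset.univ : Finset (Fin (k + 1)))) (f := fun x => (c x).1)
      (by rw [Finset.card_univ, Fintype.card_fin]; omega) (fun _ _ => Finset.mem_coe.2 (Finset.mem_univ _))
    exact this
  have hci : ∀ x, c (c⁻¹ x) = x := fun x => Equiv.apply_symm_apply c x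
  have hs : ∀ x, ((c * swap a b * c⁻¹) x).1 = x.1 := by
    intro x
    rw [Perm.mul_apply, Perm.mul_apply]
    rcases eq_or_ne (c⁻¹ x) a with h5 | h5
    · rw [h5, swap_apply_left, ← h, ← h5, hci]
    · rcases eq_or_ne (c⁻¹ x) b with h6 | h6
      · rw [h6, swap_apply_right, h, ← h6, hci]
      · rw [swap_apply_of_ne_of_ne h5 h6, hci]
  have h1 : ∑ δ : Perm (Fin (k + 1) × Fin (k + 1)),
      (if (∀ x, x ∉ Δ → δ x = x) ∧ (∀ x, ((τ * δ * c⁻¹) x).1 = x.1) then
          ((Perm.sign δ : ℤ) : ℂ) else 0) =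
      - ∑ δ : Perm (Fin (k + 1) × Fin (k + 1)),
      (if (∀ x, x ∉ Δ → δ x = x) ∧ (∀ x, ((τ * δ * c⁻¹) x).1 = x.1) then
          ((Perm.sign δ : ℤ) : ℂ) else 0) := by
    conv_lhs => rw [← Equiv.sum_comp (Equiv.mulRight (swap a b))]
    rw [← Finset.sum_neg_distrib]
    apply Finset.sum_congr rfl
    intro δ _
    rw [Equiv.coe_mulRight]
    have h2 : (∀ x, x ∉ Δ → (δ * swap a b) x = x) ↔ (∀ x, x ∉ Δ → δ x = x) := by
      apply forall_congr'
      intro x
      apply imp_congr_right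
      intro hx
      rw [Perm.mul_apply, swap_apply_of_ne_of_ne]
      · rintro rfl
        exact hx ha
      · rintro rfl
        exact hx hb
    have h5 : τ * (δ * swap a b) * c⁻¹ = τ * δ * c⁻¹ * (c * swap a b * c⁻¹) := by
      group
    have h3 : (∀ x, ((τ * (δ * swap a b) * c⁻¹) x).1 = x.1) ↔
        (∀ x, ((τ * δ * c⁻¹) x).1 = x.1) := by
      rw [h5]
      constructor
      · intro h6 x
        have h7 := h6 ((c * swap a b * c⁻¹) x)
        have h8 : (c * swap a b * c⁻¹) ((c * swap a b * c⁻¹) x) = x := by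
          rw [← Perm.mul_apply]
          have h9 : (c * swap a b * c⁻¹) * (c * swap a b * c⁻¹) = 1 := by
            have h10 : (c * swap a b * c⁻¹) * (c * swap a b * c⁻¹) =
              c * (swap a b * swap a b) * c⁻¹ := by group
            rw [h10, swap_mul_self, mul_one, mul_inv_cancel]
          rw [h9, Perm.one_apply]
        rw [Perm.mul_apply (τ * δ * c⁻¹), h8, hs] at h7
        exact h7
      · intro h6 x
        rw [Perm.mul_apply (τ * δ * c⁻¹), h6, hs]
    by_cases h6 : (∀ x, x ∉ Δ → δ x = x) ∧ (∀ x, ((τ * δ * c⁻¹) x).1 = x.1)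
    · rw [if_pos h6, if_pos ⟨h2.2 h6.1, h3.2 h6.2⟩, Perm.sign_mul, Perm.sign_swap hab]
      push_cast
      ring
    · rw [if_neg h6, if_neg (fun h7 => h6 ⟨h2.1 h7.1, h3.1 h7.2⟩), neg_zero]
  exact self_eq_neg.1 h1

open Classical in
theorem young (k : ℕ) : ∃ y : Perm (Fin (k + 1) × Fin (k + 1)) → ℂ,
    (∀ σ, y σ ≠ 0 → σ ∈ alternatingGroup (Fin (k + 1) × Fin (k + 1))) ∧ y 1 ≠ 0 ∧
    ∀ Δ : Finset (Fin (k + 1) × Fin (k + 1)), k + 2 ≤ Δ.card →
      ∀ τ : Perm (Fin (k + 1) × Fin (k + 1)),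
        ∑ δ : Perm (Fin (k + 1) × Fin (k + 1)),
          (if δ ∈ alternatingGroup (Fin (k + 1) × Fin (k + 1)) ∧ δ.support ⊆ Δ
            then y (τ * δ) else 0) = 0 := by
  refine ⟨fun σ => if Perm.sign σ = 1 then R1_Y k σ else 0, ?_, ?_, ?_⟩
  · intro σ h
    rw [Perm.mem_alternatingGroup]
    by_contra h1
    exact h (if_neg h1)
  · simp only [Perm.sign_one, if_true]
    rw [R1_one]
    exact one_ne_zero
  · intro Δ hΔ τ
    have hsup : ∀ δ : Perm (Fin (k + 1) × Fin (k + 1)),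
        δ.support ⊆ Δ ↔ (∀ x, x ∉ Δ → δ x = x) := by
      intro δ
      constructor
      · intro h x hx
        by_contra h1
        exact hx (h (Perm.mem_support.2 h1))
      · intro h x hx
        by_contra h1
        exact Perm.mem_support.1 hx (h x h1)
    rcases Int.units_eq_one_or (Perm.sign τ) with hτ | hτ
    · have h1 : ∀ δ : Perm (Fin (k + 1) × Fin (k + 1)),
          (if δ ∈ alternatingGroup (Fin (k + 1) × Fin (k + 1)) ∧ δ.support ⊆ Δ
            then (if Perm.sign (τ * δ) = 1 then R1_Y k (τ * δ) else 0) else 0) =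
          (1 / 2 : ℂ) * (if (∀ x, x ∉ Δ → δ x = x) then R1_Y k (τ * δ) else 0) +
          (1 / 2 : ℂ) * (if (∀ x, x ∉ Δ → δ x = x) then
            ((Perm.sign δ : ℤ) : ℂ) * R1_Y k (τ * δ) else 0) := by
        intro δ
        have h5 : Perm.sign (τ * δ) = Perm.sign δ := by rw [Perm.sign_mul, hτ, one_mul]
        by_cases h2 : (∀ x, x ∉ Δ → δ x = x)
        · rcases Int.units_eq_one_or (Perm.sign δ) with hδ | hδ
          · rw [if_pos ⟨Perm.mem_alternatingGroup.2 hδ, (hsup δ).2 h2⟩, if_pos (h5.trans hδ),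
              if_pos h2, if_pos h2, hδ]
            push_cast
            ring
          · rw [if_neg, if_pos h2, if_pos h2, hδ]
            · push_cast
              ring
            · rintro ⟨h3, _⟩
              rw [Perm.mem_alternatingGroup, hδ] at h3
              exact absurd h3 (by decide)
        · rw [if_neg (fun h => h2 ((hsup δ).1 h.2)), if_neg h2, if_neg h2, mul_zero, add_zero]
      rw [Finset.sum_congr rfl (fun δ _ => h1 δ), Finset.sum_add_distrib, ← Finset.mul_sum,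
        ← Finset.mul_sum, R1_plus k Δ hΔ τ, R1_minus k Δ hΔ τ, mul_zero, add_zero]
    · apply Finset.sum_eq_zero
      intro δ _
      by_cases h1 : δ ∈ alternatingGroup (Fin (k + 1) × Fin (k + 1)) ∧ δ.support ⊆ Δ
      · rw [if_pos h1]
        apply if_neg
        intro h2
        rw [Perm.sign_mul, hτ, Perm.mem_alternatingGroup.1 h1.1] at h2
        exact absurd h2 (by decide)
      · rw [if_neg h1]

end H49KA
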