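import Pool.Agent.H49.KA.Defs

open Equiv

namespace H49KA
universe u

section

variable {Ω : Type*} [Fintype Ω] [DecidableEq Ω]

/-- the values of a three-cycle -/
private theorem h47_cyc {c : Perm Ω} (hc : c.IsThreeCycle) (x : Ω) : c (c (c x)) = x := by
  have h : (c ^ 3) x = x := by
    rw [← hc.orderOf, pow_orderOf_eq_one]
    rfl
  simpa [pow_succ] using h

private theorem h47_out {c : Perm Ω} (hc : c.IsThreeCycle) {x v : Ω} (hx : c x ≠ x)
    (h1 : v ≠ x) (h2 : v ≠ c x) (h3 : v ≠ c (c x)) : c v = v := by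
  have h4 := hc.support_eq_iff_mem_support.2 (Perm.mem_support.2 hx)
  by_contra h5
  have h6 : v ∈ c.support := Perm.mem_support.2 h5
  rw [h4] at h6
  simp only [Finset.mem_insert, Finset.mem_singleton] at h6
  rcases h6 with h | h | h
  · exact h1 h
  · exact h2 h
  · exact h3 h

private theorem h47_conj {c d : Perm Ω} (hc : c.IsThreeCycle) : (d * c * d⁻¹).IsThreeCycle := by
  rw [Perm.IsThreeCycle, Perm.cycleType_conj]
  exact hc

private theorem h47_conj' {c d : Perm Ω} (hc : c.IsThreeCycle) : (d⁻¹ * c * d).IsThreeCycle := by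
  have h := h47_conj (d := d⁻¹) hc
  rwa [inv_inv] at h

end

theorem conn_trans {Ω : Type*} [Fintype Ω] [DecidableEq Ω] (S : Subgroup (Perm Ω)) (x y z : Ω)
    (hxy : x ≠ y) (hyz : y ≠ z) (hxz : x ≠ z)
    (h1 : ∃ c ∈ S, c.IsThreeCycle ∧ c x = y) (h2 : ∃ c ∈ S, c.IsThreeCycle ∧ c y = z) :
    ∃ c ∈ S, c.IsThreeCycle ∧ c x = z := by
  obtain ⟨c, hcS, hc, hcx⟩ := h1
  obtain ⟨d, hdS, hd, hdy⟩ := h2
  by_cases hdx : d x = x
  · refine ⟨d * c * d⁻¹, S.mul_mem (S.mul_mem hdS hcS) (S.inv_mem hdS), h47_conj hc, ?_⟩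
    have h3 : d⁻¹ x = x := by rw [Perm.inv_eq_iff_eq, hdx]
    rw [Perm.mul_apply, Perm.mul_apply, h3, hcx, hdy]
  · refine ⟨d⁻¹, S.inv_mem hdS, hd.inv, ?_⟩
    rw [Perm.inv_eq_iff_eq]
    by_contra h3
    have hy : d y ≠ y := by
      rw [hdy]
      exact hyz.symm
    apply hdx
    refine h47_out hd hy hxy ?_ ?_
    · rw [hdy]
      exact hxz
    · rw [hdy]
      exact h3

private theorem h47_three {Ω : Type*} [Fintype Ω] [DecidableEq Ω] (S : Subgroup (Perm Ω))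
    (x y z : Ω) (hxy : x ≠ y) (hyz : y ≠ z) (hxz : x ≠ z)
    (h1 : ∃ c ∈ S, c.IsThreeCycle ∧ c x = y) (h2 : ∃ c ∈ S, c.IsThreeCycle ∧ c x = z) :
    ∃ e ∈ S, e.IsThreeCycle ∧ e x = y ∧ e y = z := by
  obtain ⟨c, hcS, hc, hcx⟩ := h1
  have hcyc := h47_cyc hc x
  rw [hcx] at hcyc
  obtain ⟨u, hu⟩ : ∃ u, c y = u := ⟨_, rfl⟩
  rw [hu] at hcyc
  have hux : u ≠ x := by
    intro h
    rw [h, hcx] at hcyc
    exact hxy hcyc.symm
  by_cases huz : u = z
  · exact ⟨c, hcS, hc, hcx, by rw [hu, huz]⟩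
  have huy : u ≠ y := by
    intro h
    rw [h, hu] at hcyc
    exact hux hcyc
  have hcz : c z = z := by
    have hx : c x ≠ x := by
      rw [hcx]
      exact hxy.symm
    refine h47_out hc hx hxz.symm ?_ ?_
    · rw [hcx]
      exact hyz.symm
    · rw [hcx, hu]
      exact Ne.symm huz
  obtain ⟨d, hdS, hd, hdu⟩ := conn_trans S u x z hux hxz huz ⟨c, hcS, hc, hcyc⟩ h2
  have hdcyc := h47_cyc hd u
  rw [hdu] at hdcyc
  have hdu' : d u ≠ u := by
    rw [hdu]
    exact Ne.symm huz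
  by_cases hdx : d x = x
  · by_cases hdy : d y = y
    · refine ⟨d * c * d⁻¹, S.mul_mem (S.mul_mem hdS hcS) (S.inv_mem hdS), h47_conj hc, ?_, ?_⟩
      · have h3 : d⁻¹ x = x := by rw [Perm.inv_eq_iff_eq, hdx]
        rw [Perm.mul_apply, Perm.mul_apply, h3, hcx, hdy]
      · have h3 : d⁻¹ y = y := by rw [Perm.inv_eq_iff_eq, hdy]
        rw [Perm.mul_apply, Perm.mul_apply, h3, hu, hdu]
    · have hdz : d z = y := by
        by_contra h3
        apply hdy
        refine h47_out hd hdu' (Ne.symm huy) ?_ ?_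
        · rw [hdu]
          exact hyz
        · rw [hdu]
          exact Ne.symm h3
      have hdy' : d y = u := by rw [← hdz, hdcyc]
      refine ⟨c⁻¹ * d * c, S.mul_mem (S.mul_mem (S.inv_mem hcS) hdS) hcS, h47_conj' hd, ?_, ?_⟩
      · rw [Perm.mul_apply, Perm.mul_apply, hcx, hdy', Perm.inv_eq_iff_eq, hu]
      · rw [Perm.mul_apply, Perm.mul_apply, hu, hdu, Perm.inv_eq_iff_eq, hcz]
  · have hdz : d z = x := by
      by_contra h3
      apply hdx
      refine h47_out hd hdu' (Ne.symm hux) ?_ ?_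
      · rw [hdu]
        exact hxz
      · rw [hdu]
        exact Ne.symm h3
    have hdx' : d x = u := by rw [← hdz, hdcyc]
    refine ⟨c * d⁻¹ * c⁻¹, S.mul_mem (S.mul_mem hcS (S.inv_mem hdS)) (S.inv_mem hcS),
      h47_conj hd.inv, ?_, ?_⟩
    · have h3 : c⁻¹ x = u := by rw [Perm.inv_eq_iff_eq, hcyc]
      have h4 : d⁻¹ u = x := by rw [Perm.inv_eq_iff_eq, hdx']
      rw [Perm.mul_apply, Perm.mul_apply, h3, h4, hcx]
    · have h3 : c⁻¹ y = x := by rw [Perm.inv_eq_iff_eq, hcx]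
      have h4 : d⁻¹ x = z := by rw [Perm.inv_eq_iff_eq, hdz]
      rw [Perm.mul_apply, Perm.mul_apply, h3, h4, hcz]

private theorem h47_cycle_mem {Ω : Type*} [Fintype Ω] [DecidableEq Ω] (S : Subgroup (Perm Ω))
    (Δ : Finset Ω)
    (h : ∀ x ∈ Δ, ∀ y ∈ Δ, x ≠ y → ∃ c ∈ S, c.IsThreeCycle ∧ c x = y) (τ : Perm Ω)
    (hτ : τ.IsThreeCycle) (hs : τ.support ⊆ Δ) : τ ∈ S := by
  have h0 : τ.support.Nonempty := by
    rw [← Finset.card_pos, hτ.card_support]
    norm_num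
  obtain ⟨x, hx⟩ := h0
  have hy : τ x ∈ τ.support := Perm.apply_mem_support.2 hx
  have hz : τ (τ x) ∈ τ.support := Perm.apply_mem_support.2 hy
  have hxy : x ≠ τ x := fun h1 => (Perm.mem_support.1 hx) h1.symm
  have hyz : τ x ≠ τ (τ x) := fun h1 => (Perm.mem_support.1 hy) h1.symm
  have hcyc := h47_cyc hτ x
  have hxz : x ≠ τ (τ x) := by
    intro h1
    rw [← h1] at hcyc
    exact hxy hcyc.symm
  obtain ⟨e, heS, he, hex, hey⟩ := h47_three S x (τ x) (τ (τ x)) hxy hyz hxz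
    (h x (hs hx) _ (hs hy) hxy) (h x (hs hx) _ (hs hz) hxz)
  have h1 : e = τ := by
    have hx' : x ∈ e.support := by
      rw [Perm.mem_support, hex]
      exact hxy.symm
    have h2 := he.eq_swap_mul_swap_iff_mem_support.2 hx'
    have h3 := hτ.eq_swap_mul_swap_iff_mem_support.2 hx
    rw [hex, hey] at h2
    exact h2.trans h3.symm
  rw [← h1]
  exact heS

theorem alt_le_of_conn {Ω : Type*} [Fintype Ω] [DecidableEq Ω] (S : Subgroup (Perm Ω))
    (Δ : Finset Ω)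
    (h : ∀ x ∈ Δ, ∀ y ∈ Δ, x ≠ y → ∃ c ∈ S, c.IsThreeCycle ∧ c x = y) :
    ∀ σ ∈ alternatingGroup Ω, σ.support ⊆ Δ → σ ∈ S := by
  intro σ hσ hs
  have h1 : ∀ x, σ x ∈ Δ ↔ x ∈ Δ := by
    intro x
    by_cases hx : σ x = x
    · rw [hx]
    · have hx' : x ∈ σ.support := Perm.mem_support.2 hx
      exact ⟨fun _ => hs hx', fun _ => hs (Perm.apply_mem_support.2 hx')⟩
  have h2 : ∀ x, σ x ≠ x → x ∈ Δ := fun x hx => hs (Perm.mem_support.2 hx)
  have h3 : Perm.ofSubtype (σ.subtypePerm h1) = σ := Perm.ofSubtype_subtypePerm h1 h2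
  have h4 : σ.subtypePerm h1 ∈ alternatingGroup {x // x ∈ Δ} := by
    rw [Perm.mem_alternatingGroup, ← Perm.sign_ofSubtype, h3]
    exact Perm.mem_alternatingGroup.1 hσ
  have h5 : alternatingGroup {x // x ∈ Δ} ≤ S.comap Perm.ofSubtype := by
    rw [← Perm.closure_three_cycles_eq_alternating, Subgroup.closure_le]
    intro τ hτ
    have hτ' : τ.IsThreeCycle := hτ
    rw [SetLike.mem_coe, Subgroup.mem_comap]
    refine h47_cycle_mem S Δ h _ ?_ ?_
    · rw [Perm.IsThreeCycle, Perm.cycleType_ofSubtype]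
      exact hτ'
    · intro x hx
      by_contra h6
      exact (Perm.mem_support.1 hx) (Perm.ofSubtype_apply_of_not_mem τ h6)
  have h6 := h5 h4
  rw [Subgroup.mem_comap, h3] at h6
  exact h6

end H49KA
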