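import Pool.Agent.H49.KA.Defs

open Equiv

namespace H49KA
universe u

/-- representatives of the orbits -/
private theorem R4a_rep {n : ℕ} (F : Subgroup (Perm (Fin n))) :
    ∃ q : Fin n → Fin n, (∀ x, ∃ f ∈ F, f (q x) = x) ∧
      ∀ x y, (∃ f ∈ F, f x = y) → q x = q y := by
  let st : Setoid (Fin n) :=
    ⟨fun x y => ∃ f ∈ F, f x = y,
      ⟨fun x => ⟨1, F.one_mem, rfl⟩,
       fun {x y} ⟨f, hf, h⟩ => ⟨f⁻¹, F.inv_mem hf, by rw [← h]; simp⟩,
       fun {x y z} ⟨f, hf, h⟩ ⟨g, hg, h'⟩ => ⟨g * f, F.mul_mem hg hf, by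
        rw [Perm.mul_apply, h, h']⟩⟩⟩
  refine ⟨fun x => (Quotient.mk st x).out, fun x => ?_, fun x y h => ?_⟩
  · exact Quotient.exact (Quotient.out_eq (Quotient.mk st x))
  · exact congrArg Quotient.out (Quotient.sound (s := st) h)

private theorem R4a_moved {n : ℕ} (f : Perm (Fin n)) :
    ∃ s : Finset (Fin n), s.card ≤ 1 ∧ (f ≠ 1 → ∃ w ∈ s, f w ≠ w) := by
  by_cases h : f = 1
  · exact ⟨∅, by simp, fun h' => absurd h h'⟩
  · obtain ⟨w, hw⟩ : ∃ w, f w ≠ w := by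
      by_contra hc
      push Not at hc
      exact h (Equiv.ext hc)
    exact ⟨{w}, by simp, fun _ => ⟨w, by simp, hw⟩⟩

theorem positions (m N : ℕ) : ∃ n₀ : ℕ, ∀ n : ℕ, n₀ ≤ n →
    ∀ F : Subgroup (Perm (Fin n)), Nat.card F ≤ m →
    ∃ W T : Finset (Fin n), W.card ≤ m ^ 2 ∧ T.card = N ∧ Disjoint W T ∧
      (∀ f ∈ F, ∀ w ∈ W, f w ∈ W) ∧ (∀ f ∈ F, f ≠ 1 → ∃ w ∈ W, f w ≠ w) ∧
      (∀ f ∈ F, ∀ t ∈ T, ∀ t' ∈ T, f t = t' → t = t') ∧
      (∀ f ∈ F, (∀ t ∈ T, f t = t) ∨ (∀ t ∈ T, f t ≠ t)) := by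
  classical
  refine ⟨m ^ 2 + m * (2 ^ m * N), fun n hn F hF => ?_⟩
  obtain ⟨S, hS⟩ : ∃ S : Finset (Perm (Fin n)), ∀ f, f ∈ S ↔ f ∈ F :=
    ⟨(Set.toFinite (F : Set (Perm (Fin n)))).toFinset, fun f => by
      rw [Set.Finite.mem_toFinset]
      exact Iff.rfl⟩
  have hScard : S.card ≤ m := by
    have h : (F : Set (Perm (Fin n))) = (S : Set (Perm (Fin n))) := by
      ext f
      exact (hS f).symm
    have h1 : Nat.card F = S.card := by
      calc Nat.card F = Nat.card (F : Set (Perm (Fin n))) := rfl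
        _ = Nat.card (S : Set (Perm (Fin n))) := by rw [h]
        _ = S.card := by simp
    omega
  have hSpos : 0 < S.card := Finset.card_pos.2 ⟨1, (hS 1).2 F.one_mem⟩
  choose g hg1 hg2 using (R4a_moved (n := n))
  obtain ⟨q, hq1, hq2⟩ := R4a_rep F
  set W : Finset (Fin n) := S.biUnion fun f' => S.biUnion fun f => (g f).image f' with hW
  have hWcard : W.card ≤ m ^ 2 := by
    have h1 : W.card ≤ S.card * (S.card * 1) := by
      rw [hW]
      refine Finset.card_biUnion_le_card_mul _ _ _ fun f' _ => ?_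
      refine Finset.card_biUnion_le_card_mul _ _ _ fun f _ => ?_
      exact Finset.card_image_le.trans (hg1 f)
    calc W.card ≤ S.card * (S.card * 1) := h1
      _ ≤ m * (m * 1) := Nat.mul_le_mul hScard (Nat.mul_le_mul hScard le_rfl)
      _ = m ^ 2 := by ring
  have hWinv : ∀ f ∈ F, ∀ w ∈ W, f w ∈ W := by
    intro f hf w hw
    rw [hW, Finset.mem_biUnion] at hw ⊢
    obtain ⟨f', hf', hw⟩ := hw
    rw [Finset.mem_biUnion] at hw
    obtain ⟨f0, hf0, hw⟩ := hw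
    rw [Finset.mem_image] at hw
    obtain ⟨v, hv, rfl⟩ := hw
    refine ⟨f * f', (hS _).2 (F.mul_mem hf ((hS _).1 hf')), ?_⟩
    rw [Finset.mem_biUnion]
    exact ⟨f0, hf0, Finset.mem_image.2 ⟨v, hv, rfl⟩⟩
  have hWmov : ∀ f ∈ F, f ≠ 1 → ∃ w ∈ W, f w ≠ w := by
    intro f hf h1
    obtain ⟨w, hw, hw2⟩ := hg2 f h1
    refine ⟨w, ?_, hw2⟩
    rw [hW, Finset.mem_biUnion]
    refine ⟨1, (hS _).2 F.one_mem, ?_⟩
    rw [Finset.mem_biUnion]
    exact ⟨f, (hS _).2 hf, Finset.mem_image.2 ⟨w, hw, rfl⟩⟩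
  set A : Finset (Fin n) := Wᶜ with hA
  have hAcard : m * (2 ^ m * N) ≤ A.card := by
    rw [hA, Finset.card_compl, Fintype.card_fin]
    omega
  set R : Finset (Fin n) := A.image q with hR
  have hRA : ∀ r ∈ R, r ∉ W := by
    intro r hr hrW
    rw [hR, Finset.mem_image] at hr
    obtain ⟨a, ha, rfl⟩ := hr
    obtain ⟨f, hf, hfa⟩ := hq1 a
    have h1 := hWinv f hf _ hrW
    rw [hfa] at h1
    rw [hA, Finset.mem_compl] at ha
    exact ha h1
  have hRq : ∀ r ∈ R, q r = r := by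
    intro r hr
    rw [hR, Finset.mem_image] at hr
    obtain ⟨a, ha, rfl⟩ := hr
    obtain ⟨f, hf, hfa⟩ := hq1 a
    exact hq2 _ _ ⟨f, hf, hfa⟩
  have hRcard : 2 ^ m * N ≤ R.card := by
    have h1 : A ⊆ R.biUnion fun x => S.image fun f => f x := by
      intro a ha
      rw [Finset.mem_biUnion]
      obtain ⟨f, hf, hfa⟩ := hq1 a
      exact ⟨q a, Finset.mem_image.2 ⟨a, ha, rfl⟩, Finset.mem_image.2 ⟨f, (hS _).2 hf, hfa⟩⟩
    have h2 : A.card ≤ R.card * m := by
      refine (Finset.card_le_card h1).trans ?_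
      refine Finset.card_biUnion_le_card_mul _ _ _ fun x _ => ?_
      exact Finset.card_image_le.trans hScard
    have h3 : m * (2 ^ m * N) ≤ m * R.card := by
      calc m * (2 ^ m * N) ≤ A.card := hAcard
        _ ≤ R.card * m := h2
        _ = m * R.card := by ring
    exact Nat.le_of_mul_le_mul_left h3 (by omega)
  obtain ⟨y, -, hy⟩ := Finset.exists_le_card_fiber_of_mul_le_card_of_maps_to (s := R)
    (t := S.powerset) (f := fun x => S.filter fun f => f x = x) (n := N)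
    (fun a _ => by
      rw [Finset.mem_powerset]
      exact Finset.filter_subset _ _) ⟨∅, by simp⟩ (by
      rw [Finset.card_powerset]
      exact (Nat.mul_le_mul (Nat.pow_le_pow_right (by norm_num) hScard) le_rfl).trans hRcard)
  obtain ⟨T, hT1, hT2⟩ := Finset.exists_subset_card_eq hy
  have hTR : ∀ t ∈ T, t ∈ R ∧ (S.filter fun f => f t = t) = y := by
    intro t ht
    have := hT1 ht
    rw [Finset.mem_filter] at this
    exact this
  refine ⟨W, T, hWcard, hT2, ?_, hWinv, hWmov, ?_, ?_⟩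
  · rw [Finset.disjoint_right]
    intro t ht
    exact hRA t (hTR t ht).1
  · intro f hf t ht t' ht' h
    have h1 := hq2 t t' ⟨f, hf, h⟩
    rwa [hRq t (hTR t ht).1, hRq t' (hTR t' ht').1] at h1
  · intro f hf
    by_cases h : ∃ t ∈ T, f t = t
    · left
      obtain ⟨t, ht, hft⟩ := h
      intro t' ht'
      have h1 : f ∈ y := by
        rw [← (hTR t ht).2, Finset.mem_filter]
        exact ⟨(hS _).2 hf, hft⟩
      rw [← (hTR t' ht').2, Finset.mem_filter] at h1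
      exact h1.2
    · right
      intro t ht hft
      exact h ⟨t, ht, hft⟩

end H49KA
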