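import Pool.Agent.H49.KA.Defs

open Equiv

namespace H49KA
universe u

theorem lines (s : ℕ) : ∃ (N M : ℕ) (l : Fin M → Finset (Fin N)), N < M ∧
    (∀ a, s ≤ (l a).card) ∧ ∀ a b, a ≠ b → (l a ∩ l b).card ≤ 1 := by
  classical
  obtain ⟨q, hqs, hq⟩ := Nat.exists_infinite_primes s
  haveI : Fact q.Prime := ⟨hq⟩
  -- the affine plane over the field with `q` elements, all lines with a slope and one
  -- vertical line
  let L : Option (ZMod q × ZMod q) → Finset (ZMod q × ZMod q) := fun o =>
    match o with
    | none => Finset.univ.image fun y => (0, y)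
    | some c => Finset.univ.image fun x => (x, c.1 * x + c.2)
  have memNone : ∀ p : ZMod q × ZMod q, p ∈ L none ↔ p.1 = 0 := by
    intro p
    simp only [L, Finset.mem_image, Finset.mem_univ, true_and]
    constructor
    · rintro ⟨y, rfl⟩; rfl
    · intro h; exact ⟨p.2, by rw [← h]⟩
  have memSome : ∀ (c p : ZMod q × ZMod q), p ∈ L (some c) ↔ p.2 = c.1 * p.1 + c.2 := by
    intro c p
    simp only [L, Finset.mem_image, Finset.mem_univ, true_and]
    constructor
    · rintro ⟨y, rfl⟩; rfl
    · intro h; exact ⟨p.1, by rw [← h]⟩
  have hcard : ∀ o, (L o).card = q := by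
    intro o
    match o with
    | none =>
      simp only [L]
      rw [Finset.card_image_of_injective, Finset.card_univ, ZMod.card]
      intro a b hab
      exact (Prod.mk.inj hab).2
    | some c =>
      simp only [L]
      rw [Finset.card_image_of_injective, Finset.card_univ, ZMod.card]
      intro a b hab
      exact (Prod.mk.inj hab).1
  have hint : ∀ o o', o ≠ o' → (L o ∩ L o').card ≤ 1 := by
    intro o o' hoo
    rw [Finset.card_le_one]
    intro a ha b hb
    rw [Finset.mem_inter] at ha hb
    match o, o', hoo with
    | none, none, h => exact absurd rfl h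
    | none, some c, _ =>
      have h1 := (memNone a).1 ha.1
      have h2 := (memNone b).1 hb.1
      have h3 := (memSome c a).1 ha.2
      have h4 := (memSome c b).1 hb.2
      refine Prod.ext (h1.trans h2.symm) ?_
      rw [h3, h4, h1, h2]
    | some c, none, _ =>
      have h1 := (memNone a).1 ha.2
      have h2 := (memNone b).1 hb.2
      have h3 := (memSome c a).1 ha.1
      have h4 := (memSome c b).1 hb.1
      refine Prod.ext (h1.trans h2.symm) ?_
      rw [h3, h4, h1, h2]
    | some c, some d, h =>
      have h1 := (memSome c a).1 ha.1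
      have h2 := (memSome c b).1 hb.1
      have h3 := (memSome d a).1 ha.2
      have h4 := (memSome d b).1 hb.2
      by_cases hab : a.1 = b.1
      · refine Prod.ext hab ?_
        rw [h1, h2, hab]
      · exfalso
        have h5 : (c.1 - d.1) * (a.1 - b.1) = 0 := by
          linear_combination h3 - h1 + h2 - h4
        rcases mul_eq_zero.1 h5 with h6 | h6
        · have h7 : c.1 = d.1 := sub_eq_zero.1 h6
          have h8 : c.2 = d.2 := by
            linear_combination h3 - h1 - a.1 * h7
          exact h (congrArg some (Prod.ext h7 h8))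
        · exact hab (sub_eq_zero.1 h6)
  let e := Fintype.equivFin (ZMod q × ZMod q)
  let e' := Fintype.equivFin (Option (ZMod q × ZMod q))
  refine ⟨_, _, fun a => (L (e'.symm a)).map e.toEmbedding, ?_, ?_, ?_⟩
  · rw [Fintype.card_option]
    exact Nat.lt_succ_self _
  · intro a
    rw [Finset.card_map, hcard]
    exact hqs
  · intro a b hab
    rw [← Finset.map_inter, Finset.card_map]
    exact hint _ _ fun h => hab (e'.symm.injective h)

end H49KA
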