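import Pool.Agent.H49.KA.Defs
import Pool.Agent.H49.KA.R4b

open Equiv

namespace H49KA
universe u

private lemma pai {α : Type*} (f : Perm α) (x : α) : f (f⁻¹ x) = x := f.apply_symm_apply x

private lemma pia {α : Type*} (f : Perm α) (x : α) : f⁻¹ (f x) = x := f.symm_apply_apply x

/-- commutator of two permutations whose supports meet in exactly one point -/
private lemma comm3 {α : Type*} [DecidableEq α] (u w : Perm α) (a : α) (hu : u a ≠ a)
    (hw : w a ≠ a) (h : ∀ x, u x ≠ x → w x ≠ x → x = a) :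
    u a ≠ w a ∧ u * w * u⁻¹ * w⁻¹ = swap a (w a) * swap a (u a) := by
  have hua : w (u a) = u a := by
    by_contra hc
    exact hu (h (u a) (fun h' => hu (u.injective h')) hc)
  have hwa : u (w a) = w a := by
    by_contra hc
    exact hw (h (w a) hc (fun h' => hw (w.injective h')))
  have hne : u a ≠ w a := by
    intro hc
    rw [hc] at hua
    exact hw (w.injective hua)
  refine ⟨hne, ?_⟩
  have key : ∀ x, u x ≠ x → x ≠ a → w x = x := by
    intro x hx hxa
    by_contra hc
    exact hxa (h x hx hc)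
  have key' : ∀ x, w x ≠ x → x ≠ a → u x = x := by
    intro x hx hxa
    by_contra hc
    exact hxa (h x hc hx)
  ext x
  simp only [Perm.mul_apply]
  -- cases on x
  by_cases hxa : x = a
  · subst hxa
    have h1 : u⁻¹ (w⁻¹ x) = w⁻¹ x := by
      rw [Perm.inv_eq_iff_eq]
      have hwx : w⁻¹ x ≠ x := by
        intro hc
        rw [Perm.inv_eq_iff_eq] at hc
        exact hw hc.symm
      refine (key' (w⁻¹ x) ?_ hwx).symm
      rw [pai]
      exact fun h' => hwx h'.symm
    rw [h1, pai, swap_apply_left, swap_apply_of_ne_of_ne hu hne]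
  · by_cases hxu : x = u a
    · subst hxu
      have h1 : w⁻¹ (u a) = u a := by
        rw [Perm.inv_eq_iff_eq]; exact hua.symm
      rw [h1, pia, hwa, swap_apply_right, swap_apply_left]
    · by_cases hxw : x = w a
      · subst hxw
        rw [pia]
        have h2 : u⁻¹ a ≠ a := by
          intro hc
          rw [Perm.inv_eq_iff_eq] at hc
          exact hu hc.symm
        have h3 : w (u⁻¹ a) = u⁻¹ a := by
          refine key _ ?_ h2
          rw [pai]; exact fun h' => h2 h'.symm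
        rw [h3, pai, swap_apply_of_ne_of_ne hw (Ne.symm hne),
          swap_apply_right]
      · rw [swap_apply_of_ne_of_ne hxa hxu, swap_apply_of_ne_of_ne hxa hxw]
        by_cases hux : u x = x
        · by_cases hwx : w x = x
          · have h1 : w⁻¹ x = x := by rw [Perm.inv_eq_iff_eq]; exact hwx.symm
            have h2 : u⁻¹ x = x := by rw [Perm.inv_eq_iff_eq]; exact hux.symm
            rw [h1, h2, hwx, hux]
          · -- w moves x
            have h0 : w⁻¹ x ≠ a := by
              intro hc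
              rw [Perm.inv_eq_iff_eq] at hc
              exact hxw hc
            have h1 : w (w⁻¹ x) ≠ w⁻¹ x := by
              rw [pai]
              intro hc
              have := congrArg w hc
              rw [pai] at this
              exact hwx this
            have h2 : u⁻¹ (w⁻¹ x) = w⁻¹ x := by
              rw [Perm.inv_eq_iff_eq]
              exact (key' _ h1 h0).symm
            rw [h2, pai, hux]
        · have hwx : w x = x := key x hux hxa
          have h1 : w⁻¹ x = x := by rw [Perm.inv_eq_iff_eq]; exact hwx.symm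
          have h0 : u⁻¹ x ≠ a := by
            intro hc
            rw [Perm.inv_eq_iff_eq] at hc
            exact hxu hc
          have h2 : u (u⁻¹ x) ≠ u⁻¹ x := by
            rw [pai]
            intro hc
            have := congrArg u hc
            rw [pai] at this
            exact hux this
          rw [h1, key _ h2 h0, pai]

/-- a permutation, trivial outside `B`, moving given points into a given set, of given sign -/
private lemma exists_g {n : ℕ} (B : Finset (Fin n)) {P : Type} [Fintype P] (ψ : P → Fin n)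
    (hψ : Function.Injective ψ) (hψB : ∀ p, ψ p ∈ B) (s1 s2 : Fin n) (h1 : s1 ∈ B)
    (h2 : s2 ∈ B) (h12 : s1 ≠ s2) (hs1 : ∀ p, ψ p ≠ s1) (hs2 : ∀ p, ψ p ≠ s2)
    (L : Finset (Fin n)) (hL : L ⊆ B) (hc : Fintype.card P ≤ L.card) (σ₀ : ℤˣ) :
    ∃ g : Perm (Fin n), (∀ x, x ∉ B → g x = x) ∧ (∀ p, g (ψ p) ∈ L) ∧ Perm.sign g = σ₀ := by
  classical
  have hne : Nonempty (P ↪ L) := by
    apply Function.Embedding.nonempty_of_card_le
    simpa using hc
  obtain ⟨φ⟩ := hne
  let ψ' : P → B := fun p => ⟨ψ p, hψB p⟩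
  let φ' : P → B := fun p => ⟨φ p, hL (φ p).2⟩
  have hψ' : Function.Injective ψ' := fun p q h => hψ (congrArg Subtype.val h)
  have hφ' : Function.Injective φ' := fun p q h => by
    have h0 : ((φ' p : B) : Fin n) = (φ' q : B) := congrArg Subtype.val h
    exact φ.injective (Subtype.ext h0)
  let e : {x // x ∈ Set.range ψ'} ≃ {x // x ∈ Set.range φ'} :=
    (Equiv.ofInjective ψ' hψ').symm.trans (Equiv.ofInjective φ' hφ')
  let g₀ : Perm B := e.extendSubtype
  let g₁ : Perm (Fin n) := Perm.ofSubtype g₀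
  have hg₁ : ∀ p, g₁ (ψ p) ∈ L := by
    intro p
    have ha : g₁ (ψ p) = (g₀ (ψ' p) : Fin n) := Perm.ofSubtype_apply_of_mem g₀ (hψB p)
    have hb : g₀ (ψ' p) = φ' p := by
      have hh : g₀ (ψ' p) = (e ⟨ψ' p, ⟨p, rfl⟩⟩ : B) :=
        Equiv.extendSubtype_apply_of_mem e (ψ' p) ⟨p, rfl⟩
      rw [hh]
      have : (Equiv.ofInjective ψ' hψ').symm ⟨ψ' p, ⟨p, rfl⟩⟩ = p := by
        rw [Equiv.symm_apply_eq]
        rfl
      simp only [e, Equiv.trans_apply, this]
      rfl
    rw [ha, hb]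
    exact (φ p).2
  have hg₁' : ∀ x, x ∉ B → g₁ x = x := fun x hx => Perm.ofSubtype_apply_of_not_mem g₀ hx
  by_cases hs : Perm.sign g₁ = σ₀
  · exact ⟨g₁, hg₁', hg₁, hs⟩
  · refine ⟨g₁ * swap s1 s2, ?_, ?_, ?_⟩
    · intro x hx
      have hx1 : x ≠ s1 := fun h => hx (h ▸ h1)
      have hx2 : x ≠ s2 := fun h => hx (h ▸ h2)
      rw [Perm.mul_apply, swap_apply_of_ne_of_ne hx1 hx2, hg₁' x hx]
    · intro p
      rw [Perm.mul_apply, swap_apply_of_ne_of_ne (hs1 p) (hs2 p)]
      exact hg₁ p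
    · rw [Perm.sign_mul, Perm.sign_swap h12]
      rcases Int.units_eq_one_or (Perm.sign g₁) with h | h <;>
        rcases Int.units_eq_one_or σ₀ with h' | h' <;> simp_all

/-- the basic word and its support -/
private lemma word_props {α : Type*} [DecidableEq α] (W T : Finset α) (hWT : Disjoint W T)
    (f τi τj : Perm α) (ri rj : {x // x ∈ W} → α)
    (hi3 : ∀ x, x ∉ W → (∀ w, ri w ≠ x) → τi x = x)
    (hj1 : ∀ w : {x // x ∈ W}, τj w = rj w) (hj2 : ∀ w : {x // x ∈ W}, τj (rj w) = w)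
    (hj3 : ∀ x, x ∉ W → (∀ w, rj w ≠ x) → τj x = x)
    (hiT : ∀ w, ri w ∈ T) (hjT : ∀ w, rj w ∈ T) (hij : ∀ w w', ri w ≠ rj w')
    (hfW : ∀ w ∈ W, f w ∈ W) (hfW' : ∀ w ∈ W, f⁻¹ w ∈ W)
    (hfT : ∀ t ∈ T, ∀ t' ∈ T, f t = t' → t = t')
    (hd : (∀ t ∈ T, f t = t) ∨ (∀ t ∈ T, f t ≠ t)) (hf : ∃ w ∈ W, f w ≠ w) :
    (∃ x, (x ∈ W ∨ ∃ w, rj w = x) ∧ (τi * f⁻¹ * τi * τj * f * τj) x ≠ x ∧
      ∃ w, rj w = (τi * f⁻¹ * τi * τj * f * τj) x) ∧
    (∀ x, (τi * f⁻¹ * τi * τj * f * τj) x ≠ x →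
      (x ∈ W ∨ (∃ w, ri w = x) ∨ (∃ w, rj w = x)) ∨
      (x ∉ W ∧ x ∉ T ∧ ((∃ w, ri w = f x) ∨ (∃ w, rj w = f x)))) := by
  have hTW : ∀ x, x ∈ T → x ∉ W := fun x hx hx' => (Finset.disjoint_left.mp hWT) hx' hx
  have hinj : ∀ w w', rj w = rj w' → w = w' := by
    intro w w' h
    have := congrArg τj h
    rw [hj2, hj2] at this
    exact Subtype.ext this
  constructor
  · obtain ⟨w, hw, hfw⟩ := hf
    rcases hd with hd | hd
    · refine ⟨rj ⟨w, hw⟩, Or.inr ⟨_, rfl⟩, ?_, ⟨f w, hfW w hw⟩, ?_⟩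
      all_goals
        have e1 : (τi * f⁻¹ * τi * τj * f * τj) (rj ⟨w, hw⟩) = rj ⟨f w, hfW w hw⟩ := by
          simp only [Perm.mul_apply]
          rw [hj2]
          have a1 : τj (f w) = rj ⟨f w, hfW w hw⟩ := hj1 ⟨f w, hfW w hw⟩
          rw [a1]
          have a2 : τi (rj ⟨f w, hfW w hw⟩) = rj ⟨f w, hfW w hw⟩ :=
            hi3 _ (hTW _ (hjT _)) (fun w' => hij w' _)
          have a3 : f⁻¹ (rj ⟨f w, hfW w hw⟩) = rj ⟨f w, hfW w hw⟩ := by
            rw [Perm.inv_eq_iff_eq]
            exact (hd _ (hjT _)).symm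
          rw [a2, a3, a2]
      · rw [e1]
        intro h
        have := hinj _ _ h
        exact hfw (congrArg Subtype.val this)
      · exact e1.symm
    · refine ⟨w, Or.inl hw, ?_, ⟨w, hw⟩, ?_⟩
      all_goals
        have e1 : (τi * f⁻¹ * τi * τj * f * τj) w = rj ⟨w, hw⟩ := by
          simp only [Perm.mul_apply]
          have a1 : τj w = rj ⟨w, hw⟩ := hj1 ⟨w, hw⟩
          rw [a1]
          have b1 : f (rj ⟨w, hw⟩) ∉ T := by
            intro h
            exact hd _ (hjT _) (hfT _ (hjT ⟨w, hw⟩) _ h rfl).symm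
          have b2 : f (rj ⟨w, hw⟩) ∉ W := by
            intro h
            have := hfW' _ h
            rw [pia] at this
            exact hTW _ (hjT _) this
          have a2 : τj (f (rj ⟨w, hw⟩)) = f (rj ⟨w, hw⟩) :=
            hj3 _ b2 (fun w' h => b1 (h ▸ hjT w'))
          have a3 : τi (f (rj ⟨w, hw⟩)) = f (rj ⟨w, hw⟩) :=
            hi3 _ b2 (fun w' h => b1 (h ▸ hiT w'))
          rw [a2, a3, pia]
          exact hi3 _ (hTW _ (hjT _)) (fun w' => hij w' _)
      · rw [e1]
        intro h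
        exact hTW _ (hjT ⟨w, hw⟩) (Eq.mpr (congrArg (· ∈ W) h) hw)
      · exact e1.symm
  · intro x hx
    by_contra hcon
    push Not at hcon
    obtain ⟨⟨h1, h2, h3⟩, h4⟩ := hcon
    have t1 : τj x = x := hj3 x h1 h3
    have t2 : τi x = x := hi3 x h1 h2
    have c1 : f x ∉ W := by
      intro h
      have := hfW' _ h
      rw [pia] at this
      exact h1 this
    have c2 : (∀ w, ri w ≠ f x) ∧ (∀ w, rj w ≠ f x) := by
      by_cases hxT : x ∈ T
      · constructor
        · intro w h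
          have : x = f x := hfT x hxT (f x) (h ▸ hiT w) rfl
          exact h2 w (h.trans this.symm)
        · intro w h
          have : x = f x := hfT x hxT (f x) (h ▸ hjT w) rfl
          exact h3 w (h.trans this.symm)
      · exact h4 h1 hxT
    apply hx
    simp only [Perm.mul_apply]
    rw [t1, hj3 _ c1 c2.2, hi3 _ c1 c2.1, pia, t2]

private lemma tau_sq {α : Type*} (W : Finset α) (τ : Perm α) (r : {x // x ∈ W} → α)
    (h1 : ∀ w : {x // x ∈ W}, τ w = r w) (h2 : ∀ w : {x // x ∈ W}, τ (r w) = w)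
    (h3 : ∀ x, x ∉ W → (∀ w, r w ≠ x) → τ x = x) : τ⁻¹ = τ := by
  rw [inv_eq_iff_mul_eq_one]
  ext x
  simp only [Perm.mul_apply, Perm.one_apply]
  by_cases hx : x ∈ W
  · have a := h1 ⟨x, hx⟩
    have b := h2 ⟨x, hx⟩
    simp only at a b
    rw [a, b]
  · by_cases hr : ∃ w, r w = x
    · obtain ⟨w, rfl⟩ := hr
      rw [h2, h1]
    · push Not at hr
      rw [h3 x hx hr, h3 x hx hr]

theorem core_pos (m ν : ℕ) : ∃ N : ℕ, ∀ n : ℕ, ∀ F : Subgroup (Perm (Fin n)),
    Nat.card F ≤ m → ∀ W T : Finset (Fin n), W.card ≤ ν → N ≤ T.card → Disjoint W T →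
      (∀ f ∈ F, ∀ w ∈ W, f w ∈ W) → (∀ f ∈ F, f ≠ 1 → ∃ w ∈ W, f w ≠ w) →
      (∀ f ∈ F, ∀ t ∈ T, ∀ t' ∈ T, f t = t' → t = t') →
      (∀ f ∈ F, (∀ t ∈ T, f t = t) ∨ (∀ t ∈ T, f t ≠ t)) →
      ∀ S : Subgroup (Perm (Fin n)),
        (∀ g ∈ alternatingGroup (Fin n), ∃ f ∈ F, f ≠ 1 ∧ g * f * g⁻¹ ∈ S) →
        ∃ x ∈ W ∪ T, ∃ y ∈ W ∪ T, x ≠ y ∧ ∃ c ∈ S, c.IsThreeCycle ∧ c x = y := by
  classical
  obtain ⟨N0, M, l, hNM, hls, hll⟩ := lines (ν * (m + 1))
  refine ⟨N0 + M * m * ν + 2, ?_⟩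
  intro n F hFm W T hWν hNT hWT hFW hFne hP1 hP2 S hS
  by_contra hcon
  push Not at hcon
  have hTW : ∀ x, x ∈ T → x ∉ W := fun x hx hx' => (Finset.disjoint_left.mp hWT) hx' hx
  -- positions
  have hcard : Fintype.card ((Fin M × Fin m × {x // x ∈ W}) ⊕ Fin 2) ≤
      Fintype.card {x // x ∈ T} := by
    simp only [Fintype.card_sum, Fintype.card_prod, Fintype.card_fin, Fintype.card_coe]
    have : M * (m * W.card) ≤ M * m * ν := by
      rw [mul_assoc]
      exact Nat.mul_le_mul_left _ (Nat.mul_le_mul_left _ hWν)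
    omega
  obtain ⟨r0⟩ := Function.Embedding.nonempty_of_card_le hcard
  have hcard2 : Fintype.card (Fin N0) ≤ Fintype.card {x // x ∈ T} := by
    simp only [Fintype.card_fin, Fintype.card_coe]
    omega
  obtain ⟨e⟩ := Function.Embedding.nonempty_of_card_le hcard2
  let r : Fin M → Fin m → {x // x ∈ W} → Fin n := fun a i w => (r0 (Sum.inl (a, i, w)) : Fin n)
  have hrT : ∀ a i w, r a i w ∈ T := fun a i w => (r0 (Sum.inl (a, i, w))).2
  have hrinj : ∀ a i w a' i' w', r a i w = r a' i' w' → a = a' ∧ i = i' ∧ w = w' := by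
    intro a i w a' i' w' h
    have h1 := r0.injective (Subtype.ext h)
    simpa using h1
  let s1 : Fin n := (r0 (Sum.inr 0) : Fin n)
  let s2 : Fin n := (r0 (Sum.inr 1) : Fin n)
  have hs1T : s1 ∈ T := (r0 (Sum.inr 0)).2
  have hs2T : s2 ∈ T := (r0 (Sum.inr 1)).2
  have hs12 : s1 ≠ s2 := by
    intro h
    have h1 := r0.injective (Subtype.ext h)
    simp at h1
  have hrs1 : ∀ a i w, r a i w ≠ s1 := by
    intro a i w h
    have h1 := r0.injective (Subtype.ext h)
    simp at h1
  have hrs2 : ∀ a i w, r a i w ≠ s2 := by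
    intro a i w h
    have h1 := r0.injective (Subtype.ext h)
    simp at h1
  let pt : Fin N0 → Fin n := fun k => (e k : Fin n)
  have hpt : Function.Injective pt := fun k k' h => e.injective (Subtype.ext h)
  let L : Fin M → Finset (Fin n) := fun a => (l a).image pt
  have hLT : ∀ a, L a ⊆ T := by
    intro a x hx
    obtain ⟨k, _, rfl⟩ := Finset.mem_image.mp hx
    exact (e k).2
  have hLc : ∀ a, ν * (m + 1) ≤ (L a).card := by
    intro a
    rw [Finset.card_image_of_injective _ hpt]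
    exact hls a
  -- the involutions
  let emb : Fin M → Fin m → ({x // x ∈ W} ⊕ {x // x ∈ W}) ↪ Fin n := fun a i =>
    ⟨Sum.elim (fun w => (w : Fin n)) (r a i), by
      intro p q h
      rcases p with p | p <;> rcases q with q | q
      · exact congrArg Sum.inl (Subtype.ext h)
      · exact absurd p.2 (hTW _ (by
          have h' : (p : Fin n) = r a i q := h
          rw [h']; exact hrT _ _ _))
      · exact absurd q.2 (hTW _ (by
          have h' : r a i p = (q : Fin n) := h
          rw [← h']; exact hrT _ _ _))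
      · exact congrArg Sum.inr (hrinj _ _ _ _ _ _ h).2.2⟩
  let τ : Fin M → Fin m → Perm (Fin n) := fun a i =>
    Perm.viaFintypeEmbedding (Equiv.sumComm {x // x ∈ W} {x // x ∈ W}) (emb a i)
  have hτ1 : ∀ a i (w : {x // x ∈ W}), τ a i w = r a i w := by
    intro a i w
    have := Perm.viaFintypeEmbedding_apply_image
      (Equiv.sumComm {x // x ∈ W} {x // x ∈ W}) (emb a i) (Sum.inl w)
    exact this
  have hτ2 : ∀ a i (w : {x // x ∈ W}), τ a i (r a i w) = w := by
    intro a i w
    have := Perm.viaFintypeEmbedding_apply_image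
      (Equiv.sumComm {x // x ∈ W} {x // x ∈ W}) (emb a i) (Sum.inr w)
    exact this
  have hτ3 : ∀ a i x, x ∉ W → (∀ w, r a i w ≠ x) → τ a i x = x := by
    intro a i x hx hr
    apply Perm.viaFintypeEmbedding_apply_notMem_range
    rintro ⟨p, hp⟩
    rcases p with p | p
    · exact hx (by rw [← hp]; exact p.2)
    · exact hr p hp
  have hτs : ∀ a i, Perm.sign (τ a i) =
      Perm.sign (Equiv.sumComm {x // x ∈ W} {x // x ∈ W}) := by
    intro a i
    exact Perm.viaFintypeEmbedding_sign _ _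
  have hτinv : ∀ a i, (τ a i)⁻¹ = τ a i := fun a i =>
    tau_sq W (τ a i) (r a i) (hτ1 a i) (hτ2 a i) (hτ3 a i)
  -- the permutations g
  let ψ : Fin M → ({x // x ∈ W} ⊕ (Fin m × {x // x ∈ W})) → Fin n := fun a =>
    Sum.elim (fun w : {x // x ∈ W} => (w : Fin n))
      (fun q : Fin m × {x // x ∈ W} => r a q.1 q.2)
  have hgex : ∀ a, ∃ g : Perm (Fin n), (∀ x, x ∉ W ∪ T → g x = x) ∧
      (∀ p : {x // x ∈ W} ⊕ (Fin m × {x // x ∈ W}), g (ψ a p) ∈ L a) ∧
      Perm.sign g = Perm.sign (Equiv.sumComm {x // x ∈ W} {x // x ∈ W}) := by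
    intro a
    apply exists_g (W ∪ T) (ψ a) ?_ ?_ s1 s2
      (Finset.mem_union_right _ hs1T) (Finset.mem_union_right _ hs2T) hs12 ?_ ?_ (L a)
      ((hLT a).trans Finset.subset_union_right) ?_
    · intro p q h
      rcases p with p | p <;> rcases q with q | q
      · exact congrArg Sum.inl (Subtype.ext h)
      · exact absurd p.2 (hTW _ (by
          have h' : (p : Fin n) = r a q.1 q.2 := h
          rw [h']; exact hrT _ _ _))
      · exact absurd q.2 (hTW _ (by
          have h' : r a p.1 p.2 = (q : Fin n) := h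
          rw [← h']; exact hrT _ _ _))
      · have h' := hrinj _ _ _ _ _ _ h
        exact congrArg Sum.inr (Prod.ext h'.2.1 h'.2.2)
    · intro p
      rcases p with p | p
      · exact Finset.mem_union_left _ p.2
      · exact Finset.mem_union_right _ (hrT _ _ _)
    · intro p
      rcases p with p | p
      · intro h
        exact hTW _ hs1T (by
          have h' : (p : Fin n) = s1 := h
          rw [← h']; exact p.2)
      · exact hrs1 _ _ _
    · intro p
      rcases p with p | p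
      · intro h
        exact hTW _ hs2T (by
          have h' : (p : Fin n) = s2 := h
          rw [← h']; exact p.2)
      · exact hrs2 _ _ _
    · refine le_trans ?_ (hLc a)
      simp only [Fintype.card_sum, Fintype.card_prod, Fintype.card_fin, Fintype.card_coe]
      calc W.card + m * W.card ≤ ν + m * ν :=
            Nat.add_le_add hWν (Nat.mul_le_mul_left _ hWν)
        _ = ν * (m + 1) := by ring
  choose g hg1 hg2 hg3 using hgex
  have hgW : ∀ a (w : Fin n), w ∈ W → g a w ∈ L a := fun a w hw => hg2 a (Sum.inl ⟨w, hw⟩)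
  have hgr : ∀ a i w, g a (r a i w) ∈ L a := fun a i w => hg2 a (Sum.inr (i, w))
  -- pigeonhole
  have hfin : Finite F := inferInstance
  have hpig : ∀ a, ∃ i j : Fin m, i ≠ j ∧ ∃ f ∈ F, f ≠ 1 ∧
      (g a * τ a i) * f * (g a * τ a i)⁻¹ ∈ S ∧ (g a * τ a j) * f * (g a * τ a j)⁻¹ ∈ S := by
    intro a
    have hex : ∀ i : Fin m, ∃ f : F, (f : Perm (Fin n)) ≠ 1 ∧
        (g a * τ a i) * f * (g a * τ a i)⁻¹ ∈ S := by
      intro i
      have hev : g a * τ a i ∈ alternatingGroup (Fin n) := by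
        rw [Perm.mem_alternatingGroup, Perm.sign_mul, hτs, hg3]
        exact Int.units_mul_self _
      obtain ⟨f, hf, hf1, hfS⟩ := hS _ hev
      exact ⟨⟨f, hf⟩, hf1, hfS⟩
    choose φ hφ1 hφ2 using hex
    have hFt : Fintype F := Fintype.ofFinite F
    let φ' : Fin m → {f : F // f ≠ 1} := fun i => ⟨φ i, fun h => hφ1 i (by rw [h]; rfl)⟩
    have hlt : Fintype.card {f : F // f ≠ 1} < Fintype.card (Fin m) := by
      have h1 : Fintype.card {f : F // f ≠ 1} < Fintype.card F :=
        Fintype.card_subtype_lt (x := (1 : F)) (by simp)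
      have h2 : Fintype.card F ≤ m := by rwa [← Nat.card_eq_fintype_card]
      rw [Fintype.card_fin]
      omega
    obtain ⟨i, j, hij, hφij⟩ := Fintype.exists_ne_map_eq_of_card_lt φ' hlt
    have hφe : φ i = φ j := congrArg Subtype.val hφij
    refine ⟨i, j, hij, φ i, (φ i).2, hφ1 i, hφ2 i, ?_⟩
    rw [hφe]
    exact hφ2 j
  choose i j hij f hfF hf1 hfS hfS' using hpig
  let v : Fin M → Perm (Fin n) := fun a =>
    τ a (i a) * (f a)⁻¹ * τ a (i a) * τ a (j a) * f a * τ a (j a)
  let u : Fin M → Perm (Fin n) := fun a => g a * v a * (g a)⁻¹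
  have huS : ∀ a, u a ∈ S := by
    intro a
    have h1 := S.mul_mem (S.inv_mem (hfS a)) (hfS' a)
    have h2 : ((g a * τ a (i a)) * f a * (g a * τ a (i a))⁻¹)⁻¹ *
        ((g a * τ a (j a)) * f a * (g a * τ a (j a))⁻¹) = u a := by
      have e1 := hτinv a (i a)
      have e2 := hτinv a (j a)
      simp only [u, v, mul_inv_rev, inv_inv]
      rw [e1, e2]
      group
    rw [← h2]
    exact h1
  have hword := fun a => word_props W T hWT (f a) (τ a (i a)) (τ a (j a)) (r a (i a)) (r a (j a))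
    (hτ3 a (i a)) (hτ1 a (j a)) (hτ2 a (j a)) (hτ3 a (j a))
    (hrT a (i a)) (hrT a (j a))
    (fun w w' h => hij a (hrinj _ _ _ _ _ _ h).2.1)
    (hFW (f a) (hfF a)) (hFW (f a)⁻¹ (F.inv_mem (hfF a)))
    (hP1 (f a) (hfF a)) (hP2 (f a) (hfF a)) (hFne (f a) (hfF a) (hf1 a))
  -- marked points
  have hmark : ∀ a, ∃ k : Fin N0, pt k ∈ L a ∧ u a (pt k) ∈ L a ∧ u a (pt k) ≠ pt k := by
    intro a
    obtain ⟨⟨x, hx, hvx, w, hw⟩, -⟩ := hword a
    have hgx : g a x ∈ L a := by
      rcases hx with hx | ⟨w', rfl⟩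
      · exact hgW a x hx
      · exact hgr a (j a) w'
    obtain ⟨k, -, hk⟩ := Finset.mem_image.mp hgx
    have hu1 : u a (pt k) = g a (v a x) := by
      simp only [u, Perm.mul_apply]
      rw [hk, pia]
    refine ⟨k, by rw [hk]; exact hgx, ?_, ?_⟩
    · rw [hu1]
      have : v a x = r a (j a) w := hw.symm
      rw [this]
      exact hgr a (j a) w
    · rw [hu1, hk]
      intro h
      exact hvx ((g a).injective h)
  choose k hk1 hk2 hk3 using hmark
  -- supports
  have hsupp : ∀ a y, u a y ≠ y → y ∈ L a ∨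
      (y ∉ W ∪ T ∧ ∃ i w, ∃ f' ∈ F, f' y = r a i w) := by
    intro a y hy
    obtain ⟨-, h2⟩ := hword a
    have hv : v a ((g a)⁻¹ y) ≠ (g a)⁻¹ y := by
      intro h
      apply hy
      simp only [u, Perm.mul_apply]
      rw [h, pai]
    rcases h2 _ hv with h | h
    · left
      have : g a ((g a)⁻¹ y) ∈ L a := by
        rcases h with h | ⟨w, hw⟩ | ⟨w, hw⟩
        · exact hgW a _ h
        · rw [← hw]; exact hgr a _ w
        · rw [← hw]; exact hgr a _ w
      rwa [pai] at this
    · right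
      obtain ⟨hW, hT, hr⟩ := h
      have hB : (g a)⁻¹ y ∉ W ∪ T := by
        rw [Finset.mem_union]; push Not; exact ⟨hW, hT⟩
      have hfix := hg1 a _ hB
      rw [pai] at hfix
      rw [← hfix] at hB hr
      refine ⟨hB, ?_⟩
      rcases hr with ⟨w, hw⟩ | ⟨w, hw⟩
      · exact ⟨i a, w, f a, hfF a, hw.symm⟩
      · exact ⟨j a, w, f a, hfF a, hw.symm⟩
  -- two lines with the same marked point
  have hlt : Fintype.card (Fin N0) < Fintype.card (Fin M) := by simpa using hNM
  obtain ⟨a, b, hab, hkab⟩ := Fintype.exists_ne_map_eq_of_card_lt k hlt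
  have hone : ∀ x, u a x ≠ x → u b x ≠ x → x = pt (k a) := by
    intro x hxa hxb
    rcases hsupp a x hxa with h | ⟨h1, i1, w1, f1, hf1', e1⟩
    · rcases hsupp b x hxb with h' | ⟨h', -⟩
      · obtain ⟨k1, hk1', e1⟩ := Finset.mem_image.mp h
        obtain ⟨k2, hk2', e2⟩ := Finset.mem_image.mp h'
        have e3 : k1 = k2 := hpt (e1.trans e2.symm)
        have hka : k a ∈ l a ∩ l b := by
          rw [Finset.mem_inter]
          obtain ⟨k3, hk3', e3'⟩ := Finset.mem_image.mp (hk1 a)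
          obtain ⟨k4, hk4', e4'⟩ := Finset.mem_image.mp (hk1 b)
          rw [hpt e3'] at hk3'
          rw [hpt e4'] at hk4'
          rw [hkab]
          rw [hkab] at hk3'
          exact ⟨hk3', hk4'⟩
        have hkb : k1 ∈ l a ∩ l b := by
          rw [Finset.mem_inter]
          exact ⟨hk1', e3 ▸ hk2'⟩
        have := Finset.card_le_one.mp (hll a b hab) _ hkb _ hka
        rw [← e1, this]
      · exact absurd (Finset.mem_union_right _ (hLT a h)) h'
    · rcases hsupp b x hxb with h' | ⟨h', i2, w2, f2, hf2', e2⟩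
      · exact absurd (Finset.mem_union_right _ (hLT b h')) h1
      · exfalso
        have e3 : (f2 * f1⁻¹) (r a i1 w1) = r b i2 w2 := by
          rw [← e1, ← e2, Perm.mul_apply, pia]
        have e4 := hP1 (f2 * f1⁻¹) (F.mul_mem hf2' (F.inv_mem hf1')) _ (hrT a i1 w1) _
          (hrT b i2 w2) e3
        exact hab (hrinj _ _ _ _ _ _ e4).1
  have hwb : u b (pt (k a)) ≠ pt (k a) := by rw [hkab]; exact hk3 b
  obtain ⟨hne, hcomm⟩ := comm3 (u a) (u b) (pt (k a)) (hk3 a) hwb hone
  refine hcon (pt (k a)) (Finset.mem_union_right _ (hLT a (hk1 a))) (u a (pt (k a)))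
    (Finset.mem_union_right _ (hLT a (hk2 a))) (hk3 a).symm
    (u a * u b * (u a)⁻¹ * (u b)⁻¹)
    (S.mul_mem (S.mul_mem (S.mul_mem (huS a) (huS b)) (S.inv_mem (huS a)))
      (S.inv_mem (huS b))) ?_ ?_
  · rw [hcomm]
    exact Perm.isThreeCycle_swap_mul_swap_same hwb.symm (hk3 a).symm hne.symm
  · rw [hcomm, Perm.mul_apply, swap_apply_left, swap_apply_of_ne_of_ne (hk3 a) hne]

end H49KA
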