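import Pool.Agent.H49.KA.Defs
import Pool.Agent.H49.KA.R4a
import Pool.Agent.H49.KA.R4c

open Equiv

namespace H49KA
universe u

/-- an even permutation moving one finite set into a larger one -/
private lemma r4_move {n : ℕ} (P B : Finset (Fin n)) (h : P.card + 2 ≤ B.card) :
    ∃ g ∈ alternatingGroup (Fin n), ∀ x ∈ P, g x ∈ B := by
  classical
  obtain ⟨B', hB', hc⟩ := Finset.exists_subset_card_eq (show P.card ≤ B.card by omega)
  let e : {x // x ∈ P} ≃ {x // x ∈ B'} := Finset.equivOfCardEq hc.symm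
  let g₀ : Perm (Fin n) := e.extendSubtype
  have hg₀ : ∀ x ∈ P, g₀ x ∈ B := fun x hx => hB' (e.extendSubtype_mem x hx)
  by_cases hs : Perm.sign g₀ = 1
  · exact ⟨g₀, Perm.mem_alternatingGroup.2 hs, hg₀⟩
  · have hs' : Perm.sign g₀ = -1 := (Int.units_eq_one_or _).resolve_left hs
    have hcompl : 1 < (Pᶜ).card := by
      rw [Finset.card_compl, Fintype.card_fin]
      have := card_finset_fin_le B
      omega
    obtain ⟨s1, h1, s2, h2, h12⟩ := Finset.one_lt_card.1 hcompl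
    rw [Finset.mem_compl] at h1 h2
    refine ⟨g₀ * swap s1 s2, ?_, ?_⟩
    · rw [Perm.mem_alternatingGroup, Perm.sign_mul, Perm.sign_swap h12, hs']
      rfl
    · intro x hx
      have hx1 : x ≠ s1 := fun h => h1 (h ▸ hx)
      have hx2 : x ≠ s2 := fun h => h2 (h ▸ hx)
      rw [Perm.mul_apply, swap_apply_of_ne_of_ne hx1 hx2]
      exact hg₀ x hx

theorem confined_core (m : ℕ) : ∃ b n₀ : ℕ, ∀ (n : ℕ), n₀ ≤ n →
    ∀ F : Subgroup (Perm (Fin n)), Nat.card F ≤ m →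
    ∀ S : Subgroup (Perm (Fin n)),
      (∀ g ∈ alternatingGroup (Fin n), ∃ f ∈ F, f ≠ 1 ∧ g * f * g⁻¹ ∈ S) →
      ∀ B : Finset (Fin n), b ≤ B.card →
        ∃ x ∈ B, ∃ y ∈ B, x ≠ y ∧ ∃ c ∈ S, c.IsThreeCycle ∧ c x = y := by
  classical
  obtain ⟨N, hN⟩ := core_pos m (m ^ 2)
  obtain ⟨n₀, hn₀⟩ := positions m N
  refine ⟨m ^ 2 + N + 2, n₀, ?_⟩
  intro n hn F hF S hS B hB
  obtain ⟨W, T, hW, hT, hWT, h1, h2, h3, h4⟩ := hn₀ n hn F hF
  have hP : (W ∪ T).card + 2 ≤ B.card := by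
    have := Finset.card_union_le W T
    omega
  obtain ⟨g, hg, hgB⟩ := r4_move (W ∪ T) B hP
  obtain ⟨x, hx, y, hy, hxy, c, hc, hc3, hcx⟩ := hN n F hF W T hW hT.ge hWT h1 h2 h3 h4
    (S.comap (MulAut.conj g).toMonoidHom) (by
      intro k hk
      obtain ⟨f, hf, hf1, hfS⟩ := hS (g * k) (Subgroup.mul_mem _ hg hk)
      refine ⟨f, hf, hf1, ?_⟩
      change g * (k * f * k⁻¹) * g⁻¹ ∈ S
      have e : g * (k * f * k⁻¹) * g⁻¹ = g * k * f * (g * k)⁻¹ := by group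
      rw [e]
      exact hfS)
  refine ⟨g x, hgB x hx, g y, hgB y hy, fun h => hxy (g.injective h), g * c * g⁻¹, hc, ?_, ?_⟩
  · unfold Perm.IsThreeCycle
    rw [Perm.cycleType_conj]
    exact hc3
  · have e1 : g⁻¹ (g x) = x := g.symm_apply_apply x
    rw [Perm.mul_apply, Perm.mul_apply, e1, hcx]

end H49KA
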