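import Pool.Agent.H49.KA.Defs
import Pool.Agent.H49.KA.R1
import Pool.Agent.H49.KA.R2
import Pool.Agent.H49.KA.R4

open Equiv

namespace H49KA
universe u

section R5aux
variable {α β : Type*} [Fintype α] [DecidableEq α] [Fintype β] [DecidableEq β]

private lemma via_eq (e : Perm α) (f : α ↪ β) :
    Perm.viaEmbeddingHom f e = Perm.viaFintypeEmbedding e f := by
  ext x
  rw [Perm.viaEmbeddingHom_apply]
  by_cases hx : x ∈ Set.range f
  · obtain ⟨a, rfl⟩ := hx
    rw [Perm.viaEmbedding_apply, Perm.viaFintypeEmbedding_apply_image]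
  · rw [Perm.viaEmbedding_apply_of_notMem _ _ _ hx,
      Perm.viaFintypeEmbedding_apply_notMem_range _ _ hx]

private lemma via_sign (e : Perm α) (f : α ↪ β) :
    Perm.sign (Perm.viaEmbeddingHom f e) = Perm.sign e := by
  rw [via_eq, Perm.viaFintypeEmbedding_sign]

end R5aux

open Classical in
theorem alt_killer (m : ℕ) : ∃ n₀ : ℕ, ∀ n : ℕ, n₀ ≤ n → ∃ y : Perm (Fin n) → ℂ,
    (∀ σ, y σ ≠ 0 → σ ∈ alternatingGroup (Fin n)) ∧ y 1 ≠ 0 ∧
    ∀ F : Subgroup (Perm (Fin n)), Nat.card F ≤ m →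
    ∀ S : Subgroup (Perm (Fin n)), S ≤ alternatingGroup (Fin n) →
      (∀ g ∈ alternatingGroup (Fin n), ∃ f ∈ F, f ≠ 1 ∧ g * f * g⁻¹ ∈ S) →
      ∀ υ : Perm (Fin n), ∑ σ : Perm (Fin n), (if υ⁻¹ * σ ∈ S then y σ else 0) = 0 := by
  obtain ⟨b, n₁, hcore⟩ := confined_core m
  obtain ⟨y₀, hy₀, hy₀1, hkill⟩ := young b
  refine ⟨max n₁ ((b + 1) * (b + 1)), ?_⟩
  intro n hn
  have hn1 : n₁ ≤ n := (le_max_left _ _).trans hn
  have hn2 : (b + 1) * (b + 1) ≤ n := (le_max_right _ _).trans hn
  have hemb : Nonempty ((Fin (b + 1) × Fin (b + 1)) ↪ Fin n) := by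
    apply Function.Embedding.nonempty_of_card_le
    simpa using hn2
  obtain ⟨ι⟩ := hemb
  let Φ := Perm.viaEmbeddingHom ι
  have hΦinj : Function.Injective Φ := Perm.viaEmbeddingHom_injective ι
  have hΦsign : ∀ σ, Perm.sign (Φ σ) = Perm.sign σ := fun σ => via_sign σ ι
  let y : Perm (Fin n) → ℂ := fun σ => ∑ σ₀, if Φ σ₀ = σ then y₀ σ₀ else 0
  refine ⟨y, ?_, ?_, ?_⟩
  · intro σ hσ
    obtain ⟨σ₀, _, h⟩ := Finset.exists_ne_zero_of_sum_ne_zero hσ
    by_cases h1 : Φ σ₀ = σ
    · rw [if_pos h1] at h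
      have h2 := hy₀ σ₀ h
      rw [Perm.mem_alternatingGroup] at h2 ⊢
      rw [← h1, hΦsign, h2]
    · rw [if_neg h1] at h
      exact absurd rfl h
  · have : y 1 = y₀ 1 := by
      simp only [y]
      rw [Finset.sum_eq_single 1]
      · rw [if_pos (map_one Φ)]
      · intro σ _ hσ
        rw [if_neg]
        intro h
        exact hσ (hΦinj (h.trans (map_one Φ).symm))
      · intro h
        exact absurd (Finset.mem_univ _) h
    rw [this]
    exact hy₀1
  · intro F hF S hS hconf υ
    have hcoreB := hcore n hn1 F hF S hconf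
    -- push the sum to the grid
    have hsum : ∑ σ : Perm (Fin n), (if υ⁻¹ * σ ∈ S then y σ else 0) =
        ∑ σ₀, (if υ⁻¹ * Φ σ₀ ∈ S then y₀ σ₀ else 0) := by
      have e1 : ∀ σ : Perm (Fin n), (if υ⁻¹ * σ ∈ S then y σ else 0) =
          ∑ σ₀, (if Φ σ₀ = σ then (if υ⁻¹ * Φ σ₀ ∈ S then y₀ σ₀ else 0) else 0) := by
        intro σ
        by_cases h : υ⁻¹ * σ ∈ S
        · rw [if_pos h]
          refine Finset.sum_congr rfl fun σ₀ _ => ?_
          by_cases h1 : Φ σ₀ = σ
          · rw [if_pos h1, if_pos h1, if_pos (by rw [h1]; exact h)]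
          · rw [if_neg h1, if_neg h1]
        · rw [if_neg h]
          symm
          refine Finset.sum_eq_zero fun σ₀ _ => ?_
          by_cases h1 : Φ σ₀ = σ
          · rw [if_pos h1, if_neg (by rw [h1]; exact h)]
          · rw [if_neg h1]
      rw [Finset.sum_congr rfl (fun σ _ => e1 σ), Finset.sum_comm]
      refine Finset.sum_congr rfl fun σ₀ _ => ?_
      rw [Finset.sum_ite_eq]
      simp
    rw [hsum]
    -- the equivalence relation on the grid
    let r : (Fin (b + 1) × Fin (b + 1)) → (Fin (b + 1) × Fin (b + 1)) → Prop := fun p q =>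
      p = q ∨ ∃ c ∈ S, c.IsThreeCycle ∧ c (ι p) = ι q
    have hsymm : ∀ p q, r p q → r q p := by
      rintro p q (h | ⟨c, hc, h3, hcp⟩)
      · exact Or.inl h.symm
      · refine Or.inr ⟨c⁻¹, S.inv_mem hc, h3.inv, ?_⟩
        rw [Perm.inv_eq_iff_eq, hcp]
    have htrans : ∀ p q s, r p q → r q s → r p s := by
      intro p q s hpq hqs
      by_cases h1 : p = q
      · rw [h1]; exact hqs
      · by_cases h2 : q = s
        · rw [← h2]; exact hpq
        · by_cases h3 : p = s
          · exact Or.inl h3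
          · right
            refine conn_trans S (ι p) (ι q) (ι s) (fun h => h1 (ι.injective h))
              (fun h => h2 (ι.injective h)) (fun h => h3 (ι.injective h)) ?_ ?_
            · exact hpq.resolve_left h1
            · exact hqs.resolve_left h2
    let st : Setoid (Fin (b + 1) × Fin (b + 1)) :=
      ⟨r, ⟨fun p => Or.inl rfl, fun {p q} h => hsymm p q h, fun {p q s} h h' => htrans p q s h h'⟩⟩
    have hQ : Fintype.card (Quotient st) < b + 1 := by
      by_contra hcon
      push Not at hcon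
      let B : Finset (Fin n) := Finset.univ.image (fun q : Quotient st => ι q.out)
      have hinj : Function.Injective (fun q : Quotient st => ι q.out) := by
        intro q q' h
        have h1 : q.out = q'.out := ι.injective h
        rw [← Quotient.out_eq q, ← Quotient.out_eq q', h1]
      have hBc : b ≤ B.card := by
        rw [Finset.card_image_of_injective _ hinj, Finset.card_univ]
        omega
      obtain ⟨x, hx, z, hz, hxz, c, hc, h3, hcx⟩ := hcoreB B hBc
      obtain ⟨q, _, rfl⟩ := Finset.mem_image.mp hx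
      obtain ⟨q', _, rfl⟩ := Finset.mem_image.mp hz
      apply hxz
      have h4 : q.out ≈ q'.out := Or.inr ⟨c, hc, h3, hcx⟩
      have h5 := Quotient.sound h4
      rw [Quotient.out_eq, Quotient.out_eq] at h5
      rw [h5]
    have hpig : Fintype.card (Quotient st) * (b + 1) <
        Fintype.card (Fin (b + 1) × Fin (b + 1)) := by
      rw [Fintype.card_prod, Fintype.card_fin]
      exact Nat.mul_lt_mul_of_pos_right hQ (Nat.succ_pos b)
    obtain ⟨q, hq⟩ := Fintype.exists_lt_card_fiber_of_mul_lt_card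
      (fun p => (Quotient.mk st p)) hpig
    let Δ : Finset (Fin (b + 1) × Fin (b + 1)) :=
      Finset.univ.filter (fun p => Quotient.mk st p = q)
    have hΔ : b + 2 ≤ Δ.card := hq
    have hconn : ∀ x ∈ Δ.map ι, ∀ z ∈ Δ.map ι, x ≠ z → ∃ c ∈ S, c.IsThreeCycle ∧ c x = z := by
      intro x hx z hz hxz
      obtain ⟨p, hp, rfl⟩ := Finset.mem_map.mp hx
      obtain ⟨p', hp', rfl⟩ := Finset.mem_map.mp hz
      have h1 : (Quotient.mk st p) = Quotient.mk st p' := by
        rw [(Finset.mem_filter.mp hp).2, (Finset.mem_filter.mp hp').2]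
      have h2 : r p p' := Quotient.exact h1
      rcases h2 with h2 | h2
      · exact absurd (by rw [h2]) hxz
      · exact h2
    have hAlt : ∀ δ ∈ alternatingGroup (Fin (b + 1) × Fin (b + 1)), δ.support ⊆ Δ →
        Φ δ ∈ S := by
      intro δ hδ hsupp
      refine alt_le_of_conn S (Δ.map ι) hconn (Φ δ) ?_ ?_
      · rw [Perm.mem_alternatingGroup] at hδ ⊢
        rw [hΦsign, hδ]
      · intro x hx
        rw [Perm.mem_support] at hx
        by_cases hxr : x ∈ Set.range ι
        · obtain ⟨p, rfl⟩ := hxr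
          rw [Finset.mem_map']
          apply hsupp
          rw [Perm.mem_support]
          intro h
          apply hx
          have : Φ δ (ι p) = ι (δ p) := Perm.viaEmbedding_apply _ _ _
          rw [this, h]
        · exact absurd (Perm.viaEmbedding_apply_of_notMem δ ι x hxr) hx
    -- averaging
    let w : Perm (Fin (b + 1) × Fin (b + 1)) → ℂ := fun δ =>
      if δ ∈ alternatingGroup (Fin (b + 1) × Fin (b + 1)) ∧ δ.support ⊆ Δ then 1 else 0
    have hw : ∀ τ, ∑ δ, w δ * y₀ (τ * δ) = 0 := by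
      intro τ
      rw [← hkill Δ hΔ τ]
      refine Finset.sum_congr rfl fun δ _ => ?_
      simp only [w]
      split_ifs
      · rw [one_mul]
      · rw [zero_mul]
    have hreindex : ∀ δ, w δ * ∑ σ₀, (if υ⁻¹ * Φ σ₀ ∈ S then y₀ σ₀ else 0) =
        w δ * ∑ σ₀, (if υ⁻¹ * Φ σ₀ ∈ S then y₀ (σ₀ * δ) else 0) := by
      intro δ
      by_cases hδ : δ ∈ alternatingGroup (Fin (b + 1) × Fin (b + 1)) ∧ δ.support ⊆ Δ
      · congr 1
        have hδS := hAlt δ hδ.1 hδ.2
        rw [← Equiv.sum_comp (Equiv.mulRight δ)]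
        refine Finset.sum_congr rfl fun σ₀ _ => ?_
        have h1 : υ⁻¹ * Φ (Equiv.mulRight δ σ₀) ∈ S ↔ υ⁻¹ * Φ σ₀ ∈ S := by
          rw [Equiv.coe_mulRight, map_mul, ← mul_assoc]
          exact S.mul_mem_cancel_right hδS
        by_cases h2 : υ⁻¹ * Φ σ₀ ∈ S
        · rw [if_pos (h1.mpr h2), if_pos h2, Equiv.coe_mulRight]
        · rw [if_neg (fun h => h2 (h1.mp h)), if_neg h2]
      · simp only [w]
        rw [if_neg hδ, zero_mul, zero_mul]
    have hN : (∑ δ, w δ) * ∑ σ₀, (if υ⁻¹ * Φ σ₀ ∈ S then y₀ σ₀ else 0) = 0 := by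
      rw [Finset.sum_mul, Finset.sum_congr rfl (fun δ _ => hreindex δ)]
      simp only [Finset.mul_sum]
      rw [Finset.sum_comm]
      refine Finset.sum_eq_zero fun σ₀ _ => ?_
      by_cases h : υ⁻¹ * Φ σ₀ ∈ S
      · simp only [if_pos h]
        exact hw σ₀
      · simp only [if_neg h, mul_zero, Finset.sum_const_zero]
    have hN0 : (∑ δ, w δ) ≠ 0 := by
      have e1 : ∑ δ, w δ = ((Finset.univ.filter (fun δ =>
          δ ∈ alternatingGroup (Fin (b + 1) × Fin (b + 1)) ∧ δ.support ⊆ Δ)).card : ℂ) := by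
        simp only [w]
        rw [Finset.sum_boole]
      rw [e1, Nat.cast_ne_zero]
      apply Finset.card_ne_zero_of_mem (a := 1)
      rw [Finset.mem_filter]
      refine ⟨Finset.mem_univ _, one_mem _, ?_⟩
      simp
    exact (mul_eq_zero.mp hN).resolve_left hN0

end H49KA
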