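import Pool.Agent.H49.KA.Defs
import Pool.Agent.H49.KA.C11
import Pool.Agent.H49.KA.R5

open Equiv

namespace H49KA
universe u

variable {G : Type u} [Group G]

/-- the subgroup of the elements of `X` lying in the conjugate `x H x⁻¹` -/
private def r6Sub (H X : Subgroup G) (x : G) : Subgroup X where
  carrier := {s | x⁻¹ * (s : G) * x ∈ H}
  one_mem' := by
    show x⁻¹ * ((1 : X) : G) * x ∈ H
    have : x⁻¹ * ((1 : X) : G) * x = 1 := by simp
    rw [this]
    exact H.one_mem
  mul_mem' := by
    intro a b ha hb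
    show x⁻¹ * ((a * b : X) : G) * x ∈ H
    have : x⁻¹ * ((a * b : X) : G) * x = (x⁻¹ * (a : G) * x) * (x⁻¹ * (b : G) * x) := by
      rw [Subgroup.coe_mul]
      group
    rw [this]
    exact H.mul_mem ha hb
  inv_mem' := by
    intro a ha
    show x⁻¹ * ((a⁻¹ : X) : G) * x ∈ H
    have : x⁻¹ * ((a⁻¹ : X) : G) * x = (x⁻¹ * (a : G) * x)⁻¹ := by
      rw [Subgroup.coe_inv]
      group
    rw [this]
    exact H.inv_mem ha

private lemma r6_mem (H X : Subgroup G) (x : G) (s : X) :
    s ∈ r6Sub H X x ↔ x⁻¹ * (s : G) * x ∈ H := Iff.rfl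

open Classical in
/-- sum over a finite group of a function of the image, restricted to a subgroup -/
private lemma r6_sum {X P : Type*} [Group X] [Fintype X] [Group P] [Fintype P]
    (p : X →* P) (S : Subgroup X) (f : P → ℂ)
    (h : ∑ τ : P, (if τ ∈ S.map p then f τ else 0) = 0) :
    ∑ s : X, (if s ∈ S then f (p s) else 0) = 0 := by
  have h1 : ∑ s : X, (if s ∈ S then f (p s) else 0)
      = ∑ τ : P, ∑ s ∈ Finset.univ.filter (fun s : X => p s = τ),
          (if s ∈ S then f (p s) else 0) :=
    (Finset.sum_fiberwise Finset.univ (fun s : X => p s) _).symm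
  rw [h1]
  set N : ℕ := (Finset.univ.filter (fun s : X => s ∈ S ∧ p s = 1)).card with hN
  have h2 : ∀ τ : P, ∑ s ∈ Finset.univ.filter (fun s : X => p s = τ),
      (if s ∈ S then f (p s) else 0) = (N : ℂ) * (if τ ∈ S.map p then f τ else 0) := by
    intro τ
    have h3 : ∑ s ∈ Finset.univ.filter (fun s : X => p s = τ),
        (if s ∈ S then f (p s) else 0)
        = ∑ s ∈ Finset.univ.filter (fun s : X => s ∈ S ∧ p s = τ), f τ := by
      rw [← Finset.sum_filter, Finset.filter_filter]
      apply Finset.sum_congr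
      · ext s
        simp only [Finset.mem_filter, Finset.mem_univ, true_and]
        tauto
      · intro s hs
        rw [Finset.mem_filter] at hs
        rw [hs.2.2]
    rw [h3, Finset.sum_const, nsmul_eq_mul]
    by_cases hτ : τ ∈ S.map p
    · rw [if_pos hτ]
      obtain ⟨s1, hs1, hs1τ⟩ := hτ
      have h4 : (Finset.univ.filter (fun s : X => s ∈ S ∧ p s = τ)).card = N := by
        rw [hN]
        refine Finset.card_equiv (Equiv.mulLeft s1⁻¹) ?_
        intro s
        simp only [Finset.mem_filter, Finset.mem_univ, true_and, Equiv.coe_mulLeft, map_mul,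
          map_inv]
        rw [Subgroup.mul_mem_cancel_left S (S.inv_mem hs1), hs1τ, inv_mul_eq_one]
        constructor
        · rintro ⟨h5, h6⟩
          exact ⟨h5, h6.symm⟩
        · rintro ⟨h5, h6⟩
          exact ⟨h5, h6.symm⟩
      rw [h4]
    · rw [if_neg hτ, mul_zero]
      have h4 : (Finset.univ.filter (fun s : X => s ∈ S ∧ p s = τ)) = ∅ := by
        rw [Finset.filter_eq_empty_iff]
        rintro s - ⟨h5, h6⟩
        exact hτ ⟨s, h5, h6⟩
      rw [h4, Finset.card_empty, Nat.cast_zero, zero_mul]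
  rw [Finset.sum_congr rfl (fun τ _ => h2 τ), ← Finset.mul_sum, h, mul_zero]

open Classical in
theorem noConf_of_augSimple [Infinite G] (hG : LocFin G) (hQ : AltQuot G) (hA : AugSimple G) :
    NoConf G := by
  intro H hH
  by_contra hne
  obtain ⟨S, hS1, hS⟩ := hH
  have hF0 : Finite (Subgroup.closure (S : Set G)) := hG S
  set F₀ := Subgroup.closure (S : Set G) with hF₀
  obtain ⟨n₀, hn₀⟩ := alt_killer (Nat.card F₀)
  obtain ⟨W, hW⟩ := Infinite.exists_subset_card_eq G (n₀.factorial + 1)
  obtain ⟨X, n, p, hXfin, hSX, hrange, hinj⟩ := hQ (S ∪ W)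
  have : Finite X := hXfin
  have : Fintype X := Fintype.ofFinite X
  have hSX' : ∀ g ∈ S, g ∈ X := fun g hg => hSX (by simp [hg])
  have hWX' : ∀ g ∈ W, g ∈ X := fun g hg => hSX (by simp [hg])
  have hScl : ∀ g ∈ S, g ∈ Subgroup.closure ((S ∪ W : Finset G) : Set G) :=
    fun g hg => Subgroup.subset_closure (by simp [hg])
  have hWcl : ∀ g ∈ W, g ∈ Subgroup.closure ((S ∪ W : Finset G) : Set G) :=
    fun g hg => Subgroup.subset_closure (by simp [hg])
  have hn : n₀ ≤ n := by
    by_contra hlt
    push Not at hlt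
    have h1 : Nat.card W ≤ Nat.card (Perm (Fin n)) := by
      refine Nat.card_le_card_of_injective (fun w : W => p ⟨w, hWX' w w.2⟩) ?_
      intro a b hab
      have h2 : p (⟨a, hWX' a a.2⟩⁻¹ * ⟨b, hWX' b b.2⟩) = 1 := by
        rw [map_mul, map_inv, inv_mul_eq_one]
        exact hab
      have h3 := hinj _ (by
        show ((a : G))⁻¹ * (b : G) ∈ _
        exact Subgroup.mul_mem _ (Subgroup.inv_mem _ (hWcl a a.2)) (hWcl b b.2)) h2
      have h4 : ((a : G))⁻¹ * (b : G) = 1 := congrArg Subtype.val h3
      exact Subtype.ext (inv_mul_eq_one.mp h4)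
    rw [Nat.card_eq_fintype_card, Nat.card_eq_fintype_card, Fintype.card_coe, Fintype.card_perm,
      Fintype.card_fin, hW] at h1
    have h2 : n.factorial ≤ n₀.factorial := Nat.factorial_le hlt.le
    omega
  obtain ⟨y, hyalt, hy1, hy⟩ := hn₀ n hn
  let c : G → ℂ := fun g => if h : g ∈ X then y (p ⟨g, h⟩) else 0
  have hcX : ∀ s : X, c s = y (p s) := by
    intro s
    show (if h : (s : G) ∈ X then y (p ⟨s, h⟩) else 0) = y (p s)
    rw [dif_pos s.2]
  let T : Finset G := Finset.univ.image (fun s : X => (s : G))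
  have hT : ∀ g, g ∈ T ↔ g ∈ X := by
    intro g
    simp only [T, Finset.mem_image, Finset.mem_univ, true_and]
    constructor
    · rintro ⟨s, rfl⟩
      exact s.2
    · intro hg
      exact ⟨⟨g, hg⟩, rfl⟩
  have hcT : ∀ g, c g ≠ 0 → g ∈ T := by
    intro g hg
    rw [hT]
    by_contra hgX
    exact hg (dif_neg hgX)
  let a : MonoidAlgebra ℂ G := MonoidAlgebra.ofCoeff (Finsupp.onFinset T c hcT)
  have ha0 : a = 0 := by
    refine coset_faithful hA H hne a ?_
    intro x y0
    have hsum : (a.coeff.sum fun g c => if y0⁻¹ * g * x ∈ H then c else 0)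
        = ∑ s : X, (if y0⁻¹ * (s : G) * x ∈ H then y (p s) else 0) := by
      show ((Finsupp.onFinset T c hcT).sum fun g c => if y0⁻¹ * g * x ∈ H then c else 0) = _
      rw [Finsupp.onFinset_sum]
      · show ∑ g ∈ Finset.univ.image (fun s : X => (s : G)),
          (if y0⁻¹ * g * x ∈ H then c g else 0) = _
        rw [Finset.sum_image]
        · apply Finset.sum_congr rfl
          intro s _
          rw [hcX]
        · intro s _ t _ hst
          exact Subtype.ext hst
      · intro g
        split_ifs <;> rfl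
    rw [hsum]
    by_cases hex : ∃ g0 : X, y0⁻¹ * (g0 : G) * x ∈ H
    · obtain ⟨g0, hg0⟩ := hex
      have hcond : ∀ s : X, y0⁻¹ * ((g0 * s : X) : G) * x ∈ H ↔ s ∈ r6Sub H X x := by
        intro s
        rw [r6_mem]
        have h1 : y0⁻¹ * ((g0 * s : X) : G) * x
            = (y0⁻¹ * (g0 : G) * x) * (x⁻¹ * (s : G) * x) := by
          rw [Subgroup.coe_mul]
          group
        rw [h1]
        exact Subgroup.mul_mem_cancel_left H hg0
      have hre : ∑ s : X, (if y0⁻¹ * (s : G) * x ∈ H then y (p s) else 0)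
          = ∑ s : X, (if s ∈ r6Sub H X x then y (p g0 * p s) else 0) := by
        rw [← Equiv.sum_comp (Equiv.mulLeft g0)]
        apply Finset.sum_congr rfl
        intro s _
        rw [Equiv.coe_mulLeft]
        have h1 := hcond s
        by_cases h2 : s ∈ r6Sub H X x
        · rw [if_pos h2, if_pos (h1.mpr h2), map_mul]
        · rw [if_neg h2, if_neg (fun h => h2 (h1.mp h))]
      rw [hre]
      refine r6_sum p (r6Sub H X x) (fun τ => y (p g0 * τ)) ?_
      have hfin := hy ((F₀.subgroupOf X).map p) (by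
          refine le_trans (Nat.card_le_card_of_surjective
            (fun s : F₀.subgroupOf X => (⟨p s, ⟨s, s.2, rfl⟩⟩ : (F₀.subgroupOf X).map p)) ?_) ?_
          · rintro ⟨_, ⟨s, hs, rfl⟩⟩
            exact ⟨⟨s, hs⟩, rfl⟩
          · refine Nat.card_le_card_of_injective
              (fun s : F₀.subgroupOf X => (⟨((s : X) : G), s.2⟩ : F₀)) ?_
            intro s t hst
            have h1 : ((s : X) : G) = ((t : X) : G) :=
              congrArg (fun z : F₀ => (z : G)) hst
            exact Subtype.ext (Subtype.ext h1))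
        ((r6Sub H X x).map p) (by
          rw [← hrange]
          rintro _ ⟨s, _, rfl⟩
          exact ⟨s, rfl⟩) (by
          intro g hg
          rw [← hrange] at hg
          obtain ⟨w, rfl⟩ := hg
          obtain ⟨h, hhH, hhS⟩ := hS ((w : G)⁻¹ * x)
          refine ⟨p ⟨_, hSX' _ hhS⟩, ⟨⟨_, hSX' _ hhS⟩, ?_, rfl⟩, ?_, ?_⟩
          · show _ ∈ F₀.subgroupOf X
            rw [Subgroup.mem_subgroupOf]
            exact Subgroup.subset_closure hhS
          · intro h1
            have h2 := hinj _ (hScl _ hhS) h1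
            have h3 := congrArg Subtype.val h2
            apply hS1
            have h4 : (w : G)⁻¹ * x * h * ((w : G)⁻¹ * x)⁻¹ = 1 := h3
            rw [h4] at hhS
            exact hhS
          · refine ⟨w * ⟨_, hSX' _ hhS⟩ * w⁻¹, ?_, ?_⟩
            · show _ ∈ r6Sub H X x
              rw [r6_mem]
              have h1 : x⁻¹ * ((w * ⟨_, hSX' _ hhS⟩ * w⁻¹ : X) : G) * x = h := by
                rw [Subgroup.coe_mul, Subgroup.coe_mul, Subgroup.coe_inv]
                show x⁻¹ * ((w : G) * ((w : G)⁻¹ * x * h * ((w : G)⁻¹ * x)⁻¹) * (w : G)⁻¹) * x = h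
                group
              rw [h1]
              exact hhH
            · rw [map_mul, map_mul, map_inv]) (p g0)
      rw [← Equiv.sum_comp (Equiv.mulLeft (p g0))] at hfin
      refine Eq.trans ?_ hfin
      apply Finset.sum_congr rfl
      intro τ _
      rw [Equiv.coe_mulLeft, inv_mul_cancel_left]
    · apply Finset.sum_eq_zero
      intro s _
      rw [if_neg]
      intro h1
      exact hex ⟨s, h1⟩
  have h1 : c 1 = 0 := by
    have h2 : a.coeff 1 = 0 := by
      rw [ha0]
      rfl
    exact h2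
  have h2 : c 1 = y 1 := by
    have h3 := hcX 1
    rw [map_one] at h3
    exact h3
  rw [h2] at h1
  exact hy1 h1

end H49KA
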