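import Pool.Agent.H49.KA.Defs
import Pool.Agent.H49.KA.C9
import Pool.Agent.H49.KA.C10
import Pool.Agent.H49.KA.C11
import Pool.Agent.H49.KA.D4
import Pool.Agent.H49.KA.D5
import Pool.Agent.H49.KA.R6

open Equiv

namespace H49KA
universe u

theorem main (G : Type u) [Group G] [Infinite G] (hG : LocFin G) :
    (∀ 𝓛 : Set (Subgroup G), LocalSystem 𝓛 → HypE 𝓛 → IsSimpleGroup G → NoConf G →
      AugSimple G) ∧
    (AltQuot G → AugSimple G → NoConf G) ∧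
    (∀ 𝓛 : Set (Subgroup G), LocalSystem 𝓛 → AltTops 𝓛 →
      (AugSimple G ↔ IsSimpleGroup G ∧ NoConf G)) := by
  refine ⟨?_, ?_, ?_⟩
  · intro 𝓛 h𝓛 hE hs hC
    exact augSimple_of_repInd hG (repInd_of hG hC 𝓛 h𝓛 hE)
  · intro hQ hA
    exact noConf_of_augSimple hG hQ hA
  · intro 𝓛 h𝓛 hT
    constructor
    · intro hA
      have hs := simple_of_augSimple hA
      exact ⟨hs, noConf_of_augSimple hG (altQuot_of_altTops hG 𝓛 h𝓛 hT) hA⟩
    · rintro ⟨hs, hC⟩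
      exact augSimple_of_repInd hG
        (repInd_of hG hC 𝓛 h𝓛 (hypE_of_altTops hG hC 𝓛 h𝓛 hT))

end H49KA
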