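import Pool.Agent.H49.KA.Defs

namespace H49KA
universe u

variable {G : Type u} [Group G]

/-- a group without proper confined subgroups is simple -/
theorem simple_of_noConf [Nontrivial G] (hC : NoConf G) : IsSimpleGroup G := by
  constructor
  intro N hN
  by_cases h : N = ⊥
  · exact Or.inl h
  · right
    apply hC
    obtain ⟨n, hn, hn1⟩ := (Subgroup.ne_bot_iff_exists_ne_one (H := N)).1 h |> fun ⟨a, ha⟩ =>
      (⟨(a : G), a.2, fun h => ha (Subtype.ext h)⟩ : ∃ n : G, n ∈ N ∧ n ≠ 1)
    refine ⟨{n}, by simpa using fun h => hn1 h.symm, fun g => ⟨g⁻¹ * n * g, ?_, ?_⟩⟩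
    · have := hN.conj_mem n hn g⁻¹
      simpa using this
    · simp [mul_assoc]

end H49KA
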